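import Mathlib

/-!
# CEC: even circuit decompositions and Cayley graphs (MP_854819)
-/

set_option autoImplicit false

namespace Pool.Agent.CEC

/-- `G` has an even circuit decomposition: there are finitely many cycles of even length such that
every edge of `G` is in exactly one of them. -/
def HasECD {V : Type} (G : SimpleGraph V) : Prop :=
  ∃ (k : ℕ) (u : Fin k → V) (c : (i : Fin k) → G.Walk (u i) (u i)),
    (∀ i, (c i).IsCycle ∧ Even (c i).length) ∧ ∀ e ∈ G.edgeSet, ∃! i, e ∈ (c i).edges

/-- The Cayley graph of `Γ` with connection set `S`: `x ≠ y` are adjacent if `x⁻¹ y ∈ S` or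
`y⁻¹ x ∈ S`. -/
def Cay {Γ : Type} [Group Γ] (S : Set Γ) : SimpleGraph Γ :=
  SimpleGraph.fromRel fun x y => x⁻¹ * y ∈ S

end Pool.Agent.CEC
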