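import Pool.Agent.CEC.St

/-!
# CEC [Cel]: colourings of the cells (from [Lab])
-/

set_option autoImplicit false

namespace Pool.Agent.CEC

open SimpleGraph

private def Cel_K {A : Type} [AddCommGroup A] (a b : A) (c : A → Bool) (y : A) : A :=
  if c (y - a) = true then y - a else if c (y - b) = true then y - b else y

private def Cel_L {A : Type} [AddCommGroup A] (a b : A) (c : A → Bool) (x y : A) : Option A :=
  if c x = c y then none else if c x = true then some (Cel_K a b c x) else some (Cel_K a b c y)

open Classical in
private noncomputable def Cel_p {A : Type} [AddCommGroup A] (a b : A) (c : A → Bool) :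
    Option A → A → Bool
  | none, v => if c v = c (v - a) then c v else !c (v - b)
  | some z, v => decide (v = z ∨ v = z + a + b ∨ v = z + a + a ∨ v = z + b + b)

private lemma Cel_reg {A : Type} [AddCommGroup A] {a b : A} (h : NCo a b) :
    Reg4 (Equiv.addRight a) (Equiv.addRight b) := by
  constructor
  · intro x e
    exact h.a1 (by simpa using e)
  · intro x e
    exact h.b1 (by simpa using e)
  · intro x e
    apply h.a2
    have : x + a + a = x := e
    rw [add_assoc] at this
    simpa using this
  · intro x e
    apply h.b2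
    have : x + b + b = x := e
    rw [add_assoc] at this
    simpa using this
  · intro x e
    apply h.ne
    have : x + a = x + b := e
    simpa using this
  · intro x e
    apply h.ng
    have : x + b + a = x := e
    rw [add_assoc, add_comm b a] at this
    simpa using this
  · intro x e
    apply h.ng
    have : x + a + b = x := e
    rw [add_assoc] at this
    simpa using this

/-- the value of `K` and its colour -/
private lemma Cel_Kcases {A : Type} [AddCommGroup A] (a b : A) (c : A → Bool) (y : A) :
    (Cel_K a b c y = y - a ∧ c (y - a) = true) ∨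
    (Cel_K a b c y = y - b ∧ c (y - a) = false ∧ c (y - b) = true) ∨
    (Cel_K a b c y = y ∧ c (y - a) = false ∧ c (y - b) = false) := by
  unfold Cel_K
  by_cases h1 : c (y - a) = true
  · left; simp [h1]
  · by_cases h2 : c (y - b) = true
    · right; left; simp [h1, h2]
    · right; right; simp [h1, h2]

private lemma Cel_P {A : Type} [AddCommGroup A] {a b : A} (h : NCo a b) (c : A → Bool) (z u v : A)
    (hu : u = z ∨ u = z + a + b ∨ u = z + a + a ∨ u = z + b + b)
    (hv : v = z + a ∨ v = z + b ∨ v = z + a + a + b ∨ v = z + a + b + b) :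
    Cel_p a b c (some z) u ≠ Cel_p a b c (some z) v := by
  have h1 : Cel_p a b c (some z) u = true := by
    simp only [Cel_p, decide_eq_true_eq]; exact hu
  have h2 : Cel_p a b c (some z) v = false := by
    simp only [Cel_p, decide_eq_false_iff_not]
    obtain ⟨a1, b1, a2, b2, ne, ng, a2b, a2b', b2a, b2a'⟩ := h
    rcases hv with rfl | rfl | rfl | rfl
    · rintro (e | e | e | e)
      · exact a1 (by grind)
      · exact b1 (by grind)
      · exact a1 (by grind)
      · exact b2a (by grind)
    · rintro (e | e | e | e)
      · exact b1 (by grind)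
      · exact a1 (by grind)
      · exact a2b (by grind)
      · exact b1 (by grind)
    · rintro (e | e | e | e)
      · exact a2b' (by grind)
      · exact a1 (by grind)
      · exact b1 (by grind)
      · exact a2b (by grind)
    · rintro (e | e | e | e)
      · exact b2a' (by grind)
      · exact b1 (by grind)
      · exact b2a (by grind)
      · exact a1 (by grind)
  rw [h1, h2]; simp


/-- the edges of the cell `y` are coloured properly by `p (some (K y))` -/
private lemma Cel_edge {A : Type} [AddCommGroup A] {a b : A} (h : NCo a b) (c : A → Bool) (y : A) :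
    (Cel_p a b c (some (Cel_K a b c y)) (y + a) ≠ Cel_p a b c (some (Cel_K a b c y)) y) ∧
    (Cel_p a b c (some (Cel_K a b c y)) (y + b + a) ≠ Cel_p a b c (some (Cel_K a b c y)) (y + b)) ∧
    (Cel_p a b c (some (Cel_K a b c y)) (y + b) ≠ Cel_p a b c (some (Cel_K a b c y)) y) ∧
    (Cel_p a b c (some (Cel_K a b c y)) (y + a + b) ≠ Cel_p a b c (some (Cel_K a b c y)) (y + a)) := by
  rcases Cel_Kcases a b c y with ⟨e, -⟩ | ⟨e, -, -⟩ | ⟨e, -, -⟩
  · rw [e]
    refine ⟨?_, ?_, ?_, ?_⟩
    · exact Cel_P h c _ _ _ (by grind) (by grind)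
    · exact (Cel_P h c _ _ _ (by grind) (by grind)).symm
    · exact (Cel_P h c _ _ _ (by grind) (by grind))
    · exact (Cel_P h c _ _ _ (by grind) (by grind)).symm
  · rw [e]
    refine ⟨?_, ?_, ?_, ?_⟩
    · exact Cel_P h c _ _ _ (by grind) (by grind)
    · exact (Cel_P h c _ _ _ (by grind) (by grind)).symm
    · exact (Cel_P h c _ _ _ (by grind) (by grind))
    · exact (Cel_P h c _ _ _ (by grind) (by grind)).symm
  · rw [e]
    refine ⟨?_, ?_, ?_, ?_⟩
    · exact (Cel_P h c _ _ _ (by grind) (by grind)).symm
    · exact Cel_P h c _ _ _ (by grind) (by grind)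
    · exact (Cel_P h c _ _ _ (by grind) (by grind)).symm
    · exact (Cel_P h c _ _ _ (by grind) (by grind))

private lemma Cel_pa {A : Type} [AddCommGroup A] {a b : A} (h : NCo a b) (c : A → Bool)
    (hc : Cell a b c) (x : A) :
    Cel_p a b c (Cel_L a b c x (x - b)) (x + a) ≠ Cel_p a b c (Cel_L a b c x (x - b)) x := by
  unfold Cel_L
  by_cases h1 : c x = c (x - b)
  · rw [if_pos h1]
    have d1 := hc.diag (x - a - b)
    have d2 := hc.diag (x - b)
    have e1 : x - a - b + a = x - b := by abel
    have e2 : x - a - b + b = x - a := by abel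
    have e3 : x - a - b + a + b = x := by abel
    have e4 : x - b + b = x := by abel
    have e5 : x + a - b = x - b + a := by abel
    have e6 : x + a - a = x := by abel
    rw [e3, e1, e2] at d1
    rw [e4] at d2
    simp only [Cel_p, e6, e5]
    generalize c (x - b) = c1 at *
    generalize c (x - a) = c2 at *
    generalize c (x - a - b) = c3 at *
    generalize c x = c4 at *
    generalize c (x + a) = c5 at *
    generalize c (x - b + a) = c6 at *
    generalize c (x - b + a + b) = c7 at *
    revert h1 d1 d2
    revert c1 c2 c3 c4 c5 c6 c7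
    decide
  · rw [if_neg h1]
    by_cases h2 : c x = true
    · rw [if_pos h2]
      exact (Cel_edge h c x).1
    · rw [if_neg h2]
      have := (Cel_edge h c (x - b)).2.1
      rwa [sub_add_cancel] at this

private lemma Cel_pb {A : Type} [AddCommGroup A] {a b : A} (h : NCo a b) (c : A → Bool)
    (hc : Cell a b c) (x : A) :
    Cel_p a b c (Cel_L a b c x (x - a)) (x + b) ≠ Cel_p a b c (Cel_L a b c x (x - a)) x := by
  unfold Cel_L
  by_cases h1 : c x = c (x - a)
  · rw [if_pos h1]
    have d1 := hc.diag (x - a)
    have e1 : x - a + a = x := by abel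
    have e2 : x + b - a = x - a + b := by abel
    have e3 : x + b - b = x := by abel
    rw [e1] at d1
    simp only [Cel_p, e2, e3]
    generalize c (x - b) = c1 at *
    generalize c (x - a) = c2 at *
    generalize c (x - a + b) = c3 at *
    generalize c x = c4 at *
    generalize c (x + b) = c5 at *
    revert h1 d1
    revert c1 c2 c3 c4 c5
    decide
  · rw [if_neg h1]
    by_cases h2 : c x = true
    · rw [if_pos h2]
      exact (Cel_edge h c x).2.2.1
    · rw [if_neg h2]
      have := (Cel_edge h c (x - a)).2.2.2
      rwa [sub_add_cancel] at this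

private lemma Cel_one {A : Type} [AddCommGroup A] {a b : A} (h : NCo a b) {c : A → Bool}
    (hc : Cell a b c) (v : A) (hv : c v = true) :
    (c (v + a) = true → c (v - a) = false) ∧ (c (v + a) = true → c (v + b) = false) ∧
    (c (v + a) = true → c (v - b) = false) ∧ (c (v - a) = true → c (v + b) = false) ∧
    (c (v - a) = true → c (v - b) = false) ∧ (c (v + b) = true → c (v - b) = false) := by
  obtain ⟨a1, b1, a2, b2, ne, ng, a2b, a2b', b2a, b2a'⟩ := h
  refine ⟨?_, ?_, ?_, ?_, ?_, ?_⟩
  · intro h1
    rw [← Bool.not_eq_true]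
    intro h2
    have := hc.one v (v + a) (v - a) hv h1 h2 (by grind) (by grind)
    exact a2 (by grind)
  · intro h1
    rw [← Bool.not_eq_true]
    intro h2
    have := hc.one v (v + a) (v + b) hv h1 h2 (by grind) (by grind)
    exact ne (by grind)
  · intro h1
    rw [← Bool.not_eq_true]
    intro h2
    have := hc.one v (v + a) (v - b) hv h1 h2 (by grind) (by grind)
    exact ng (by grind)
  · intro h1
    rw [← Bool.not_eq_true]
    intro h2
    have := hc.one v (v - a) (v + b) hv h1 h2 (by grind) (by grind)
    exact ng (by grind)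
  · intro h1
    rw [← Bool.not_eq_true]
    intro h2
    have := hc.one v (v - a) (v - b) hv h1 h2 (by grind) (by grind)
    exact ne (by grind)
  · intro h1
    rw [← Bool.not_eq_true]
    intro h2
    have := hc.one v (v + b) (v - b) hv h1 h2 (by grind) (by grind)
    exact b2 (by grind)

private lemma Cel_deg {A : Type} [AddCommGroup A] {a b : A} (h : NCo a b) (c : A → Bool)
    (hc : Cell a b c) (w : A) (R U L D : Option A) (hR : R = Cel_L a b c (w + a + b) (w + b))
    (hU : U = Cel_L a b c (w + a + b) (w + a)) (hL : L = Cel_L a b c (w + a) w)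
    (hD : D = Cel_L a b c (w + b) w) :
    (R = L ∧ U = D ∧ R ≠ U) ∨ (R = U ∧ L = D ∧ R ≠ L) ∨ (R = D ∧ L = U ∧ R ≠ L) := by
  have d := hc.diag w
  have oNE := Cel_one h hc (w + a + b)
  have oNW := Cel_one h hc (w + a)
  have oSE := Cel_one h hc (w + b)
  have oSW := Cel_one h hc w
  have e1 : w + a + b - a = w + b := by abel
  have e2 : w + a + b - b = w + a := by abel
  have e3 : w + a - a = w := by abel
  have e4 : w + b - b = w := by abel
  have e5 : w + b + a = w + a + b := by abel
  rw [e1, e2] at oNE
  rw [e3] at oNW
  rw [e4, e5] at oSE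
  have kNE : Cel_K a b c (w + a + b) = if c (w + b) = true then w + b
    else if c (w + a) = true then w + a else w + a + b := by
    unfold Cel_K; rw [e1, e2]
  have kNW : Cel_K a b c (w + a) = if c w = true then w
    else if c (w + a - b) = true then w + a - b else w + a := by
    unfold Cel_K; rw [e3]
  have kSE : Cel_K a b c (w + b) = if c (w + b - a) = true then w + b - a
    else if c w = true then w else w + b := by
    unfold Cel_K; rw [e4]
  have kSW : Cel_K a b c w = if c (w - a) = true then w - a
    else if c (w - b) = true then w - b else w := by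
    unfold Cel_K; rfl
  unfold Cel_L at hR hU hL hD
  rw [kNE, kSE] at hR
  rw [kNE, kNW] at hU
  rw [kNW, kSW] at hL
  rw [kSE, kSW] at hD
  clear kNE kNW kSE kSW e1 e2 e3 e4 e5
  have h' := h
  obtain ⟨a1, b1, a2, b2, ne, ng, a2b, a2b', b2a, b2a'⟩ := h
  cases hNE : c (w + a + b) <;> cases hNW : c (w + a) <;> cases hSE : c (w + b) <;>
    cases hSW : c w <;> simp only [hNE, hNW, hSE, hSW, reduceIte, reduceCtorEq, not_true_eq_false,
      not_false_eq_true, ne_eq, and_true, and_false, true_and, false_and, forall_true_left,
      forall_false, implies_true] at hR hU hL hD d oNE oNW oSE oSW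
  · right; right
    refine ⟨by rw [hR, hD], by rw [hL, hU], by rw [hR, hL]; simp⟩
  · left
    rw [if_neg oSE.2.1] at hR
    rw [if_neg oSW.1, oSW.2.2, if_neg (by simp)] at hL
    refine ⟨by rw [hR, hL], by rw [hU, hD], by rw [hR, hU]; simp⟩
  · right; right
    refine ⟨by rw [hR, hD], by rw [hL, hU], by rw [hR, hL]; simp⟩
  · left
    rw [oSW.1, oSW.2.1, if_neg (by simp), if_neg (by simp)] at hD
    refine ⟨by rw [hR, hL], by rw [hU, hD], by rw [hR, hU]; simp⟩
  · right; right
    refine ⟨by rw [hR, hD], by rw [hL, hU], ?_⟩
    rw [hR, hL]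
    intro e
    have e' := Option.some.inj e
    by_cases h1 : c (w + b - a) = true
    · rw [if_pos h1] at e'
      by_cases h2 : c (w + a - b) = true
      · rw [if_pos h2] at e'
        have h3 := (Cel_one h' hc (w + b - a) h1).2.1
        have e5 : w + b - a + a = w + b := by abel
        have e6 : w + b - a + b = w + a := by rw [e']; abel
        rw [e5, e6, hSE, hNW] at h3
        simp at h3
      · rw [if_neg h2] at e'
        exact a2b (by grind)
    · rw [if_neg h1] at e'
      by_cases h2 : c (w + a - b) = true
      · rw [if_pos h2] at e'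
        exact b2a (by grind)
      · rw [if_neg h2] at e'
        exact ne (by grind)
  · right; left
    refine ⟨by rw [hR, hU], by rw [hL, hD], ?_⟩
    rw [hR, hL]
    intro e
    have e' := Option.some.inj e
    by_cases h1 : c (w - a) = true
    · rw [if_pos h1] at e'
      exact a2b' (by grind)
    · rw [if_neg h1] at e'
      by_cases h2 : c (w - b) = true
      · rw [if_pos h2] at e'
        exact b2a' (by grind)
      · rw [if_neg h2] at e'
        exact ng (by grind)
  · left
    rw [oSE.1, if_neg (by simp)] at hD
    refine ⟨by rw [hR, hL], by rw [hU, hD], by rw [hR, hU]; simp⟩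
  · left
    rw [oNW.2.2, if_neg (by simp)] at hL
    refine ⟨by rw [hR, hL], by rw [hU, hD], by rw [hR, hU]; simp⟩

/-- [Cel] -/
theorem thm_Cel (hLab : St_Lab) : St_Cel := by
  intro A _ _ a b c h hc
  refine hLab A (Equiv.addRight a) (Equiv.addRight b) (Cel_reg h) (Option A)
    (fun x => Cel_L a b c x (x - b)) (fun x => Cel_L a b c x (x - a)) (Cel_p a b c)
    ⟨fun x => Cel_pa h c hc x, fun x => Cel_pb h c hc x, ?_⟩
  intro x y z hy hz
  have hy' : y + a = x := hy
  have hz' : z + b = x := hz
  have ey : y = x - a - b + b := by rw [← hy']; abel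
  have ez : z = x - a - b + a := by rw [← hz']; abel
  have ex : x = x - a - b + a + b := by abel
  have h1 := Cel_deg h c hc (x - a - b) (Cel_L a b c x (x - a)) (Cel_L a b c x (x - b))
    (Cel_L a b c z (z - a)) (Cel_L a b c y (y - b))
    (by rw [← ex, ← ey]; congr 1; rw [← hy']; abel)
    (by rw [← ex, ← ez]; congr 1; rw [← hz']; abel)
    (by rw [← ez]; congr 1; rw [← hz']; abel)
    (by rw [← ey]; congr 1; rw [← hy']; abel)
  rcases h1 with ⟨h1, h2, h3⟩ | ⟨h1, h2, h3⟩ | ⟨h1, h2, h3⟩
  · exact Or.inl ⟨h1, h2, h3⟩
  · exact Or.inr (Or.inl ⟨h1, h2, h3⟩)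
  · exact Or.inr (Or.inr ⟨h1, h2, h3⟩)

end Pool.Agent.CEC
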