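import Pool.Agent.CEC.Defs

/-!
# CEC: the statements

Every `def St_X : Prop` is a module `Pool/Agent/CEC/X.lean` with `theorem thm_X : St_X` or
`theorem thm_X (h : St_Y) .. : St_X` (cite the other statements as hypotheses, do not import the other
modules). Notation in the proofs: `tr a = Equiv.addRight a : x ↦ x + a`, `mr a = Equiv.mulRight a :
x ↦ x a`; for `x : V` and permutations `α, β` the four edges of `PG α β` at `x` are
`R = {x, β x}`, `L = {β⁻¹ x, x}`, `U = {x, α x}`, `D = {α⁻¹ x, x}`.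
-/

set_option autoImplicit false

namespace Pool.Agent.CEC

open SimpleGraph

/-! ### 1. Tools -/

/-- [Cls] classes of edges.
Proof. For `i : I` let `H i` be the graph with `Adj x y := G.Adj x y ∧ f x y = i`. By the third
hypothesis `(H i).IsCycles` (Mathlib, Combinatorics/SimpleGraph/Matching). For an edge `{x, y}` of `G`
and `i = f x y` let `C` be the component of `x` in `H i`;
`IsCycles.exists_cycle_toSubgraph_verts_eq_connectedComponentSupp` gives a cycle `w` of `H i` with
vertex set `C`, and `Walk.IsCycle.adj_toSubgraph_iff_of_isCycles` shows that the edges of `w` are all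
the edges of `H i` inside `C`. The colour `p i` changes along every edge of `H i`, so the length of the
closed walk `w` is even. Let `J` be the finite set of all pairs `(i, C)` which occur (the image of the
set of the edges of `G`), choose a cycle for every member of `J`, `J ≃ Fin k`, `Walk.mapLe`. The edge
`{x, y}` is in the cycle of `(f x y, component of x)`; and if it is in the cycle of `(i, C)` then
`i = f x y` and `C` is the component of `x`. -/
def St_Cls : Prop := ∀ (V : Type) [Finite V] (G : SimpleGraph V) (I : Type) (f : V → V → I)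
  (p : I → V → Bool),
  (∀ x y, G.Adj x y → f x y = f y x) → (∀ x y, G.Adj x y → p (f x y) x ≠ p (f x y) y) →
  (∀ x y, G.Adj x y → ∃! z, z ≠ y ∧ G.Adj x z ∧ f x z = f x y) → HasECD G

/-- [Iso] isomorphic graphs; the graph `PG α β` does not change if one replaces `α` by its inverse or
exchanges `α` and `β`, or conjugates both by a bijection.
Proof. First part: map the walks. The others: equality of graphs / first part. -/
def St_Iso : Prop :=
  (∀ (V W : Type) (G : SimpleGraph V) (H : SimpleGraph W) (e : V ≃ W),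
    (∀ x y, G.Adj x y ↔ H.Adj (e x) (e y)) → HasECD G → HasECD H) ∧
  (∀ (V : Type) (α β : Equiv.Perm V), PG α.symm β = PG α β ∧ PG β α = PG α β) ∧
  (∀ (V W : Type) (α β : Equiv.Perm V) (α' β' : Equiv.Perm W) (e : V ≃ W),
    (∀ x, e (α x) = α' (e x)) → (∀ x, e (β x) = β' (e x)) → HasECD (PG α β) → HasECD (PG α' β'))

/-- [Lab] labels for the graph of two permutations.
Proof. [Cls] with `f x y := fa x` if `y = α x`, `fa y` if `x = α y`, `fb x` if `y = β x`, `fb y` if
`x = β y` (these cases exclude each other because of `Reg4`). The four neighbours of `x` are different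
by `Reg4`, so `deg` is the third hypothesis of [Cls]. -/
def St_Lab : Prop := ∀ (V : Type) [Finite V] (α β : Equiv.Perm V), Reg4 α β →
  ∀ (I : Type) (fa fb : V → I) (p : I → V → Bool), Lab α β fa fb p → HasECD (PG α β)

/-- [Qin] two involutions.
Proof. Let `h := s * s'`, `[x]` the class of `x` in `Γ ⧸ zpowers h`. Then `[x s'] = [x s]` (as
`x s' = (x s) (s s')`) and `[x s' s] = [x]` (`s' s = h⁻¹`). `s ∉ zpowers h`: if `s = s'` then `h = 1`;
otherwise `s' = s h` would be in the cyclic group `zpowers h` too, but a cyclic group contains at most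
one element of order two (`IsCyclic.card_pow_eq_one_le`). So `[x s] ≠ [x]`. Let `e : Γ ⧸ zpowers h → ℕ`
be injective and `q x := decide (e [x] < e [x s])`. -/
def St_Qin : Prop := ∀ (Γ : Type) [Group Γ] [Finite Γ] (s s' : Γ), s * s = 1 → s' * s' = 1 →
  s ≠ 1 → s' ≠ 1 → ∃ q : Γ → Bool, ∀ y, q (y * s) = !q y ∧ q (y * s') = !q y

/-! ### 2. Cayley graphs with involutions -/

/-- [Inv] four involutions.
Proof. [Cls] with `I = Bool`, label `true` for the edges `{x, x s}`, `{x, x t}` and `false` for the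
edges `{x, x u}`, `{x, x w}`; `p true`, `p false` from [Qin]. -/
def St_Inv : Prop := ∀ (Γ : Type) [Group Γ] [Finite Γ] (s t u w : Γ),
  s * s = 1 → t * t = 1 → u * u = 1 → w * w = 1 → s ≠ 1 → t ≠ 1 → u ≠ 1 → w ≠ 1 →
  s ≠ t → s ≠ u → s ≠ w → t ≠ u → t ≠ w → u ≠ w → HasECD (Cay ({s, t, u, w} : Set Γ))

/-- [Mix] one cycle generator and two involutions, generic case.
Proof. `s' := a t a⁻¹` is an involution, `D := closure {s', s}`, `[x] ∈ Γ ⧸ D`, `q` from [Qin] for
`s, s'`. Labels in `Γ ⧸ D`: `[x]` for the edge `{x, x a}`, `[x] = [x s]` for the edge `{x, x s}`,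
`[x a⁻¹] = [x t a⁻¹]` for the edge `{x, x t}` (`t a⁻¹ = a⁻¹ s'`). As `a ∉ D`: `[x] ≠ [x a⁻¹]` for all
`x`. So at the vertex `x` the edges to `x a` and `x s` have the label `[x]`, the edges to `x a⁻¹` and
`x t` have the label `[x a⁻¹]`. `p c y := q y` if `[y] = c`, `!q (y a⁻¹)` otherwise. Check: for
`{x, x s}`: `q (x s) = !q x`; for `{x, x a}`, `c = [x]`: `[x a] ≠ c`, so `p c (x a) = !q x`; for
`{x, x t}`, `c = [x a⁻¹]`: `[x] ≠ c`, `[x t] ≠ [x t a⁻¹] = c`, `p c (x t) = !q (x t a⁻¹) =
!q (x a⁻¹ s') = q (x a⁻¹) = !p c x`. Then [Cls]. -/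
def St_Mix : Prop := ∀ (Γ : Type) [Group Γ] [Finite Γ] (a s t : Γ),
  a * a ≠ 1 → s * s = 1 → t * t = 1 → s ≠ 1 → t ≠ 1 → s ≠ t →
  a ∉ Subgroup.closure ({a * t * a⁻¹, s} : Set Γ) → HasECD (Cay ({a, a⁻¹, s, t} : Set Γ))

/-- [Dih] one cycle generator and two involutions, dihedral case.
Proof. `s' := a t a⁻¹`, `g := s' s`, `R := zpowers g`. `s g s = g⁻¹`, so `s x s = x⁻¹` for `x ∈ R`, and
every element of `closure {s', s}` is in `R` or in `R s`. If `a = x s`, `x ∈ R`, then `a a = 1`; so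
`a ∈ R`. `s' = g s` and `t = a⁻¹ s' a = a⁻¹ g (s a) = a⁻¹ g a⁻¹ s`, so `t = r s` with `r ∈ R`. If
`s ∈ R` then `s` commutes with `a`, so `a⁻¹ = s a s = a`, `a a = 1`: no. So `s, t ∉ R`. `Γ = R ∪ R s`
as `closure {a, s, t} = ⊤`. So `x s ∉ R ↔ x ∈ R`, the same for `t`, and `s a s = t a t = a⁻¹`.
Permutations of `Γ`: `β x := x a` for `x ∈ R`, `x a⁻¹` for `x ∉ R`; `α x := x s` for `x ∈ R`, `x t` for
`x ∉ R`. They commute; `β` preserves `R`, `α` exchanges `R` and its complement; the neighbours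
`α x, α⁻¹ x, β x, β⁻¹ x` are `x s, x t, x a, x a⁻¹` (in some order), so
`Cay {a, a⁻¹, s, t} = PG α β`, `Reg4 α β`. The group generated by `α, β` is transitive (its orbits are
closed under right multiplication by `a, s, t`). [Two] with `π x := decide (x ∉ R)`. -/
def St_Dih : Prop := ∀ (Γ : Type) [Group Γ] [Finite Γ] (a s t : Γ),
  a * a ≠ 1 → s * s = 1 → t * t = 1 → s ≠ 1 → t ≠ 1 → s ≠ t →
  Subgroup.closure ({a, s, t} : Set Γ) = ⊤ →
  a ∈ Subgroup.closure ({a * t * a⁻¹, s} : Set Γ) → HasECD (Cay ({a, a⁻¹, s, t} : Set Γ))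

/-! ### 3. Two commuting permutations -/

/-- [Str] staircases.
Proof. [Lab] with `α = mr a`, `β = mr b`, `H := zpowers (a b)`, `I = Γ ⧸ H`, `fa x := [x]`,
`fb x := [x a⁻¹]`, `p c x := decide ([x] = c)`. `[x a⁻¹] ≠ [x]` for all `x` as `a ∉ H`.
`pa`: `[x a] ≠ [x]`. `pb`: for `x b`: `[x b] = [x a⁻¹ (a b)] = [x a⁻¹]`; for `x`: `[x] ≠ [x a⁻¹]`.
`deg` at `x = y a = z b`: `fb x = [x a⁻¹] = [y] = fa y`, `fb z = [z a⁻¹] = [x b⁻¹ a⁻¹] = [x] = fa x`:
third alternative. -/
def St_Str : Prop := ∀ (Γ : Type) [Group Γ] [Finite Γ] (a b : Γ),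
  Reg4 (Equiv.mulRight a) (Equiv.mulRight b) → a ∉ Subgroup.zpowers (a * b) →
  HasECD (PG (Equiv.mulRight a) (Equiv.mulRight b))

/-- [Zig] zigzags.
Proof. Let `[x]` be the orbit of `x` under the powers of `α ^ 2` (`MulAction.orbitRel.Quotient`). The
hypothesis says `[β x] ≠ [x]` for all `x`. `e x := [x]` if `π x = false`, `[α β⁻¹ x]` if `π x = true`;
`l x := [β⁻¹ x]` if `π x = false`, `[α x]` if `π x = true`. [Lab] with `fa x := l x`, `fb x := [x]` if
`π x = false`, `[α x]` if `π x = true`, `p c x := decide (e x = c)`. Then `e x ≠ l x` for all `x`,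
`fa x = l x = e (α x)`, and if `π x = false` then `fb x = e x = l (β x)`, if `π x = true` then
`fb x = l x = e (β x)`. `deg` at `x = α y = β z`: `fa y = e x`, `fa x = l x`; `π x = false`:
`fb x = e x`, `fb z = l (β z) = l x` (third alternative); `π x = true`: `fb x = l x`,
`fb z = e (β z) = e x` (second alternative). -/
def St_Zig : Prop := ∀ (V : Type) [Finite V] (α β : Equiv.Perm V), Reg4 α β →
  (∀ x, α (β x) = β (α x)) → ∀ π : V → Bool, (∀ x, π (α x) = !π x) → (∀ x, π (β x) = π x) →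
  (∀ (x : V) (k : ℤ), ((α ^ (2 : ℕ)) ^ k) x ≠ β x) → HasECD (PG α β)

/-- [Zet] the circulants `C_N(1, t)` with `N` and `t` even.
Proof. `g := gcd(t, N)` is even, `g ≤ t`, `N = g n`, `n ≥ 3`. `α = tr 1`, `β = tr t`. `ℤ/N` is
represented by `0, .., N - 1`. Let `R` be the set of the `z` such that `z` or `z + t` is one of
`0, 2, 4, .., g - 2`. [Lab] with `I = Bool`, `fa z := decide (z ∈ R)` (label of `{z, z + 1}`),
`fb x := decide (x + t ∉ {0, 1, .., g - 1})` (label of `{x, x + t}`).
`deg`: if `x, x + t ∉ {0, .., g - 1}` then `U, D` have the label `false`, `L, R` the label `true`. If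
`x ∈ {0, .., g - 1}` (then `x + t` is not): `L` is false, `R` is true; for `x` even `U` is true, `D`
false, for `x` odd conversely. If `x + t ∈ {0, .., g - 1}` (then `x` is not): `L` is true, `R` false;
for `x` even `U` is true, `D` false, for `x` odd conversely.
`p true x`: every `x` is `j + k t` with unique `0 ≤ j < g`, `0 ≤ k < n`; `p true x := j + k` modulo two.
Edge `{x, x + t}` with label `true`: `k < n - 1`, `k` increases by one. Edge `{z, z + 1}`, `z ∈ R`:
`k = 0` (or `k = n - 1`) for both ends, `j` increases by one (`j` even, `j + 1 < g`).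
`p false x := x` modulo two, plus one if `x` is not in the cyclic interval `J` of length `t` from
`g - 1 - t` to `g - 2`. Edge `{x, x + t}` with `z = x + t ∈ {0, .., g - 1}`: exactly one of `z`,
`z - t` is in `J` (`g ≤ t`, `g ≤ N - t`). Edge `{z, z + 1}` with `z ∉ R`: `z, z + 1` are both in
`J` or both not in `J`, as the ends of `J` are at `z = g - 2 ∈ R` and `z = g - 2 - t ∈ R`. -/
def St_Zet : Prop := ∀ N t : ℕ, Even N → Even t → 0 < t → t < N → 2 * t ≠ N →
  HasECD (PG (Equiv.addRight (1 : ZMod N)) (Equiv.addRight (t : ZMod N)))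

/-- [Two] two commuting permutations with a parity.
Proof. If `(α ^ 2) ^ k x ≠ β x` for all `x`, `k` use [Zig]. Otherwise `(α ^ 2) ^ k x0 = β x0` for some
`x0`, `k`; by transitivity and commutativity `β = α ^ (2 k)`, so `α` is transitive; `N := card V`;
`i ↦ α ^ i x0` is a bijection `e : ZMod N ≃ V` with `e (i + 1) = α (e i)`, `e (i + t) = β (e i)` for
`t :≡ 2 k` modulo `N`, `0 ≤ t < N`. `N` is even (`π` changes along `α`), `t` is even, `t ≠ 0` and
`2 t ≠ N` by `Reg4`. [Zet] and [Iso]. -/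
def St_Two : Prop := ∀ (V : Type) [Finite V] (α β : Equiv.Perm V), Reg4 α β →
  (∀ x, α (β x) = β (α x)) → (∀ x y, ∃ i j : ℤ, (α ^ i) ((β ^ j) x) = y) →
  ∀ π : V → Bool, (∀ x, π (α x) = !π x) → (∀ x, π (β x) = π x) → HasECD (PG α β)

/-! ### 4. Abelian groups of odd order -/

/-- [Phi] zigzags with a phase.
Proof. [Lab] with `I = ZMod m`, `fa x := Φ (x + a)`, `fb x := Φ x` if `e x`, `Φ x + 1` otherwise,
`p c x := decide (Φ x = c)` (`m ≠ 1`, so `Φ x ≠ Φ x ± 1`). `deg` at `x = y + a = z + b`: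
`fa y = Φ x`, `fa x = Φ x ∓ 1`; `e x`: `fb x = Φ x`, `fb z = Φ z = Φ x - 1` (third alternative);
not `e x`: `fb x = Φ x + 1`, `fb z = Φ z + 1 = Φ x` (second alternative). -/
def St_Phi : Prop := ∀ (A : Type) [AddCommGroup A] [Finite A] (a b : A) (m : ℕ) (Φ : A → ZMod m)
  (e : A → Bool), m ≠ 1 → Reg4 (Equiv.addRight a) (Equiv.addRight b) → (∀ x, e (x + b) = e x) →
  (∀ x, Φ (x + b) = Φ x + 1) → (∀ x, Φ (x + a) = if e x then Φ x - 1 else Φ x + 1) →
  HasECD (PG (Equiv.addRight a) (Equiv.addRight b))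

/-- [Zip] neither `a` nor `b` is a generator.
Proof. Let `p` be a prime divisor of `gcd(a, N)` and `p'` one of `gcd(b, N)`. If `gcd(b, N) < p` and
`gcd(a, N) < p'` then `p' ≤ gcd(b, N) < p ≤ gcd(a, N) < p'`: so one of them fails, and because of the
symmetry ([Iso]) let `p ≤ g := gcd(b, N)`. `p`, `g` are odd, `gcd(a, g) = 1`, `p ∤ b`. Let
`row : ZMod N → ZMod g`, `row x = x a⁻¹` (reduce modulo `g`), `h := (g + p) / 2`,
`S : ℕ → ℤ`, `S y := y` for `y ≤ h`, `2 h - y` for `y ≥ h`; so `S g = p`, `S (y + 1) = S y + 1` for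
`y < h`, `S y - 1` for `y ≥ h`. `Φ x := x b⁻¹ - S (row x).val` in `ZMod p`,
`e x := decide ((row x).val < h)`. Then `row (x + b) = row x`, `row (x + a) = row x + 1`, and as
`a = 0` in `ZMod p` and `S g = p = 0 = S 0` in `ZMod p`, [Phi] applies with `m = p`. `Reg4`: `N` is odd
and `a, b ≠ 0`, `a ≠ ±b` by the condition on the gcd. -/
def St_Zip : Prop := ∀ N a b : ℕ, Odd N → 1 < Nat.gcd a N → 1 < Nat.gcd b N →
  Nat.gcd (Nat.gcd a b) N = 1 →
  HasECD (PG (Equiv.addRight (a : ZMod N)) (Equiv.addRight (b : ZMod N)))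

/-- [Cel] colourings of the cells.
Proof. Cell `x` has the vertices `x, x + b, x + a, x + a + b`. The edge `{x, x + b}` is between the
cells `x` and `x - a`, the edge `{x, x + a}` between the cells `x` and `x - b`. Let `I = Option A`,
`none` for the edges between cells of the same colour (set `M`), `some (K y)` for the edges between a
black cell `y` (`c y = true`) and a white one, where `K y := y - a` if `c (y - a)`, otherwise `y - b` if
`c (y - b)`, otherwise `y`. By `one`: if `K y = z` then `z` is black, `y ∈ {z, z + a, z + b}`, and if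
`y ≠ z` then `y` is the only black neighbour of `z` and `K z = z`.
`p none v := c v` if `c v = c (v - a)`, `!c (v - b)` otherwise.
`p (some z) v := decide (v ∈ {z, z + a + b, z + 2a, z + 2b})`.
`pa`, `pb` for `some z`: by `NCo` the sets `{z, z + a + b, z + 2a, z + 2b}` and
`{z + a, z + b, z + 2a + b, z + a + 2b}` are disjoint; for each of the three possible cells
`y = z, z + a, z + b` every edge of the cell `y` has one end in each of the two sets.
For the rest let `x` be a vertex, `NE = x`, `NW = x - b`, `SE = x - a`, `SW = x - a - b` the cells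
around it; `R` is between `NE, SE`, `U` between `NE, NW`, `L` between `NW, SW`, `D` between `SW, SE`;
`diag` (at `SW`) says: if `c NW = c SE` then `c SW ≠ c NW` and `c NE ≠ c NW`. So: not both of `U, R`
are in `M`, and not both of `L, D` are in `M`.
`pa`, `pb` for `none`: edge `{x, x + b} ∈ M`: `p none x = c x`; at `w = x + b`: if `c w = c (w - a)`
then `p none w = c w ≠ c x` (`L, R ∈ M` at `w` so `U ∉ M`), otherwise `p none w = !c (w - b) = !c x`.
Edge `{x, x + a} ∈ M` (`c x = c (x - b)`): `R ∉ M` at `x`, so `p none x = !c (x - b)`; at `w = x + a`: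
if `c w = c (w - a)` then `p none w = c w = c x = c (x - b)`; otherwise
`p none w = !c (w - b) = !c (x + a - b)`, and `c (x + a - b) ≠ c (x - b)` as `D ∈ M` at `w`, so
`L ∉ M` at `w`.
`deg` at `x`. (1) `c NW = c SE`: no edge at `x` is in `M`. `NE, SW` black: `R = U = K NE`,
`L = D = K SW`, `K NE ≠ K SW`: otherwise both are in `{z, z + a, z + b}`, but their difference is
`a + b`, and `NCo` excludes `a + b = 0, ±a, ±b, ±(a - b)`. `NW, SE` black: `U = L = K NW`,
`R = D = K SE`, `K NW ≠ K SE`: otherwise (difference `a - b`, `NCo`) `{NW, SE} = {z + a, z + b}` and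
`z` has two black neighbours.
(2) `c NW ≠ c SE`. (2a) `c NE = c NW`, `c SW = c NW`: `U, L ∈ M`; they are white (else `NW` has the two
black neighbours `NE, SW`), `R = D = K SE`. (2b) `c NE = c NW`, `c SW = c SE`: `U, D ∈ M`, `R, L` have
the same label: `K NE = K NW = NW` or `K SE = K SW = SW` (by `one` the other black neighbours do not
exist). (2c) `c NE = c SE`, `c SW = c NW`: `R, L ∈ M`, `K NE = K SE = SE` or `K NW = K SW = SW`.
(2d) `c NE = c SE`, `c SW = c SE`: `R, D ∈ M`, they are white, `U = L = K NW`. [Lab]. -/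
def St_Cel : Prop := ∀ (A : Type) [AddCommGroup A] [Finite A] (a b : A) (c : A → Bool), NCo a b →
  Cell a b c → HasECD (PG (Equiv.addRight a) (Equiv.addRight b))

/-- [Del] the circulants `C_N(1, t)`, `N` and `t` odd, `t < N / 2`.
Proof. [Cel] in `ZMod N` with `a := -t`, `b := 1`, `c x := decide (x.val is odd)`; then [Iso].
`one`: let `x.val` be odd. `x ± 1` is even (also if one passes from `N - 1` to `0`: `N - 1` is even).
`x + t` is odd only if `x.val ≥ N - t`, `x - t` is odd only if `x.val < t`; not both as `2 t < N`.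
`diag`: `c (x + 1) ≠ c x` except for `x = N - 1`; `c (x - t) ≠ c x` iff `x.val ≥ t`. If
`c (x - t) = c (x + 1)` then `x ≠ N - 1` and `x.val ≥ t`; so `c x ≠ c (x - t)`, and
`c (x - t + 1) ≠ c (x - t)` as `x - t ≠ N - 1`. `NCo`: `t ≠ 0, ±1, ±2`, `2 t ≠ 0, ±1` modulo `N`. -/
def St_Del : Prop := ∀ N t : ℕ, Odd N → Odd t → 3 ≤ t → 2 * t + 1 < N →
  HasECD (PG (Equiv.addRight (t : ZMod N)) (Equiv.addRight (1 : ZMod N)))

/-- [Eps] the circulants `C_N(1, t)`, `N` odd, `t` even, `t < N / 2`.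
Proof. `q := N / t`, `r := N % t`, `0 < r < t`. Write `x.val = i t + j`.
(A) `q` even: `v := q + 1`, `h := v t - N = t - r` (odd, `0 < h < t`, `v ≥ 3` odd). [Cel] with
`a := -t`, `b := 1`, `c x := decide (i + j is odd)`, `i = x.val / t < v`, `j = x.val % t`.
`one`. Let `x = (i, j)` be black. `x + 1` is black iff `j = t - 1` (then `i` is even); `x - 1` is black
iff `j = 0` (then `i` is odd) (`x = N - 1 = (v - 1, t - h - 1)` and `x = 0` are white). `x + t` is
`(i + 1, j)`, white, if `x.val + t < N`; otherwise `i = v - 1` and `x + t = (0, j + h)` is white, or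
`i = v - 2`, `j ≥ t - h` and `x + t = (0, j - t + h)` is black. `x - t` is `(i - 1, j)`, white, if
`i ≥ 1`; for `i = 0` it is `(v - 1, j - h)`, white, if `j ≥ h`, and `(v - 2, t + j - h)`, black, if
`j < h`. So `x` has at most one black neighbour: `i` even, `j = t - 1`; or `i` odd, `j = 0`; or
`i = v - 2`, `j ≥ t - h > 0`; or `i = 0`, `j < h ≤ t - 1` (`v - 2` is odd).
`diag`: `c (x + 1) = c x` iff `j = t - 1` or `x = N - 1`; `c (x - t) = c x` iff `x.val < h`. So
`c (x - t) = c (x + 1)` iff both are `≠ c x` or both `= c x`; both `= c x` is impossible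
(`x.val < h ≤ t - 1` and `j = t - 1` or `x = N - 1`); so `c x ≠ c (x - t)` and `x.val ≥ h`, `j ≠ t - 1`,
`x ≠ N - 1`. Then `x + 1 ≠ 0`, `(x + 1).val ≥ h`, so `c (x + 1 - t) ≠ c (x + 1) = c (x - t)`.
(B) `q` odd: `v := q` (`v ≥ 3`), `h := r` (odd), `N = v t + h`. [Cel] with `a := t`, `b := 1`,
`c x := decide (i + j is odd)`, where now `i = min (x.val / t) (v - 1)`, `j = x.val - i t` (so
`j < t + h` for `i = v - 1`, `j < t` for `i < v - 1`).
`c (x + 1) = c x` iff `x + 1 = i t` for some `0 ≤ i ≤ v - 1`, that is `x = N - 1` (white) or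
`x = (i, t - 1)` with `i ≤ v - 2` (black iff `i` is even). `c (x + t) = c x` iff `i = v - 1` and `j < h`,
that is `N - t - h ≤ x.val < N - t` (for `i < v - 1`: `x + t = (i + 1, j)`; `i = v - 1`, `j < h`:
`x + t = (v - 1, j + t)`; `i = v - 1`, `j ≥ h`: `x + t = (0, j - h)`); so `c (x - t) = c x` iff
`N - h ≤ x.val`, that is `i = v - 1`, `j ≥ t`.
`one`: the black `x` with a black neighbour are: `(i, t - 1)` with `i ≤ v - 2` even (only `x + 1`);
`(i, 0)` with `1 ≤ i ≤ v - 1` odd (only `x - 1`); `(v - 1, j)`, `j < h` odd (only `x + t`);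
`(v - 1, j)`, `j ≥ t` (only `x - t`); these are different cells.
`diag`: suppose `c (x + t) = c (x + 1)`. Both `= c x` is impossible (`i = v - 1`, `j < h` against
`x = N - 1` or `i ≤ v - 2`). So both are `≠ c x`. If `c (x + 1 + t) = c (x + 1)` then
`N - t - h ≤ (x + 1).val < N - t`, but not so for `x`, so `(x + 1).val = N - t - h = (v - 1) t` and
`c (x + 1) = c x`: no. So `c (x + t + 1) ≠ c (x + 1) = c (x + t)`.
(The whole construction was checked by computer for all odd `N < 400`.) `NCo`: `t ≠ 0, ±1, ±2`,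
`2 t ≠ 0, ±1` modulo `N`. In (A) use [Iso] to replace `-t` by `t`. -/
def St_Eps : Prop := ∀ N t : ℕ, Odd N → Even t → 4 ≤ t → 2 * t + 1 < N →
  HasECD (PG (Equiv.addRight (t : ZMod N)) (Equiv.addRight (1 : ZMod N)))

/-- [Squ] the circulants `C_N(1, 2)`, `N` odd, `N ≥ 7`.
Proof. Three cycles: `Q = 0, 1, 3, 2`, `C = 1, 2, 4, 3, 5, 6, 7, .., N - 1`,
`E = 0, N - 2, N - 4, .., 7, 5, 4, 6, 8, .., N - 1`. [Lab] with `α = tr 2`, `β = tr 1`, `I = Fin 3`
(`Q = 0`, `C = 1`, `E = 2`). `fb x` (edge `{x, x + 1}`): `Q` for `x = 0, 2`, `E` for `x = 4, N - 1`,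
`C` for all other `x`. `fa x` (edge `{x, x + 2}`): `Q` for `x = 0, 1`, `C` for `x = 2, 3, N - 1`, `E` for
`4 ≤ x ≤ N - 2`. `p Q x`: true for `x = 0, 3`. `p C x`: true for `x = 1`, `x = 4` and for odd `x ≥ 5`.
`p E x`: for even `x ≥ 4`: true iff `x / 2` is even; for odd `x ≥ 5`: true iff `(x - 1) / 2` is odd;
`p E 0`: true iff `(N - 1) / 2` is odd. (For `N - 1`: true iff `(N - 1) / 2` is even; for `N - 2`: true
iff `(N - 3) / 2` is odd: both different from `p E 0`.) -/
def St_Squ : Prop := ∀ N : ℕ, Odd N → 7 ≤ N →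
  HasECD (PG (Equiv.addRight (2 : ZMod N)) (Equiv.addRight (1 : ZMod N)))

/-- [Odd] cyclic groups of odd order.
Proof. The hypothesis says `gcd(a, b, N) = 1`. If `gcd(a, N) > 1` and `gcd(b, N) > 1` (representatives
in `ℕ`): [Zip]. Otherwise by [Iso] (exchange) `b` is a unit of `ZMod N`; multiplication by `b⁻¹` and
[Iso] reduce to `b = 1`, `a = t`. Replacing `t` by `-t` ([Iso]): `t = t0`, `2 ≤ t0`, `2 t0 < N`
(`Reg4` excludes `t0 = 0, 1`; `N` is odd). `t0 = 2`: [Squ] (`N ≠ 5`, `N > 4`). `2 t0 + 1 = N`: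
multiplication by `2` gives `PG (tr (-1)) (tr 2)`, so [Iso], [Squ]. Otherwise [Del] for `t0` odd, [Eps]
for `t0` even. -/
def St_Odd : Prop := ∀ (N : ℕ) (a b : ZMod N), Odd N → N ≠ 5 →
  Reg4 (Equiv.addRight a) (Equiv.addRight b) → AddSubgroup.closure ({a, b} : Set (ZMod N)) = ⊤ →
  HasECD (PG (Equiv.addRight a) (Equiv.addRight b))

/-- [Evn] cyclic groups of even order.
Proof. `N > 0`. Let `π : ZMod N → ZMod 2` be the reduction. Not both `π a = 0`, `π b = 0` (closure). If
`π a = π b = 1`: [Lab] with `I = Bool`, `fa = true`, `fb = false`, `p _ x := decide (π x = 0)` (first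
alternative of `deg`). If `π a = 1`, `π b = 0`: [Two] (transitive: closure). If `π a = 0`, `π b = 1`:
exchange ([Iso]). -/
def St_Evn : Prop := ∀ (N : ℕ) (a b : ZMod N), N ≠ 0 → Even N →
  Reg4 (Equiv.addRight a) (Equiv.addRight b) → AddSubgroup.closure ({a, b} : Set (ZMod N)) = ⊤ →
  HasECD (PG (Equiv.addRight a) (Equiv.addRight b))

/-- [Gen] two generators which are not involutions.
Proof. `Γ` not cyclic: [Str]: if `a ∈ zpowers (a b)` then `b = a⁻¹ (a b) ∈ zpowers (a b)`, so
`zpowers (a b) = ⊤` and `Γ` is cyclic. `Γ` cyclic: an isomorphism `Γ ≃* Multiplicative (ZMod N)`,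
`N = card Γ` (`zmodCyclicMulEquiv`), [Iso], and [Odd] or [Evn]. -/
def St_Gen : Prop := ∀ (Γ : Type) [Group Γ] [Finite Γ] (a b : Γ),
  Reg4 (Equiv.mulRight a) (Equiv.mulRight b) → Subgroup.closure ({a, b} : Set Γ) = ⊤ →
  Nat.card Γ ≠ 5 → HasECD (PG (Equiv.mulRight a) (Equiv.mulRight b))

/-- [Fin] the theorem.
Proof. If all elements of `S` are involutions: [Inv]. Otherwise let `a ∈ S`, `a a ≠ 1`; `S` without
`a, a⁻¹` has two elements and is closed under inverses, so it is `{b, b⁻¹}` with `b b ≠ 1`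
(`Cay S = PG (mr a) (mr b)`, [Gen]) or `{s, t}` with two involutions ([Mix] or [Dih]). -/
def St_Fin : Prop := ∀ (Γ : Type) [Group Γ] [Finite Γ] (S : Set Γ), (∀ s ∈ S, s⁻¹ ∈ S) →
  (1 : Γ) ∉ S → S.ncard = 4 → Subgroup.closure S = ⊤ → Nat.card Γ ≠ 5 → HasECD (Cay S)

end Pool.Agent.CEC
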