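import Mathlib
import Pool.Agent.CEC.St

/-!
# CEC, module Cls: classes of edges
-/

set_option autoImplicit false

namespace Pool.Agent.CEC

open SimpleGraph

/-- the graph of the edges with label `i` -/
private def Cls_H {V I : Type} (G : SimpleGraph V) (f : V → V → I)
    (hs : ∀ x y, G.Adj x y → f x y = f y x) (i : I) : SimpleGraph V where
  Adj x y := G.Adj x y ∧ f x y = i
  symm := ⟨fun x y h => ⟨h.1.symm, by rw [← hs x y h.1]; exact h.2⟩⟩
  loopless := ⟨fun _ h => h.1.ne rfl⟩

private theorem Cls_le {V I : Type} (G : SimpleGraph V) (f : V → V → I)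
    (hs : ∀ x y, G.Adj x y → f x y = f y x) (i : I) : Cls_H G f hs i ≤ G :=
  fun _ _ h => h.1

private theorem Cls_cyc {V I : Type} (G : SimpleGraph V) (f : V → V → I)
    (hs : ∀ x y, G.Adj x y → f x y = f y x)
    (he : ∀ x y, G.Adj x y → ∃! z, z ≠ y ∧ G.Adj x z ∧ f x z = f x y) (i : I) :
    (Cls_H G f hs i).IsCycles := by
  intro v hv
  obtain ⟨w, hw⟩ := hv
  have hw' : G.Adj v w ∧ f v w = i := hw
  obtain ⟨z, ⟨hz1, hz2, hz3⟩, hz4⟩ := he v w hw'.1
  have h1 : (Cls_H G f hs i).neighborSet v = {w, z} := by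
    ext t
    simp only [mem_neighborSet, Set.mem_insert_iff, Set.mem_singleton_iff]
    constructor
    · intro ht
      have ht' : G.Adj v t ∧ f v t = i := ht
      by_cases htw : t = w
      · exact Or.inl htw
      · exact Or.inr (hz4 t ⟨htw, ht'.1, ht'.2.trans hw'.2.symm⟩)
    · rintro (rfl | rfl)
      · exact hw
      · exact ⟨hz2, hz3.trans hw'.2⟩
  rw [h1, Set.ncard_pair hz1.symm]

private theorem Cls_even {V I : Type} (G : SimpleGraph V) (f : V → V → I)
    (hs : ∀ x y, G.Adj x y → f x y = f y x) (p : I → V → Bool)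
    (hp : ∀ x y, G.Adj x y → p (f x y) x ≠ p (f x y) y) (i : I) (u : V)
    (w : (Cls_H G f hs i).Walk u u) : Even w.length := by
  let c : (Cls_H G f hs i).Coloring Bool := Coloring.mk (p i) (by
    intro x y h
    have h' : G.Adj x y ∧ f x y = i := h
    have := hp x y h'.1
    rwa [h'.2] at this)
  rw [c.even_length_iff_congr w]

theorem thm_Cls : St_Cls := by
  intro V _ G I f p hs hp he
  classical
  have hex : ∀ q : Σ i, (Cls_H G f hs i).ConnectedComponent,
      (∃ x y, G.Adj x y ∧ q = ⟨f x y, (Cls_H G f hs (f x y)).connectedComponentMk x⟩) →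
      ∃ (u : V) (w : (Cls_H G f hs q.1).Walk u u), w.IsCycle ∧
        w.toSubgraph.verts = q.2.supp := by
    rintro q ⟨x, y, hxy, rfl⟩
    obtain ⟨w, hw1, hw2⟩ :=
      (Cls_cyc G f hs he (f x y)).exists_cycle_toSubgraph_verts_eq_connectedComponentSupp
        (c := (Cls_H G f hs (f x y)).connectedComponentMk x) (v := x) (by simp) ⟨y, hxy, rfl⟩
    exact ⟨x, w, hw1, hw2⟩
  let J := {q : Σ i, (Cls_H G f hs i).ConnectedComponent //
    ∃ x y, G.Adj x y ∧ q = ⟨f x y, (Cls_H G f hs (f x y)).connectedComponentMk x⟩}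
  have hJ : Finite J := by
    let g : {q : V × V // G.Adj q.1 q.2} → J := fun q =>
      ⟨⟨f q.1.1 q.1.2, (Cls_H G f hs (f q.1.1 q.1.2)).connectedComponentMk q.1.1⟩,
        q.1.1, q.1.2, q.2, rfl⟩
    refine Finite.of_surjective g ?_
    rintro ⟨q, x, y, hxy, hq⟩
    exact ⟨⟨(x, y), hxy⟩, Subtype.ext hq.symm⟩
  choose u w hw1 hw2 using fun q : J => hex q.1 q.2
  let e := Finite.equivFin J
  refine ⟨Nat.card J, fun i => u (e.symm i), fun i =>
    (w (e.symm i)).mapLe (Cls_le G f hs _), ?_, ?_⟩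
  · intro i
    refine ⟨(hw1 _).mapLe _, ?_⟩
    rw [Walk.length_map]
    exact Cls_even G f hs p hp _ _ _
  · intro s hs'
    induction s using Sym2.ind with
    | _ x y =>
    have hxy : G.Adj x y := hs'
    let q : J := ⟨⟨f x y, (Cls_H G f hs (f x y)).connectedComponentMk x⟩, x, y, hxy, rfl⟩
    have hmem : ∀ q' : J, s(x, y) ∈ ((w q').mapLe (Cls_le G f hs _)).edges ↔ q' = q := by
      intro q'
      rw [Walk.edges_mapLe_eq_edges]
      constructor
      · intro h
        have h1 : (Cls_H G f hs q'.1.1).Adj x y := Walk.adj_of_mem_edges _ h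
        have h2 : x ∈ (w q').toSubgraph.verts := by
          rw [Walk.mem_verts_toSubgraph]
          exact Walk.fst_mem_support_of_mem_edges _ h
        rw [hw2 q'] at h2
        obtain ⟨⟨i, C⟩, hq'⟩ := q'
        have h3 : f x y = i := h1.2
        subst h3
        apply Subtype.ext
        have h4 : (Cls_H G f hs (f x y)).connectedComponentMk x = C := h2
        subst h4
        rfl
      · rintro rfl
        have h2 : x ∈ (w q).toSubgraph.verts := by
          rw [hw2 q]
          simp [q]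
        have : (Cls_H G f hs q.1.1).LocallyFinite := fun _ => Fintype.ofFinite _
        have h3 := (hw1 q).adj_toSubgraph_iff_of_isCycles
          (Cls_cyc G f hs he (f x y)) h2 y
        have h4 : (w q).toSubgraph.Adj x y := h3.mpr ⟨hxy, rfl⟩
        exact Walk.adj_toSubgraph_iff_mem_edges.mp h4
    refine ⟨e q, ?_, ?_⟩
    · show s(x, y) ∈ ((w (e.symm (e q))).mapLe (Cls_le G f hs _)).edges
      rw [hmem]
      simp
    · intro i hi
      have h1 := (hmem (e.symm i)).mp hi
      rw [← h1]
      simp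

end Pool.Agent.CEC
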