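import Pool.Agent.CEC.Base

/-!
# CEC: even circuit decompositions of 4-regular Cayley graphs (MP_854819)

Theorem: a connected 4-regular Cayley graph of a finite group which is not `K_5` has an even circuit
decomposition. Text: LIFT_MP_854819_helper51.md.
-/

set_option autoImplicit false

namespace Pool.Agent.CEC

/-- The graph of two permutations: `x` is adjacent to `α x` and to `β x`. -/
def PG {V : Type} (α β : Equiv.Perm V) : SimpleGraph V :=
  SimpleGraph.fromRel fun x y => y = α x ∨ y = β x

/-- The graph `PG α β` is 4-regular: `α x`, `α⁻¹ x`, `β x`, `β⁻¹ x`, `x` are different. -/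
structure Reg4 {V : Type} (α β : Equiv.Perm V) : Prop where
  a1 : ∀ x, α x ≠ x
  b1 : ∀ x, β x ≠ x
  a2 : ∀ x, α (α x) ≠ x
  b2 : ∀ x, β (β x) ≠ x
  ne : ∀ x, α x ≠ β x
  ab : ∀ x, α (β x) ≠ x
  ba : ∀ x, β (α x) ≠ x

/-- Labels `fa x` of the edges `{x, α x}` and `fb x` of the edges `{x, β x}`. For every label `i` the
edges with this label are a graph with a proper 2-colouring `p i` and with all degrees `0` or `2`. -/
structure Lab {V I : Type} (α β : Equiv.Perm V) (fa fb : V → I) (p : I → V → Bool) : Prop where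
  pa : ∀ x, p (fa x) (α x) ≠ p (fa x) x
  pb : ∀ x, p (fb x) (β x) ≠ p (fb x) x
  /-- at `x = α y = β z` the four edges `{x, β x}`, `{z, x}`, `{x, α x}`, `{y, x}` are in two pairs
  with the same label, and different pairs have different labels -/
  deg : ∀ x y z, α y = x → β z = x →
    (fb x = fb z ∧ fa x = fa y ∧ fb x ≠ fa x) ∨
    (fb x = fa x ∧ fb z = fa y ∧ fb x ≠ fb z) ∨
    (fb x = fa y ∧ fb z = fa x ∧ fb x ≠ fb z)

/-- the conditions for a colouring of the cells `x = {x, x + b, x + a, x + a + b}` of the grid: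
a black cell (`c x = true`) has at most one black neighbour, and if the cells `x + a` and `x + b` have
the same colour then the cells `x` and `x + a + b` have the other colour -/
structure Cell {A : Type} [AddCommGroup A] (a b : A) (c : A → Bool) : Prop where
  one : ∀ x y z, c x = true → c y = true → c z = true →
    (y = x + a ∨ y = x - a ∨ y = x + b ∨ y = x - b) →
    (z = x + a ∨ z = x - a ∨ z = x + b ∨ z = x - b) → y = z
  diag : ∀ x, c (x + a) = c (x + b) → c x ≠ c (x + a) ∧ c (x + a + b) ≠ c (x + a)

/-- the vertices of two neighbouring cells are different -/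
structure NCo {A : Type} [AddCommGroup A] (a b : A) : Prop where
  a1 : a ≠ 0
  b1 : b ≠ 0
  a2 : a + a ≠ 0
  b2 : b + b ≠ 0
  ne : a ≠ b
  ng : a + b ≠ 0
  a2b : a + a ≠ b
  a2b' : a + a + b ≠ 0
  b2a : b + b ≠ a
  b2a' : b + b + a ≠ 0

end Pool.Agent.CEC
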