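import Pool.Agent.CEC.St

/-!
# CEC: module Del (circulants `C_N(1, t)`, `N` and `t` odd)
-/

set_option autoImplicit false

namespace Pool.Agent.CEC

private lemma Del_ne {N : ℕ} (k : ℕ) (h0 : 0 < k) (h1 : k < N) : (k : ZMod N) ≠ 0 := by
  intro h
  rw [ZMod.natCast_eq_zero_iff] at h
  exact absurd (Nat.le_of_dvd h0 h) (by omega)

private lemma Del_val {N : ℕ} [NeZero N] (x : ZMod N) (k : ℕ) (hk : k < N) :
    (x + (k : ZMod N)).val = if x.val + k < N then x.val + k else x.val + k - N := by
  have hx := ZMod.val_lt x
  rw [ZMod.val_add, ZMod.val_cast_of_lt hk]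
  split_ifs with h
  · exact Nat.mod_eq_of_lt h
  · rw [Nat.mod_eq_sub_mod (by omega), Nat.mod_eq_of_lt (by omega)]

private lemma Del_neg {N : ℕ} (k : ℕ) (hk : k ≤ N) : ((N - k : ℕ) : ZMod N) = -(k : ZMod N) := by
  rw [Nat.cast_sub hk, ZMod.natCast_self, zero_sub]

/-- [Del] -/
theorem thm_Del (hC : St_Cel) (hI : St_Iso) : St_Del := by
  intro N t hN ht h3 h2
  haveI : NeZero N := ⟨by omega⟩
  obtain ⟨k, hk⟩ := hN
  obtain ⟨l, hl⟩ := ht
  have e1 : ((1 : ℕ) : ZMod N) = 1 := Nat.cast_one
  have em1 : ((N - 1 : ℕ) : ZMod N) = -1 := by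
    have := Del_neg (N := N) 1 (by omega)
    rwa [Nat.cast_one] at this
  have emt : ((N - t : ℕ) : ZMod N) = -(t : ZMod N) := Del_neg t (by omega)
  -- the values
  have v1 : ∀ x : ZMod N, (x + 1).val = if x.val + 1 < N then x.val + 1 else x.val + 1 - N := by
    intro x
    have := Del_val x 1 (by omega)
    rwa [Nat.cast_one] at this
  have vm1 : ∀ x : ZMod N, (x + -1).val =
      if x.val + (N - 1) < N then x.val + (N - 1) else x.val + (N - 1) - N := by
    intro x
    have := Del_val x (N - 1) (by omega)
    rwa [em1] at this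
  have vt : ∀ x : ZMod N, (x + (t : ZMod N)).val =
      if x.val + t < N then x.val + t else x.val + t - N := fun x => Del_val x t (by omega)
  have vmt : ∀ x : ZMod N, (x + -(t : ZMod N)).val =
      if x.val + (N - t) < N then x.val + (N - t) else x.val + (N - t) - N := by
    intro x
    have := Del_val x (N - t) (by omega)
    rwa [emt] at this
  have hco : NCo (-(t : ZMod N)) (1 : ZMod N) := by
    have n1 := Del_ne (N := N) 1 (by omega) (by omega)
    have n2 := Del_ne (N := N) 2 (by omega) (by omega)
    have nt := Del_ne (N := N) t (by omega) (by omega)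
    have ntp := Del_ne (N := N) (t + 1) (by omega) (by omega)
    have ntp2 := Del_ne (N := N) (t + 2) (by omega) (by omega)
    have n2t := Del_ne (N := N) (2 * t) (by omega) (by omega)
    have n2tp := Del_ne (N := N) (2 * t + 1) (by omega) (by omega)
    obtain ⟨s, hs⟩ : ∃ s, t = s + 3 := ⟨t - 3, by omega⟩
    have ntm := Del_ne (N := N) (s + 2) (by omega) (by omega)
    have ntm2 := Del_ne (N := N) (s + 1) (by omega) (by omega)
    have n2tm := Del_ne (N := N) (2 * s + 5) (by omega) (by omega)
    have hts : (t : ZMod N) = (s : ZMod N) + 3 := by rw [hs]; push_cast; ring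
    push_cast at n1 n2 nt ntp ntp2 n2t n2tp ntm ntm2 n2tm
    refine ⟨?_, ?_, ?_, ?_, ?_, ?_, ?_, ?_, ?_, ?_⟩
    · exact neg_ne_zero.mpr nt
    · exact n1
    · intro h; apply n2t; linear_combination -h
    · intro h; apply n2; linear_combination h
    · intro h; apply ntp; linear_combination -h
    · intro h; apply ntm; rw [hts] at h; linear_combination -h
    · intro h; apply n2tp; linear_combination -h
    · intro h; apply n2tm; rw [hts] at h; linear_combination -h
    · intro h; apply ntp2; linear_combination h
    · intro h; apply ntm2; rw [hts] at h; linear_combination -h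
  have hcell : Cell (-(t : ZMod N)) (1 : ZMod N) (fun x : ZMod N => decide (x.val % 2 = 1)) := by
    refine ⟨?_, ?_⟩
    · intro x y z hx hy hz hxy hxz
      simp only [decide_eq_true_eq, sub_neg_eq_add] at hx hy hz hxy hxz
      rw [sub_eq_add_neg x 1] at hxy hxz
      have hxl := ZMod.val_lt x
      have a1 := v1 x
      have a2 := vm1 x
      have a3 := vt x
      have a4 := vmt x
      have b1 : (x + 1).val % 2 ≠ 1 := by
        rw [a1]; split_ifs <;> omega
      have b2 : (x + -1).val % 2 ≠ 1 := by
        rw [a2]; split_ifs <;> omega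
      rcases hxy with h | h | h | h <;> rcases hxz with h' | h' | h' | h'
      all_goals first
        | (rw [h, h']; done)
        | (exfalso; rw [h] at hy; exact b1 hy)
        | (exfalso; rw [h] at hy; exact b2 hy)
        | (exfalso; rw [h'] at hz; exact b1 hz)
        | (exfalso; rw [h'] at hz; exact b2 hz)
        | (exfalso
           rw [h] at hy; rw [h'] at hz
           first
             | rw [a3] at hy; rw [a4] at hz
             | rw [a4] at hy; rw [a3] at hz
           split_ifs at hy hz <;> omega)
    · intro x hx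
      have hxl := ZMod.val_lt x
      have a1 := v1 x
      have a4 := vmt x
      have a5 := v1 (x + -(t : ZMod N))
      have hyl := ZMod.val_lt (x + -(t : ZMod N))
      simp only [decide_eq_decide] at hx
      simp only [ne_eq, decide_eq_decide]
      rw [a5]
      rw [a1, a4] at hx
      rw [a4] at hyl ⊢
      constructor
      · split_ifs at hx ⊢ <;> omega
      · split_ifs at hx ⊢ <;> omega
  have hmain := hC (ZMod N) _ _ _ hco hcell
  have hsym : (Equiv.addRight (t : ZMod N)).symm = Equiv.addRight (-(t : ZMod N)) := by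
    ext x
    simp
  have h4 := (hI.2.1 (ZMod N) (Equiv.addRight (t : ZMod N)) (Equiv.addRight (1 : ZMod N))).1
  rw [hsym] at h4
  rw [← h4]
  exact hmain

end Pool.Agent.CEC
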