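import Pool.Agent.CEC.St

/-!
# CEC, module Dih: one cycle generator and two involutions, dihedral case (helper57)
-/

set_option autoImplicit false

namespace Pool.Agent.CEC

open SimpleGraph

/-- the data of the dihedral case: a subgroup `R` of index two and elements `a ∈ R`, `s, t ∉ R` -/
private structure Dih_D {Γ : Type} [Group Γ] (R : Subgroup Γ) (a s t : Γ) : Prop where
  aa : a * a ≠ 1
  ss : s * s = 1
  tt : t * t = 1
  st : s ≠ t
  aR : a ∈ R
  sR : ∀ x, x * s ∈ R ↔ x ∉ R
  tR : ∀ x, x * t ∈ R ↔ x ∉ R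
  as : a * s = s * a⁻¹
  ta : t * a = a⁻¹ * t

/-- `s x s = x⁻¹` for `x ∈ R` -/
private theorem Dih_conj {Γ : Type} [Group Γ] {s' s : Γ} (h' : s' * s' = 1) (h : s * s = 1)
    {x : Γ} (hx : x ∈ Subgroup.zpowers (s' * s)) : s * x * s = x⁻¹ := by
  obtain ⟨k, rfl⟩ := Subgroup.mem_zpowers_iff.1 hx
  have hs : s⁻¹ = s := inv_eq_of_mul_eq_one_right h
  have hs' : s'⁻¹ = s' := inv_eq_of_mul_eq_one_right h'
  have h1 : s * (s' * s) * s⁻¹ = (s' * s)⁻¹ := by
    rw [mul_inv_rev, hs', mul_assoc, mul_assoc, mul_inv_cancel, mul_one, hs]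
  have h2 : s * (s' * s) ^ k * s⁻¹ = ((s' * s) ^ k)⁻¹ := by
    rw [← conj_zpow, h1, inv_zpow]
  rw [hs] at h2
  exact h2

/-- the elements of the group generated by `X` are in `R` or in `R s` -/
private theorem Dih_cl {Γ : Type} [Group Γ] {R : Subgroup Γ} {s : Γ} (h : s * s = 1)
    (hR : ∀ x ∈ R, s * x * s = x⁻¹) {X : Set Γ} (hX : ∀ x ∈ X, x ∈ R ∨ x * s ∈ R) {x : Γ}
    (hx : x ∈ Subgroup.closure X) : x ∈ R ∨ x * s ∈ R := by
  induction hx using Subgroup.closure_induction with
  | mem x hx => exact hX x hx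
  | one => exact Or.inl R.one_mem
  | mul x y _ _ ihx ihy =>
    rcases ihx with ihx | ihx <;> rcases ihy with ihy | ihy
    · exact Or.inl (R.mul_mem ihx ihy)
    · right
      rw [mul_assoc]
      exact R.mul_mem ihx ihy
    · right
      have e : x * y * s = x * s * (s * y * s) := by
        rw [mul_assoc x s, ← mul_assoc s (s * y), ← mul_assoc s s, h, one_mul, mul_assoc]
      rw [e, hR y ihy]
      exact R.mul_mem ihx (R.inv_mem ihy)
    · left
      have e : x * y = x * s * (s * (y * s) * s) := by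
        rw [mul_assoc s (y * s), mul_assoc y s, h, mul_one, mul_assoc x s, ← mul_assoc s s, h,
          one_mul]
      rw [e, hR _ ihy]
      exact R.mul_mem ihx (R.inv_mem ihy)
  | inv x _ ih =>
    rcases ih with ih | ih
    · exact Or.inl (R.inv_mem ih)
    · right
      have e1 := hR _ ih
      have hs : s⁻¹ = s := inv_eq_of_mul_eq_one_right h
      have e2 : x⁻¹ * s = x * s := by
        rw [mul_inv_rev, hs] at e1
        rw [mul_assoc s (x * s), mul_assoc x s, h, mul_one] at e1
        calc x⁻¹ * s = s * (s * x⁻¹) * s := by rw [← mul_assoc, h, one_mul]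
          _ = s * (s * x) * s := by rw [e1]
          _ = x * s := by rw [← mul_assoc, h, one_mul]
      rw [e2]
      exact ih

private theorem Dih_data {Γ : Type} [Group Γ] (a s t : Γ)
    (aa : a * a ≠ 1) (ss : s * s = 1) (tt : t * t = 1) (st : s ≠ t)
    (hcl : Subgroup.closure ({a, s, t} : Set Γ) = ⊤)
    (ha : a ∈ Subgroup.closure ({a * t * a⁻¹, s} : Set Γ)) :
    Dih_D (Subgroup.zpowers (a * t * a⁻¹ * s)) a s t := by
  have h' : a * t * a⁻¹ * (a * t * a⁻¹) = 1 := by
    calc a * t * a⁻¹ * (a * t * a⁻¹) = a * (t * t) * a⁻¹ := by group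
      _ = 1 := by rw [tt, mul_one, mul_inv_cancel]
  have hs : s⁻¹ = s := inv_eq_of_mul_eq_one_right ss
  have ht : t⁻¹ = t := inv_eq_of_mul_eq_one_right tt
  set g := a * t * a⁻¹ * s with hg
  have hR : ∀ x ∈ Subgroup.zpowers g, s * x * s = x⁻¹ := fun x hx => Dih_conj h' ss hx
  have hgR : g ∈ Subgroup.zpowers g := Subgroup.mem_zpowers g
  have hcomm : ∀ x ∈ Subgroup.zpowers g, ∀ y ∈ Subgroup.zpowers g, x * y = y * x := by
    intro x hx y hy
    obtain ⟨i, rfl⟩ := Subgroup.mem_zpowers_iff.1 hx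
    obtain ⟨j, rfl⟩ := Subgroup.mem_zpowers_iff.1 hy
    rw [← zpow_add, ← zpow_add, add_comm]
  -- `a ∈ R`
  have aR : a ∈ Subgroup.zpowers g := by
    rcases Dih_cl (R := Subgroup.zpowers g) ss hR (X := {a * t * a⁻¹, s}) (by
      rintro x (rfl | rfl)
      · exact Or.inr hgR
      · right
        rw [ss]
        exact Subgroup.one_mem _) ha with h | h
    · exact h
    · exfalso
      apply aa
      have h1 := hR _ h
      have h2 : s * (a * s) * s = s * a := by rw [← mul_assoc, mul_assoc (s * a), ss, mul_one]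
      rw [h2] at h1
      calc a * a = a * s * (s * a) := by rw [mul_assoc a s, ← mul_assoc s s, ss, one_mul]
        _ = 1 := by rw [h1, mul_inv_cancel]
  have hsas := hR a aR
  -- `t s ∈ R`
  have tsR : t * s ∈ Subgroup.zpowers g := by
    have e : t * s = a⁻¹ * g * (s * a * s) := by
      calc t * s = a⁻¹ * (a * t * a⁻¹) * (s * s) * a * s := by
            rw [ss]
            group
        _ = a⁻¹ * g * (s * a * s) := by
            rw [hg]
            simp only [mul_assoc]
    rw [e, hsas]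
    exact Subgroup.mul_mem _ (Subgroup.mul_mem _ (Subgroup.inv_mem _ aR) hgR)
      (Subgroup.inv_mem _ aR)
  have sR' : s ∉ Subgroup.zpowers g := by
    intro h
    apply aa
    have h1 : s * a * s = a := by
      rw [hcomm s h a aR, mul_assoc, ss, mul_one]
    rw [hsas] at h1
    calc a * a = a * a⁻¹ := by rw [h1]
      _ = 1 := mul_inv_cancel a
  have hall : ∀ x : Γ, x ∈ Subgroup.zpowers g ∨ x * s ∈ Subgroup.zpowers g := by
    intro x
    refine Dih_cl ss hR (X := {a, s, t}) ?_ (by rw [hcl]; exact Subgroup.mem_top x)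
    rintro x (rfl | rfl | rfl)
    · exact Or.inl aR
    · right
      rw [ss]
      exact Subgroup.one_mem _
    · exact Or.inr tsR
  have sR : ∀ x, x * s ∈ Subgroup.zpowers g ↔ x ∉ Subgroup.zpowers g := by
    intro x
    constructor
    · intro h1 h2
      apply sR'
      have := Subgroup.mul_mem _ (Subgroup.inv_mem _ h2) h1
      rwa [inv_mul_cancel_left] at this
    · intro h
      exact (hall x).resolve_left h
  have has : a * s = s * a⁻¹ := by
    calc a * s = s * (s * a * s) := by
          rw [← mul_assoc, ← mul_assoc, ss, one_mul]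
      _ = s * a⁻¹ := by rw [hsas]
  refine ⟨aa, ss, tt, st, aR, sR, ?_, has, ?_⟩
  · intro x
    have e : x * t = x * (t * s) * s := by
      rw [mul_assoc, mul_assoc, ss, mul_one]
    rw [e, sR]
    exact not_congr (Subgroup.mul_mem_cancel_right _ tsR)
  · have e1 : t = t * s * s := by rw [mul_assoc, ss, mul_one]
    have e2 : s * a = a⁻¹ * s := by
      rw [← hsas, mul_assoc, ss, mul_one]
    calc t * a = t * s * (s * a) := by
          rw [← mul_assoc, ← e1]
      _ = t * s * a⁻¹ * s := by rw [e2, ← mul_assoc]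
      _ = a⁻¹ * (t * s) * s := by rw [hcomm _ tsR _ (Subgroup.inv_mem _ aR)]
      _ = a⁻¹ * t := by rw [mul_assoc, ← e1]

theorem thm_Dih (hTwo : St_Two) : St_Dih := by
  classical
  intro Γ _ _ a s t aa ss tt s1 t1 st hcl ha
  obtain ⟨D⟩ : Nonempty (PLift (Dih_D (Subgroup.zpowers (a * t * a⁻¹ * s)) a s t)) :=
    ⟨⟨Dih_data a s t aa ss tt st hcl ha⟩⟩
  replace D := D.down
  set R := Subgroup.zpowers (a * t * a⁻¹ * s)
  have aR := D.aR
  have aR' : a⁻¹ ∈ R := R.inv_mem aR
  have xa : ∀ x, x * a ∈ R ↔ x ∈ R := fun x => Subgroup.mul_mem_cancel_right _ aR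
  have xa' : ∀ x, x * a⁻¹ ∈ R ↔ x ∈ R := fun x => Subgroup.mul_mem_cancel_right _ aR'
  have xs := D.sR
  have xt := D.tR
  -- the permutations
  obtain ⟨α, hα1, hα2⟩ : ∃ α : Equiv.Perm Γ, (∀ x ∈ R, α x = x * s) ∧ ∀ x ∉ R, α x = x * t := by
    refine ⟨⟨fun x => if x ∈ R then x * s else x * t, fun x => if x ∈ R then x * t else x * s,
      ?_, ?_⟩, ?_, ?_⟩
    · intro x
      by_cases h : x ∈ R
      · have h1 : x * s ∉ R := fun hc => (xs x).1 hc h
        simp only [if_pos h, if_neg h1]
        rw [mul_assoc, ss, mul_one]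
      · have h1 : x * t ∈ R := (xt x).2 h
        simp only [if_neg h, if_pos h1]
        rw [mul_assoc, tt, mul_one]
    · intro x
      by_cases h : x ∈ R
      · have h1 : x * t ∉ R := fun hc => (xt x).1 hc h
        simp only [if_pos h, if_neg h1]
        rw [mul_assoc, tt, mul_one]
      · have h1 : x * s ∈ R := (xs x).2 h
        simp only [if_neg h, if_pos h1]
        rw [mul_assoc, ss, mul_one]
    · intro x hx
      exact if_pos hx
    · intro x hx
      exact if_neg hx
  obtain ⟨β, hβ1, hβ2⟩ : ∃ β : Equiv.Perm Γ, (∀ x ∈ R, β x = x * a) ∧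
      ∀ x ∉ R, β x = x * a⁻¹ := by
    refine ⟨⟨fun x => if x ∈ R then x * a else x * a⁻¹,
      fun x => if x ∈ R then x * a⁻¹ else x * a, ?_, ?_⟩, ?_, ?_⟩
    · intro x
      by_cases h : x ∈ R
      · have h1 : x * a ∈ R := (xa x).2 h
        simp only [if_pos h, if_pos h1]
        rw [mul_inv_cancel_right]
      · have h1 : x * a⁻¹ ∉ R := fun hc => h ((xa' x).1 hc)
        simp only [if_neg h, if_neg h1]
        rw [inv_mul_cancel_right]
    · intro x
      by_cases h : x ∈ R
      · have h1 : x * a⁻¹ ∈ R := (xa' x).2 h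
        simp only [if_pos h, if_pos h1]
        rw [inv_mul_cancel_right]
      · have h1 : x * a ∉ R := fun hc => h ((xa x).1 hc)
        simp only [if_neg h, if_neg h1]
        rw [mul_inv_cancel_right]
    · intro x hx
      exact if_pos hx
    · intro x hx
      exact if_neg hx
  have pα : ∀ x, α x ∈ R ↔ x ∉ R := by
    intro x
    by_cases h : x ∈ R
    · rw [hα1 x h, xs]
    · rw [hα2 x h, xt]
  have pβ : ∀ x, β x ∈ R ↔ x ∈ R := by
    intro x
    by_cases h : x ∈ R
    · rw [hβ1 x h, xa]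
    · rw [hβ2 x h, xa']
  have hcomm : ∀ x, α (β x) = β (α x) := by
    intro x
    by_cases h : x ∈ R
    · have h1 : β x ∈ R := (pβ x).2 h
      have h2 : α x ∉ R := fun hc => (pα x).1 hc h
      rw [hα1 _ h1, hβ2 _ h2, hβ1 x h, hα1 x h, mul_assoc, mul_assoc, D.as]
    · have h1 : β x ∉ R := fun hc => h ((pβ x).1 hc)
      have h2 : α x ∈ R := (pα x).2 h
      rw [hα2 _ h1, hβ1 _ h2, hβ2 x h, hα2 x h, mul_assoc, mul_assoc, D.ta]
  have hne : ∀ x y, x ∈ R → y ∉ R → x ≠ y := fun x y hx hy h => hy (h ▸ hx)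
  have a1 : a ≠ 1 := by
    rintro rfl
    exact aa (mul_one 1)
  have hreg : Reg4 α β := by
    refine ⟨fun x h => ?_, fun x h => ?_, fun x h => ?_, fun x h => ?_, fun x h => ?_,
      fun x h => ?_, fun x h => ?_⟩
    · have := pα x
      rw [h] at this
      tauto
    · by_cases hx : x ∈ R
      · rw [hβ1 x hx] at h
        exact a1 (mul_eq_left.1 h)
      · rw [hβ2 x hx] at h
        exact a1 (inv_eq_one.1 (mul_eq_left.1 h))
    · by_cases hx : x ∈ R
      · have h1 : α x ∉ R := fun hc => (pα x).1 hc hx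
        rw [hα2 _ h1, hα1 x hx, mul_assoc] at h
        have h2 : s * t = 1 := mul_eq_left.1 h
        exact st (by rw [← mul_one s, ← tt, ← mul_assoc, h2, one_mul])
      · have h1 : α x ∈ R := (pα x).2 hx
        rw [hα1 _ h1, hα2 x hx, mul_assoc] at h
        have h2 : t * s = 1 := mul_eq_left.1 h
        exact st (by rw [← mul_one t, ← ss, ← mul_assoc, h2, one_mul])
    · by_cases hx : x ∈ R
      · have h1 : β x ∈ R := (pβ x).2 hx
        rw [hβ1 _ h1, hβ1 x hx, mul_assoc] at h
        exact aa (mul_eq_left.1 h)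
      · have h1 : β x ∉ R := fun hc => hx ((pβ x).1 hc)
        rw [hβ2 _ h1, hβ2 x hx, mul_assoc] at h
        have h2 := mul_eq_left.1 h
        rw [← mul_inv_rev, inv_eq_one] at h2
        exact aa h2
    · have h1 := pα x
      rw [h, pβ] at h1
      tauto
    · have h1 := pα (β x)
      rw [h, pβ] at h1
      tauto
    · have h1 := pβ (α x)
      rw [h, pα] at h1
      tauto
  -- the graph
  have hG : Cay ({a, a⁻¹, s, t} : Set Γ) = PG α β := by
    have hs : s⁻¹ = s := inv_eq_of_mul_eq_one_right ss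
    have ht : t⁻¹ = t := inv_eq_of_mul_eq_one_right tt
    have hmem : ∀ x y : Γ, x⁻¹ * y ∈ ({a, a⁻¹, s, t} : Set Γ) ↔
        (y = x * a ∨ y = x * a⁻¹ ∨ y = x * s ∨ y = x * t) := by
      intro x y
      simp only [Set.mem_insert_iff, Set.mem_singleton_iff, inv_mul_eq_iff_eq_mul]
    have hsym : ∀ x y : Γ, y⁻¹ * x ∈ ({a, a⁻¹, s, t} : Set Γ) ↔
        x⁻¹ * y ∈ ({a, a⁻¹, s, t} : Set Γ) := by
      intro x y
      have e : y⁻¹ * x = (x⁻¹ * y)⁻¹ := by rw [mul_inv_rev, inv_inv]
      rw [e]
      generalize x⁻¹ * y = z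
      simp only [Set.mem_insert_iff, Set.mem_singleton_iff, inv_eq_iff_eq_inv, inv_inv, hs, ht]
      tauto
    have key : ∀ x y : Γ, (y = x * a ∨ y = x * a⁻¹ ∨ y = x * s ∨ y = x * t) ↔
        ((y = α x ∨ y = β x) ∨ (x = α y ∨ x = β y)) := by
      intro x y
      have ea : x = y * a ↔ y = x * a⁻¹ := by
        constructor
        · rintro rfl
          rw [mul_inv_cancel_right]
        · rintro rfl
          rw [inv_mul_cancel_right]
      have ea' : x = y * a⁻¹ ↔ y = x * a := by
        constructor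
        · rintro rfl
          rw [inv_mul_cancel_right]
        · rintro rfl
          rw [mul_inv_cancel_right]
      have es : x = y * s ↔ y = x * s := by
        constructor
        · rintro rfl
          rw [mul_assoc, ss, mul_one]
        · rintro rfl
          rw [mul_assoc, ss, mul_one]
      have et : x = y * t ↔ y = x * t := by
        constructor
        · rintro rfl
          rw [mul_assoc, tt, mul_one]
        · rintro rfl
          rw [mul_assoc, tt, mul_one]
      by_cases hx : x ∈ R <;> by_cases hy : y ∈ R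
      · rw [hα1 x hx, hβ1 x hx, hα1 y hy, hβ1 y hy, ea, es]
        have h1 : y ≠ x * s := fun h => (xs x).1 (h ▸ hy) hx
        have h2 : y ≠ x * t := fun h => (xt x).1 (h ▸ hy) hx
        tauto
      · rw [hα1 x hx, hβ1 x hx, hα2 y hy, hβ2 y hy, ea', et]
        have h1 : y ≠ x * a⁻¹ := fun h => hy (h ▸ (xa' x).2 hx)
        tauto
      · rw [hα2 x hx, hβ2 x hx, hα1 y hy, hβ1 y hy, ea, es]
        have h1 : y ≠ x * a := fun h => hx ((xa x).1 (h ▸ hy))
        tauto
      · rw [hα2 x hx, hβ2 x hx, hα2 y hy, hβ2 y hy, ea', et]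
        have h1 : y ≠ x * s := fun h => hy (h ▸ (xs x).2 hx)
        have h2 : y ≠ x * t := fun h => hy (h ▸ (xt x).2 hx)
        tauto
    ext x y
    unfold Cay PG
    rw [SimpleGraph.fromRel_adj, SimpleGraph.fromRel_adj, hsym, or_self, hmem, key]
    exact and_congr_right fun _ => or_comm
  rw [hG]
  refine hTwo Γ α β hreg hcomm ?_ (fun x => decide (x ∉ R)) ?_ ?_
  · -- transitivity
    intro x y
    have hc : Commute α β := Equiv.ext hcomm
    have hO1 : ∀ z, (∃ i j : ℤ, (α ^ i) ((β ^ j) x) = α z) ↔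
        ∃ i j : ℤ, (α ^ i) ((β ^ j) x) = z := by
      intro z
      constructor
      · rintro ⟨i, j, h⟩
        refine ⟨-1 + i, j, ?_⟩
        rw [zpow_add, Equiv.Perm.mul_apply, h, zpow_neg_one]
        exact α.symm_apply_apply z
      · rintro ⟨i, j, h⟩
        refine ⟨1 + i, j, ?_⟩
        rw [zpow_add, Equiv.Perm.mul_apply, h, zpow_one]
    have hO2 : ∀ z, (∃ i j : ℤ, (α ^ i) ((β ^ j) x) = β z) ↔
        ∃ i j : ℤ, (α ^ i) ((β ^ j) x) = z := by
      intro z
      constructor
      · rintro ⟨i, j, h⟩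
        refine ⟨i, -1 + j, ?_⟩
        rw [zpow_add, Equiv.Perm.mul_apply, ← Equiv.Perm.mul_apply, ← Equiv.Perm.mul_apply,
          ((hc.zpow_left i).zpow_right (-1)).eq, Equiv.Perm.mul_apply, Equiv.Perm.mul_apply, h,
          zpow_neg_one]
        exact β.symm_apply_apply z
      · rintro ⟨i, j, h⟩
        refine ⟨i, 1 + j, ?_⟩
        rw [zpow_add, Equiv.Perm.mul_apply, ← Equiv.Perm.mul_apply, ← Equiv.Perm.mul_apply,
          ((hc.zpow_left i).zpow_right 1).eq, Equiv.Perm.mul_apply, Equiv.Perm.mul_apply, h,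
          zpow_one]
    have hg : ∀ g ∈ Subgroup.closure ({a, s, t} : Set Γ), ∀ z,
        (∃ i j : ℤ, (α ^ i) ((β ^ j) x) = z * g) ↔ ∃ i j : ℤ, (α ^ i) ((β ^ j) x) = z := by
      intro g hg
      induction hg using Subgroup.closure_induction with
      | mem g hg =>
        intro z
        rcases hg with rfl | rfl | rfl
        · by_cases hz : z ∈ R
          · rw [← hβ1 z hz, hO2]
          · have h1 : z * g ∉ R := fun hc => hz ((xa z).1 hc)
            have h2 : β (z * g) = z := by rw [hβ2 _ h1, mul_inv_cancel_right]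
            rw [← hO2 (z * g), h2]
        · by_cases hz : z ∈ R
          · rw [← hα1 z hz, hO1]
          · have h1 : z * g ∈ R := (xs z).2 hz
            have h2 : α (z * g) = z := by rw [hα1 _ h1, mul_assoc, ss, mul_one]
            rw [← hO1 (z * g), h2]
        · by_cases hz : z ∈ R
          · have h1 : z * g ∉ R := fun hc => (xt z).1 hc hz
            have h2 : α (z * g) = z := by rw [hα2 _ h1, mul_assoc, tt, mul_one]
            rw [← hO1 (z * g), h2]
          · rw [← hα2 z hz, hO1]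
      | one =>
        intro z
        rw [mul_one]
      | mul g h _ _ ihg ihh =>
        intro z
        rw [← mul_assoc, ihh, ihg]
      | inv g _ ih =>
        intro z
        rw [← ih (z * g⁻¹), inv_mul_cancel_right]
    have h1 := (hg (x⁻¹ * y) (by rw [hcl]; exact Subgroup.mem_top _) x).2 ⟨0, 0, rfl⟩
    rwa [mul_inv_cancel_left] at h1
  · intro x
    by_cases h : x ∈ R
    · have h1 : α x ∉ R := fun hc => (pα x).1 hc h
      simp [h, h1]
    · have h1 : α x ∈ R := (pα x).2 h
      simp [h, h1]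
  · intro x
    by_cases h : x ∈ R
    · have h1 : β x ∈ R := (pβ x).2 h
      simp [h, h1]
    · have h1 : β x ∉ R := fun hc => h ((pβ x).1 hc)
      simp [h, h1]

end Pool.Agent.CEC
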