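import Pool.Agent.CEC.St

/-!
# CEC [Eps]: the circulants `C_N(1, t)`, `N` odd, `t` even
-/

set_option autoImplicit false

namespace Pool.Agent.CEC

private theorem Eps_nz (N : ℕ) (k : ℤ) (h0 : k ≠ 0) (h1 : |k| < N) : ((k : ℤ) : ZMod N) ≠ 0 := by
  intro h
  rw [ZMod.intCast_zmod_eq_zero_iff_dvd] at h
  exact h0 (Int.eq_zero_of_abs_lt_dvd h h1)

private theorem Eps_nco (N t : ℕ) (ht : 4 ≤ t) (hN : 2 * t + 1 < N) (s : ℤ)
    (hs : s = t ∨ s = -t) : NCo ((s : ℤ) : ZMod N) 1 := by
  have key : ∀ k : ℤ, k ≠ 0 → -(N : ℤ) < k → k < N → ((k : ℤ) : ZMod N) ≠ 0 :=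
    fun k h1 h2 h3 => Eps_nz N k h1 (abs_lt.mpr ⟨h2, h3⟩)
  constructor
  · exact key s (by omega) (by omega) (by omega)
  · intro h
    exact key 1 (by omega) (by omega) (by omega) (by rw [Int.cast_one]; exact h)
  · intro h
    exact key (s + s) (by omega) (by omega) (by omega) (by push_cast; exact h)
  · intro h
    exact key (1 + 1) (by omega) (by omega) (by omega) (by rw [Int.cast_add, Int.cast_one]; exact h)
  · intro h
    exact key (s - 1) (by omega) (by omega) (by omega) (by push_cast; linear_combination h)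
  · intro h
    exact key (s + 1) (by omega) (by omega) (by omega) (by push_cast; exact h)
  · intro h
    exact key (s + s - 1) (by omega) (by omega) (by omega) (by push_cast; linear_combination h)
  · intro h
    exact key (s + s + 1) (by omega) (by omega) (by omega) (by push_cast; exact h)
  · intro h
    exact key (s - 1 - 1) (by omega) (by omega) (by omega) (by push_cast; linear_combination -h)
  · intro h
    exact key (s + 1 + 1) (by omega) (by omega) (by omega) (by push_cast; linear_combination h)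

private theorem Eps_add (N : ℕ) [NeZero N] (x : ZMod N) (k : ℕ) (hk : k ≤ N) :
    (x + (k : ZMod N)).val = if x.val + k < N then x.val + k else x.val + k - N := by
  have h1 : x + (k : ZMod N) = ((x.val + k : ℕ) : ZMod N) := by
    rw [Nat.cast_add, ZMod.natCast_zmod_val]
  have hx := x.val_lt
  rw [h1, ZMod.val_natCast]
  split_ifs with h
  · exact Nat.mod_eq_of_lt h
  · rw [Nat.mod_eq_sub_mod (by omega), Nat.mod_eq_of_lt (by omega)]

private theorem Eps_dec (a b : ℕ) (ha : a < 2) (hb : b < 2) :
    (decide (a = 1) = decide (b = 1)) ↔ a = b := by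
  rw [decide_eq_decide]
  omega

/-- black cells: abstract form of the two cases -/
private theorem Eps_cell (N t : ℕ) [NeZero N] (a : ZMod N) (c : ZMod N → Bool) (ht : 4 ≤ t)
    (hN : 2 * t + 1 < N) (T : ℕ → Prop) (U : ℕ → Prop)
    (hz : ∀ x : ZMod N, x.val = 0 → c x = false)
    (hl : ∀ x : ZMod N, x.val + 1 = N → c x = false)
    (s1 : ∀ x : ZMod N, c (x + 1) = c x ↔ (x.val + 1 = N ∨ U (x.val + 1)))
    (s2 : ∀ x : ZMod N, c (x + a) = c x ↔ T x.val)
    (s3 : ∀ x : ZMod N, c x = true → T x.val → ∀ y : ZMod N, y + a = x → T y.val → False)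
    (s4 : ∀ x : ZMod N, c x = true → T x.val → U (x.val + 1) → False)
    (s5 : ∀ x : ZMod N, c x = true → T x.val → U x.val → False)
    (s6 : ∀ n : ℕ, U n → U (n + 1) → False)
    (s7 : ∀ x : ZMod N, c x = true → ∀ y : ZMod N, y + a = x → T y.val → U (x.val + 1) → False)
    (s8 : ∀ x : ZMod N, c x = true → ∀ y : ZMod N, y + a = x → T y.val → U x.val → False)
    (s9 : ∀ n, T n → n + 1 ≠ N)
    (s10 : ∀ n, T n → ¬ U (n + 1)) (s11 : ∀ n, n + 1 < N → T (n + 1) → ¬ T n → U (n + 1)) :
    Cell a 1 c := by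
  have hadd : ∀ x : ZMod N, (x + 1).val = if x.val + 1 < N then x.val + 1 else x.val + 1 - N := by
    intro x
    have h1 := Eps_add N x 1 (by omega)
    rwa [Nat.cast_one] at h1
  have cls : ∀ x y : ZMod N, c x = true → c y = true →
      (y = x + a ∨ y = x - a ∨ y = x + 1 ∨ y = x - 1) →
      (y = x + a ∧ T x.val) ∨ (y = x - a ∧ ∃ y' : ZMod N, y' + a = x ∧ T y'.val) ∨
      (y = x + 1 ∧ U (x.val + 1)) ∨ (y = x - 1 ∧ U x.val) := by
    rintro x y hx hy (h | h | h | h)
    · left
      refine ⟨h, (s2 x).mp ?_⟩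
      rw [← h, hx, hy]
    · right
      left
      have h1 : y + a = x := by rw [h]; ring
      refine ⟨h, y, h1, (s2 y).mp ?_⟩
      rw [h1, hx, hy]
    · right
      right
      left
      refine ⟨h, ?_⟩
      rcases (s1 x).mp (by rw [← h, hx, hy]) with h1 | h1
      · rw [hl x h1] at hx
        exact absurd hx (by decide)
      · exact h1
    · right
      right
      right
      have h1 : y + 1 = x := by rw [h]; ring
      refine ⟨h, ?_⟩
      have h2 := hadd y
      rw [h1] at h2
      have hy' := y.val_lt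
      rcases (s1 y).mp (by rw [h1, hx, hy]) with h3 | h3
      · rw [if_neg (by omega)] at h2
        rw [hz x (by omega)] at hx
        exact absurd hx (by decide)
      · by_cases h4 : y.val + 1 < N
        · rw [if_pos h4] at h2
          rw [h2]
          exact h3
        · rw [if_neg h4] at h2
          rw [hz x (by omega)] at hx
          exact absurd hx (by decide)
  refine ⟨?_, ?_⟩
  · intro x y z hx hy hz' h1 h2
    rcases cls x y hx hy h1 with ⟨e1, k1⟩ | ⟨e1, y', k1, k1'⟩ | ⟨e1, k1⟩ | ⟨e1, k1⟩ <;>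
    rcases cls x z hx hz' h2 with ⟨e2, k2⟩ | ⟨e2, z', k2, k2'⟩ | ⟨e2, k2⟩ | ⟨e2, k2⟩
    · rw [e1, e2]
    · exact (s3 x hx k1 z' k2 k2').elim
    · exact (s4 x hx k1 k2).elim
    · exact (s5 x hx k1 k2).elim
    · exact (s3 x hx k2 y' k1 k1').elim
    · rw [e1, e2]
    · exact (s7 x hx y' k1 k1' k2).elim
    · exact (s8 x hx y' k1 k1' k2).elim
    · exact (s4 x hx k2 k1).elim
    · exact (s7 x hx z' k2 k2' k1).elim
    · rw [e1, e2]
    · exact (s6 _ k2 k1).elim
    · exact (s5 x hx k2 k1).elim
    · exact (s8 x hx z' k2 k2' k1).elim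
    · exact (s6 _ k1 k2).elim
    · rw [e1, e2]
  · intro x hx
    have n1 : c x ≠ c (x + a) := by
      intro h
      have h1 := (s2 x).mp h.symm
      rcases (s1 x).mp (by rw [← hx]; exact h.symm) with h2 | h2
      · exact s9 _ h1 h2
      · exact s10 _ h1 h2
    refine ⟨n1, fun h => ?_⟩
    have hx' := x.val_lt
    have h3 : x.val + 1 ≠ N := by
      intro h4
      exact n1 (by rw [hx]; exact ((s1 x).mpr (Or.inl h4)).symm)
    have h4 : T (x + 1).val := by
      refine (s2 (x + 1)).mp ?_
      have h5 : x + 1 + a = x + a + 1 := by ring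
      rw [h5, h, hx]
    rw [hadd x, if_pos (by omega)] at h4
    have h5 := s11 x.val (by omega) h4 fun h6 => n1 ((s2 x).mpr h6).symm
    exact n1 (by rw [hx]; exact ((s1 x).mpr (Or.inr h5)).symm)

private theorem Eps_div (t w m : ℕ) (h1 : 2 * (w * t) ≤ m) (h2 : m < 2 * (w * t) + t) :
    m / t = 2 * w := by
  refine Nat.div_eq_of_lt_le ?_ ?_
  · have e : 2 * w * t = 2 * (w * t) := by ring
    omega
  · have e : (2 * w + 1) * t = 2 * (w * t) + t := by ring
    omega

private theorem Eps_div' (t w m : ℕ) (ht : 0 < t) (h1 : 2 * (w * t) ≤ m + t)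
    (h2 : m < 2 * (w * t)) : m / t + 1 = 2 * w := by
  rw [← Nat.add_div_right m ht]
  exact Eps_div t w (m + t) h1 (by omega)

private theorem Eps_dvd (t w : ℕ) : t ∣ 2 * (w * t) := ⟨2 * w, by ring⟩

private theorem Eps_two (t m : ℕ) (ht : 2 ≤ t) (h1 : t ∣ m) (h2 : t ∣ m + 1) : False := by
  have h3 : t ∣ 1 := (Nat.dvd_add_right h1).mp h2
  have h4 := Nat.le_of_dvd one_pos h3
  omega

private theorem Eps_lt (t m : ℕ) (h1 : t ∣ m) (h2 : m < t) : m = 0 :=
  Nat.eq_zero_of_dvd_of_lt h1 h2

private theorem Eps_multiple (t w m : ℕ) (h1 : t ∣ m) (h2 : 2 * (w * t) < m + t)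
    (h3 : m ≤ 2 * (w * t)) : m = 2 * (w * t) := by
  have h4 : t ∣ 2 * (w * t) - m := Nat.dvd_sub (Eps_dvd t w) h1
  have h5 := Eps_lt t _ h4 (by omega)
  omega

private theorem Eps_caseA (N t w r : ℕ) [NeZero N] (ht : 4 ≤ t) (ht2 : t % 2 = 0)
    (hN2 : N % 2 = 1) (hr : 0 < r) (hrt : r < t) (hN : N = 2 * (w * t) + r)
    (hNt : 2 * t + 1 < N) :
    Cell (-(t : ZMod N)) 1 (fun x => decide ((x.val + x.val / t) % 2 = 1)) := by
  have ht0 : 0 < t := by omega
  refine Eps_cell N t _ _ ht hNt (fun n => n + r < t) (fun n => t ∣ n) ?_ ?_ ?_ ?_ ?_ ?_ ?_ ?_ ?_ ?_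
    ?_ ?_ ?_
  · intro x hx
    show decide _ = false
    rw [hx, Nat.zero_div]
    rfl
  · intro x hx
    show decide _ = false
    rw [Eps_div t w x.val (by omega) (by omega), decide_eq_false_iff_not]
    omega
  · intro x
    have hx := x.val_lt
    have h1 := Eps_add N x 1 (by omega)
    rw [Nat.cast_one] at h1
    show decide _ = decide _ ↔ _
    rw [Eps_dec _ _ (Nat.mod_lt _ two_pos) (Nat.mod_lt _ two_pos)]
    by_cases h2 : x.val + 1 = N
    · rw [h1, if_neg (by omega), Eps_div t w x.val (by omega) (by omega), h2, Nat.sub_self,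
        Nat.zero_div]
      omega
    · rw [h1, if_pos (by omega), Nat.succ_div]
      by_cases h3 : t ∣ x.val + 1
      · rw [if_pos h3]
        have h4 : (x.val + 1 + (x.val / t + 1)) % 2 = (x.val + x.val / t) % 2 := by omega
        exact ⟨fun _ => Or.inr h3, fun _ => h4⟩
      · rw [if_neg h3]
        constructor
        · intro h4
          omega
        · rintro (h4 | h4)
          · exact absurd h4 h2
          · exact absurd h4 h3
  · intro x
    obtain ⟨y, hy⟩ : ∃ y, y + (t : ZMod N) = x := ⟨x - t, by ring⟩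
    have hy' := y.val_lt
    have hx := x.val_lt
    have h1 := Eps_add N y t (by omega)
    rw [hy] at h1
    have h2 : x + -(t : ZMod N) = y := by rw [← hy]; ring
    show decide _ = decide _ ↔ _
    rw [h2, Eps_dec _ _ (Nat.mod_lt _ two_pos) (Nat.mod_lt _ two_pos)]
    by_cases h3 : y.val + t < N
    · rw [if_pos h3] at h1
      rw [h1, Nat.add_div_right _ ht0]
      omega
    · rw [if_neg h3] at h1
      have h4 : x.val / t = 0 := Nat.div_eq_of_lt (by omega)
      rw [h4]
      by_cases h5 : y.val < 2 * (w * t)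
      · have h6 := Eps_div' t w y.val ht0 (by omega) h5
        omega
      · have h6 := Eps_div t w y.val (by omega) (by omega)
        rw [h6]
        omega
  · intro x hx h1 y hy h2
    have h3 : x + (t : ZMod N) = y := by rw [← hy]; ring
    have h4 := Eps_add N x t (by omega)
    rw [h3, if_pos (by omega)] at h4
    omega
  · intro x hx h1 h2
    have h3 := Eps_lt t _ h2 (by omega)
    omega
  · intro x hx h1 h2
    have h3 := Eps_lt t _ h2 (by omega)
    rw [h3, Nat.zero_div] at hx
    exact absurd hx (by decide)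
  · intro n h1 h2
    exact Eps_two t n (by omega) h1 h2
  · intro x hx y hy h1 h2
    have hx' := x.val_lt
    have h3 : x + (t : ZMod N) = y := by rw [← hy]; ring
    have h4 := Eps_add N x t (by omega)
    rw [h3] at h4
    split_ifs at h4 with h5
    · omega
    · have h6 := Eps_multiple t w (x.val + 1) h2 (by omega) (by omega)
      have h7 := Eps_div' t w x.val ht0 (by omega) (by omega)
      have h8 := of_decide_eq_true hx
      omega
  · intro x hx y hy h1 h2
    have hx' := x.val_lt
    have h3 : x + (t : ZMod N) = y := by rw [← hy]; ring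
    have h4 := Eps_add N x t (by omega)
    rw [h3] at h4
    split_ifs at h4 with h5
    · omega
    · have h6 := Eps_multiple t w x.val h2 (by omega) (by omega)
      omega
  · intro n h1
    omega
  · intro n h1 h2
    have h3 := Eps_lt t _ h2 (by omega)
    omega
  · intro n h1 h2 h3
    omega

private theorem Eps_caseB (N t w r : ℕ) [NeZero N] (ht : 4 ≤ t) (ht2 : t % 2 = 0)
    (hN2 : N % 2 = 1) (hr : 0 < r) (hrt : r < t) (hN : N = 2 * (w * t) + t + r)
    (hNt : 2 * t + 1 < N) :
    Cell (t : ZMod N) 1 (fun x => decide ((x.val + min (x.val / t) (2 * w)) % 2 = 1)) := by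
  have ht0 : 0 < t := by omega
  have hge : ∀ n, 2 * (w * t) ≤ n → 2 * w ≤ n / t := by
    intro n hn
    rw [Nat.le_div_iff_mul_le ht0]
    have e : 2 * w * t = 2 * (w * t) := by ring
    omega
  have hlt : ∀ n, n < 2 * (w * t) → n / t < 2 * w := by
    intro n hn
    rw [Nat.div_lt_iff_lt_mul ht0]
    have e : 2 * w * t = 2 * (w * t) := by ring
    omega
  refine Eps_cell N t _ _ ht hNt (fun n => 2 * (w * t) ≤ n ∧ n < 2 * (w * t) + r)
    (fun n => t ∣ n ∧ n ≤ 2 * (w * t)) ?_ ?_ ?_ ?_ ?_ ?_ ?_ ?_ ?_ ?_ ?_ ?_ ?_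
  · intro x hx
    show decide _ = false
    rw [hx, Nat.zero_div, Nat.zero_min]
    rfl
  · intro x hx
    have h1 := hge x.val (by omega)
    show decide _ = false
    rw [min_eq_right h1, decide_eq_false_iff_not]
    omega
  · intro x
    have hx := x.val_lt
    have h1 := Eps_add N x 1 (by omega)
    rw [Nat.cast_one] at h1
    show decide _ = decide _ ↔ _
    rw [Eps_dec _ _ (Nat.mod_lt _ two_pos) (Nat.mod_lt _ two_pos)]
    by_cases h2 : x.val + 1 = N
    · have h5 := hge x.val (by omega)
      rw [h1, if_neg (by omega), h2, Nat.sub_self, Nat.zero_div, min_eq_right h5, Nat.zero_min]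
      omega
    · rw [h1, if_pos (by omega), Nat.succ_div]
      by_cases h3 : t ∣ x.val + 1
      · rw [if_pos h3]
        by_cases h4 : x.val + 1 ≤ 2 * (w * t)
        · have h5 := hlt x.val (by omega)
          rw [min_eq_left (by omega), min_eq_left (by omega)]
          have h6 : (x.val + 1 + (x.val / t + 1)) % 2 = (x.val + x.val / t) % 2 := by omega
          exact ⟨fun _ => Or.inr ⟨h3, h4⟩, fun _ => h6⟩
        · have h5 := hge x.val (by omega)
          rw [min_eq_right (by omega), min_eq_right h5]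
          constructor
          · intro h6
            omega
          · rintro (h6 | h6)
            · exact absurd h6 h2
            · exact absurd h6.2 h4
      · rw [if_neg h3]
        constructor
        · intro h4
          omega
        · rintro (h4 | h4)
          · exact absurd h4 h2
          · exact absurd h4.1 h3
  · intro x
    have hx := x.val_lt
    have h1 := Eps_add N x t (by omega)
    show decide _ = decide _ ↔ _
    rw [Eps_dec _ _ (Nat.mod_lt _ two_pos) (Nat.mod_lt _ two_pos), h1]
    by_cases h3 : x.val + t < N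
    · rw [if_pos h3, Nat.add_div_right _ ht0]
      by_cases h4 : x.val < 2 * (w * t)
      · have h5 := hlt x.val h4
        rw [min_eq_left (by omega), min_eq_left (by omega)]
        omega
      · have h5 := hge x.val (by omega)
        rw [min_eq_right (by omega), min_eq_right h5]
        omega
    · rw [if_neg h3]
      have h4 : (x.val + t - N) / t = 0 := Nat.div_eq_of_lt (by omega)
      have h5 := hge x.val (by omega)
      rw [h4, Nat.zero_min, min_eq_right h5]
      omega
  · intro x hx h1 y hy h2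
    have h4 := Eps_add N y t (by omega)
    rw [hy, if_pos (by omega)] at h4
    omega
  · intro x hx h1 h2
    omega
  · intro x hx h1 h2
    have h3 := hge x.val h1.1
    have h4 := of_decide_eq_true hx
    rw [min_eq_right h3] at h4
    omega
  · intro n h1 h2
    exact Eps_two t n (by omega) h1.1 h2.1
  · intro x hx y hy h1 h2
    have h4 := Eps_add N y t (by omega)
    rw [hy, if_pos (by omega)] at h4
    omega
  · intro x hx y hy h1 h2
    have h4 := Eps_add N y t (by omega)
    rw [hy, if_pos (by omega)] at h4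
    omega
  · intro n h1
    omega
  · intro n h1 h2
    omega
  · intro n h1 h2 h3
    have h4 : n + 1 = 2 * (w * t) := by omega
    rw [h4]
    exact ⟨Eps_dvd t w, le_refl _⟩

/-- **[Eps]** the circulants `C_N(1, t)`, `N` odd, `t` even, `t < N / 2`. -/
theorem thm_Eps (hC : St_Cel) (hI : St_Iso) : St_Eps := by
  intro N t hN ht h4 hNt
  have : NeZero N := ⟨by omega⟩
  have ht2 := Nat.even_iff.mp ht
  have hN2 := Nat.odd_iff.mp hN
  have hd := Nat.div_add_mod N t
  have hrt := Nat.mod_lt N (show t > 0 by omega)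
  have hr2 : (N % t) % 2 = 1 := by
    obtain ⟨k, hk⟩ := even_iff_two_dvd.mp ht
    have h1 : (N % t) % 2 = N % 2 := Nat.mod_mod_of_dvd N ⟨k, hk⟩
    omega
  rcases Nat.even_or_odd' (N / t) with ⟨w, hw | hw⟩
  · have e : N = 2 * (w * t) + N % t := by
      rw [hw] at hd
      have e1 : t * (2 * w) = 2 * (w * t) := by ring
      omega
    have h1 := Eps_caseA N t w (N % t) h4 ht2 hN2 (by omega) hrt e hNt
    have h2 := Eps_nco N t h4 hNt (-(t : ℤ)) (Or.inr rfl)
    rw [Int.cast_neg, Int.cast_natCast] at h2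
    have h3 := hC (ZMod N) _ _ _ h2 h1
    have h5 : (Equiv.addRight (-(t : ZMod N))) = (Equiv.addRight (t : ZMod N)).symm := by
      ext x
      rfl
    rw [h5, (hI.2.1 (ZMod N) (Equiv.addRight (t : ZMod N)) (Equiv.addRight 1)).1] at h3
    exact h3
  · have e : N = 2 * (w * t) + t + N % t := by
      rw [hw] at hd
      have e1 : t * (2 * w + 1) = 2 * (w * t) + t := by ring
      omega
    have h1 := Eps_caseB N t w (N % t) h4 ht2 hN2 (by omega) hrt e hNt
    have h2 := Eps_nco N t h4 hNt (t : ℤ) (Or.inl rfl)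
    rw [Int.cast_natCast] at h2
    exact hC (ZMod N) _ _ _ h2 h1

end Pool.Agent.CEC
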