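import Pool.Agent.CEC.St

/-!
# CEC, module Evn: cyclic groups of even order
-/

set_option autoImplicit false

namespace Pool.Agent.CEC

private theorem Evn_swap {V : Type} {α β : Equiv.Perm V} (h : Reg4 α β) : Reg4 β α where
  a1 := h.b1
  b1 := h.a1
  a2 := h.b2
  b2 := h.a2
  ne := fun x e => h.ne x e.symm
  ab := h.ba
  ba := h.ab

private theorem Evn_zmod2 (x : ZMod 2) : x = 0 ∨ x = 1 := by
  revert x; decide

private theorem Evn_add_one (x : ZMod 2) : decide (x + 1 = 0) = !decide (x = 0) := by
  revert x; decide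

private theorem Evn_zpow {A : Type} [AddCommGroup A] (a : A) (n : ℤ) (x : A) :
    ((Equiv.addRight a) ^ n) x = x + n • a := by
  induction n generalizing x with
  | zero => simp
  | succ n ih =>
    rw [zpow_add_one, Equiv.Perm.mul_apply, ih, add_zsmul, one_zsmul, Equiv.coe_addRight,
      add_assoc, add_comm a]
  | pred n ih =>
    rw [zpow_sub_one, Equiv.Perm.mul_apply, ih, sub_zsmul, one_zsmul]
    simp only [Equiv.Perm.inv_def, Equiv.addRight_symm, Equiv.coe_addRight]
    abel

/-- the generic part: `a` odd, `b` even -/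
private theorem Evn_mixed (hTwo : St_Two) (N : ℕ) (a b : ZMod N) [NeZero N]
    (π : ZMod N →+* ZMod 2) (hR : Reg4 (Equiv.addRight a) (Equiv.addRight b))
    (hcl : AddSubgroup.closure ({a, b} : Set (ZMod N)) = ⊤) (ha : π a = 1) (hb : π b = 0) :
    HasECD (PG (Equiv.addRight a) (Equiv.addRight b)) := by
  refine hTwo (ZMod N) (Equiv.addRight a) (Equiv.addRight b) hR ?_ ?_
    (fun x => decide (π x = 0)) ?_ ?_
  · intro x
    simp only [Equiv.coe_addRight]
    abel
  · intro x y
    have hmem : y - x ∈ AddSubgroup.closure ({a, b} : Set (ZMod N)) := by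
      rw [hcl]; exact AddSubgroup.mem_top _
    obtain ⟨i, j, hij⟩ := AddSubgroup.mem_closure_pair.mp hmem
    refine ⟨i, j, ?_⟩
    rw [Evn_zpow, Evn_zpow]
    rw [add_assoc, add_comm (j • b) (i • a), hij]
    abel
  · intro x
    simp only [Equiv.coe_addRight, map_add, ha]
    exact Evn_add_one _
  · intro x
    simp only [Equiv.coe_addRight, map_add, hb, add_zero]

theorem thm_Evn (hLab : St_Lab) (hTwo : St_Two) (hIso : St_Iso) : St_Evn := by
  intro N a b hN hev hR hcl
  have : NeZero N := ⟨hN⟩
  have h2 : 2 ∣ N := hev.two_dvd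
  obtain ⟨π⟩ : Nonempty (ZMod N →+* ZMod 2) := ⟨ZMod.castHom h2 (ZMod 2)⟩
  rcases Evn_zmod2 (π a) with ha | ha <;> rcases Evn_zmod2 (π b) with hb | hb
  · exfalso
    have hle : AddSubgroup.closure ({a, b} : Set (ZMod N)) ≤ π.toAddMonoidHom.ker := by
      rw [AddSubgroup.closure_le]
      rintro x (rfl | rfl)
      · exact ha
      · exact hb
    rw [hcl] at hle
    have h1 : (1 : ZMod N) ∈ π.toAddMonoidHom.ker := hle (AddSubgroup.mem_top _)
    have h1' : π 1 = 0 := h1
    rw [map_one] at h1'
    exact absurd h1' (by decide)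
  · have hcl' : AddSubgroup.closure ({b, a} : Set (ZMod N)) = ⊤ := by
      rw [Set.pair_comm]; exact hcl
    have := Evn_mixed hTwo N b a π (Evn_swap hR) hcl' hb ha
    rw [(hIso.2.1 (ZMod N) (Equiv.addRight a) (Equiv.addRight b)).2] at this
    exact this
  · exact Evn_mixed hTwo N a b π hR hcl ha hb
  · refine hLab (ZMod N) (Equiv.addRight a) (Equiv.addRight b) hR Bool (fun _ => true)
      (fun _ => false) (fun _ x => decide (π x = 0)) ⟨?_, ?_, ?_⟩
    · intro x
      simp only [Equiv.coe_addRight, map_add, ha, Evn_add_one]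
      cases decide (π x = 0) <;> decide
    · intro x
      simp only [Equiv.coe_addRight, map_add, hb, Evn_add_one]
      cases decide (π x = 0) <;> decide
    · intro x y z _ _
      exact Or.inl ⟨rfl, rfl, Bool.false_ne_true⟩

end Pool.Agent.CEC
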