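import Pool.Agent.CEC.St

/-!
# CEC: assembly
-/

set_option autoImplicit false

namespace Pool.Agent.CEC

private theorem Fin_cay {Γ : Type} [Group Γ] (a b : Γ) :
    Cay ({a, a⁻¹, b, b⁻¹} : Set Γ) = PG (Equiv.mulRight a) (Equiv.mulRight b) := by
  ext x y
  simp only [Cay, PG, SimpleGraph.fromRel_adj, Set.mem_insert_iff, Set.mem_singleton_iff,
    Equiv.coe_mulRight]
  have e1 : ∀ (x y c : Γ), x⁻¹ * y = c ↔ y = x * c := fun x y c => by
    rw [inv_mul_eq_iff_eq_mul]
  have e2 : ∀ (x y c : Γ), x⁻¹ * y = c⁻¹ ↔ x = y * c := fun x y c => by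
    rw [inv_mul_eq_iff_eq_mul, ← mul_inv_eq_iff_eq_mul, inv_inv]
    exact eq_comm
  rw [e1 x y a, e2 x y a, e1 x y b, e2 x y b, e1 y x a, e2 y x a, e1 y x b, e2 y x b]
  tauto

/-- [Fin] -/
theorem thm_Fin (hI : St_Inv) (hM : St_Mix) (hD : St_Dih) (hG : St_Gen) : St_Fin := by
  classical
  intro Γ _ _ S hinv h1 hcard hcl h5
  have hfin : S.Finite := Set.toFinite S
  by_cases hall : ∀ s ∈ S, s * s = 1
  · obtain ⟨s, T, hsT, rfl, hT⟩ := (Set.ncard_eq_succ hfin).1 hcard
    obtain ⟨t, u, w, htu, htw, huw, rfl⟩ := Set.ncard_eq_three.1 hT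
    simp only [Set.mem_insert_iff, Set.mem_singleton_iff, not_or] at hsT h1 hall
    exact hI Γ s t u w (hall s (Or.inl rfl)) (hall t (Or.inr (Or.inl rfl)))
      (hall u (Or.inr (Or.inr (Or.inl rfl)))) (hall w (Or.inr (Or.inr (Or.inr rfl))))
      (Ne.symm h1.1) (Ne.symm h1.2.1) (Ne.symm h1.2.2.1) (Ne.symm h1.2.2.2)
      hsT.1 hsT.2.1 hsT.2.2 htu htw huw
  · push Not at hall
    obtain ⟨a, haS, haa⟩ := hall
    have ha' : a⁻¹ ∈ S := hinv a haS
    have hane : a ≠ a⁻¹ := fun h => haa (by nth_rewrite 2 [h]; exact mul_inv_cancel a)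
    have hsub : ({a, a⁻¹} : Set Γ) ⊆ S := by
      intro x hx
      rcases hx with rfl | hx
      · exact haS
      · rw [Set.mem_singleton_iff.1 hx]; exact ha'
    have hT : (S \ {a, a⁻¹}).ncard = 2 := by
      rw [Set.ncard_sdiff hsub, hcard, Set.ncard_pair hane]
    obtain ⟨b, c, hbc, hTe⟩ := Set.ncard_eq_two.1 hT
    have hmem : ∀ x, x ∈ S ↔ x = a ∨ x = a⁻¹ ∨ x = b ∨ x = c := by
      intro x
      constructor
      · intro hx
        by_cases h : x ∈ ({a, a⁻¹} : Set Γ)
        · rcases h with h | h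
          · exact Or.inl h
          · exact Or.inr (Or.inl h)
        · have : x ∈ S \ {a, a⁻¹} := ⟨hx, h⟩
          rw [hTe] at this
          rcases this with h | h
          · exact Or.inr (Or.inr (Or.inl h))
          · exact Or.inr (Or.inr (Or.inr h))
      · rintro (rfl | rfl | h | h)
        · exact haS
        · exact ha'
        · have : x ∈ S \ {a, a⁻¹} := by rw [hTe, h]; exact Or.inl rfl
          exact this.1
        · have : x ∈ S \ {a, a⁻¹} := by rw [hTe, h]; exact Or.inr rfl
          exact this.1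
    have hb : b ∈ S ∧ b ≠ a ∧ b ≠ a⁻¹ := by
      have : b ∈ S \ {a, a⁻¹} := by rw [hTe]; exact Or.inl rfl
      exact ⟨this.1, fun h => this.2 (Or.inl h), fun h => this.2 (Or.inr h)⟩
    have hc : c ∈ S ∧ c ≠ a ∧ c ≠ a⁻¹ := by
      have : c ∈ S \ {a, a⁻¹} := by rw [hTe]; exact Or.inr rfl
      exact ⟨this.1, fun h => this.2 (Or.inl h), fun h => this.2 (Or.inr h)⟩
    have hbi : b⁻¹ = b ∨ b⁻¹ = c := by
      rcases (hmem _).1 (hinv b hb.1) with h | h | h | h
      · exact absurd (inv_eq_iff_eq_inv.1 h) hb.2.2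
      · exact absurd (inv_injective h) hb.2.1
      · exact Or.inl h
      · exact Or.inr h
    have hne1 : ∀ x ∈ S, x ≠ 1 := fun x hx h => h1 (h ▸ hx)
    rcases hbi with hbi | hbi
    · have hci : c⁻¹ = c := by
        rcases (hmem _).1 (hinv c hc.1) with h | h | h | h
        · exact absurd (inv_eq_iff_eq_inv.1 h) hc.2.2
        · exact absurd (inv_injective h) hc.2.1
        · exact absurd ((inv_eq_iff_eq_inv.1 h).trans hbi) (Ne.symm hbc)
        · exact h
      have hSe : S = {a, a⁻¹, b, c} := by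
        ext x; rw [hmem]; rfl
      have hcl' : Subgroup.closure ({a, b, c} : Set Γ) = ⊤ := by
        rw [eq_top_iff, ← hcl, Subgroup.closure_le]
        intro x hx
        rcases (hmem x).1 hx with rfl | rfl | rfl | rfl
        · exact Subgroup.subset_closure (Or.inl rfl)
        · exact Subgroup.inv_mem _ (Subgroup.subset_closure (Or.inl rfl))
        · exact Subgroup.subset_closure (Or.inr (Or.inl rfl))
        · exact Subgroup.subset_closure (Or.inr (Or.inr rfl))
      have hbb : b * b = 1 := by nth_rewrite 2 [← hbi]; exact mul_inv_cancel b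
      have hcc : c * c = 1 := by nth_rewrite 2 [← hci]; exact mul_inv_cancel c
      rw [hSe]
      by_cases haD : a ∈ Subgroup.closure ({a * c * a⁻¹, b} : Set Γ)
      · exact hD Γ a b c haa hbb hcc (hne1 b hb.1) (hne1 c hc.1) hbc hcl' haD
      · exact hM Γ a b c haa hbb hcc (hne1 b hb.1) (hne1 c hc.1) hbc haD
    · have hSe : S = {a, a⁻¹, b, b⁻¹} := by
        ext x; rw [hmem, hbi]; rfl
      have hcl' : Subgroup.closure ({a, b} : Set Γ) = ⊤ := by
        rw [eq_top_iff, ← hcl, Subgroup.closure_le]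
        intro x hx
        rcases (hmem x).1 hx with rfl | rfl | rfl | h
        · exact Subgroup.subset_closure (Or.inl rfl)
        · exact Subgroup.inv_mem _ (Subgroup.subset_closure (Or.inl rfl))
        · exact Subgroup.subset_closure (Or.inr rfl)
        · rw [h, ← hbi]
          exact Subgroup.inv_mem _ (Subgroup.subset_closure (Or.inr rfl))
      have hbb : b * b ≠ 1 := fun h => hbc ((eq_inv_of_mul_eq_one_left h).trans hbi)
      rw [hSe, Fin_cay]
      refine hG Γ a b ⟨?_, ?_, ?_, ?_, ?_, ?_, ?_⟩ hcl' h5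
      · intro x h
        exact hne1 a haS (mul_eq_left.1 h)
      · intro x h
        exact hne1 b hb.1 (mul_eq_left.1 h)
      · intro x h
        have h' : x * a * a = x := h
        rw [mul_assoc] at h'
        exact haa (mul_eq_left.1 h')
      · intro x h
        have h' : x * b * b = x := h
        rw [mul_assoc] at h'
        exact hbb (mul_eq_left.1 h')
      · intro x h
        exact hb.2.1 (mul_left_cancel h).symm
      · intro x h
        have h' : x * b * a = x := h
        rw [mul_assoc] at h'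
        exact hb.2.2 (eq_inv_of_mul_eq_one_left (mul_eq_left.1 h'))
      · intro x h
        have h' : x * a * b = x := h
        rw [mul_assoc] at h'
        exact hb.2.2 (eq_inv_of_mul_eq_one_right (mul_eq_left.1 h'))

end Pool.Agent.CEC
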