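import Pool.Agent.CEC.St

/-!
# CEC: [Gen], two generators which are not involutions
-/

set_option autoImplicit false

namespace Pool.Agent.CEC

private theorem Gen_reg {V W : Type} (α β : Equiv.Perm V) (α' β' : Equiv.Perm W) (e : V ≃ W)
    (ha : ∀ x, e (α x) = α' (e x)) (hb : ∀ x, e (β x) = β' (e x)) (h : Reg4 α' β') : Reg4 α β where
  a1 x hx := h.a1 (e x) (by rw [← ha, hx])
  b1 x hx := h.b1 (e x) (by rw [← hb, hx])
  a2 x hx := h.a2 (e x) (by rw [← ha, ← ha, hx])
  b2 x hx := h.b2 (e x) (by rw [← hb, ← hb, hx])
  ne x hx := h.ne (e x) (by rw [← ha, ← hb, hx])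
  ab x hx := h.ab (e x) (by rw [← hb, ← ha, hx])
  ba x hx := h.ba (e x) (by rw [← ha, ← hb, hx])

theorem thm_Gen (hIso : St_Iso) (hStr : St_Str) (hOdd : St_Odd) (hEvn : St_Evn) : St_Gen := by
  intro Γ _ _ a b hreg hcl hcard
  by_cases ha : a ∈ Subgroup.zpowers (a * b)
  · have hb : b ∈ Subgroup.zpowers (a * b) := by
      have h1 : a⁻¹ * (a * b) ∈ Subgroup.zpowers (a * b) :=
        mul_mem (inv_mem ha) (Subgroup.mem_zpowers _)
      rwa [inv_mul_cancel_left] at h1
    have htop : Subgroup.zpowers (a * b) = ⊤ := by
      rw [eq_top_iff, ← hcl, Subgroup.closure_le]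
      rintro x (rfl | rfl)
      · exact ha
      · exact hb
    have hcyc : IsCyclic Γ := ⟨⟨a * b, fun x => Subgroup.mem_zpowers_iff.1 (by rw [htop]; exact Subgroup.mem_top x)⟩⟩
    set N := Nat.card Γ with hN
    have hN0 : N ≠ 0 := by
      rw [hN]
      exact Nat.card_pos.ne'
    let e := zmodCyclicMulEquiv hcyc
    let e' : ZMod N ≃ Γ := Multiplicative.ofAdd.trans e.toEquiv
    have he' : ∀ x y : ZMod N, e' (x + y) = e' x * e' y := fun x y =>
      e.map_mul (Multiplicative.ofAdd x) (Multiplicative.ofAdd y)
    set a' := e'.symm a with ha'
    set b' := e'.symm b with hb'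
    have hA : ∀ x, e' (Equiv.addRight a' x) = Equiv.mulRight a (e' x) := by
      intro x
      simp only [Equiv.coe_addRight, Equiv.coe_mulRight]
      rw [he', ha', Equiv.apply_symm_apply]
    have hB : ∀ x, e' (Equiv.addRight b' x) = Equiv.mulRight b (e' x) := by
      intro x
      simp only [Equiv.coe_addRight, Equiv.coe_mulRight]
      rw [he', hb', Equiv.apply_symm_apply]
    have hreg' : Reg4 (Equiv.addRight a') (Equiv.addRight b') := Gen_reg _ _ _ _ e' hA hB hreg
    have hcl' : AddSubgroup.closure ({a', b'} : Set (ZMod N)) = ⊤ := by
      let S := AddSubgroup.closure ({a', b'} : Set (ZMod N))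
      let T : Subgroup Γ :=
        { carrier := {g | e'.symm g ∈ S}
          mul_mem' := by
            intro g h hg hh
            have : e'.symm (g * h) = e'.symm g + e'.symm h := by
              apply e'.injective
              rw [he']
              simp
            change e'.symm (g * h) ∈ S
            rw [this]
            exact add_mem hg hh
          one_mem' := by
            have : e'.symm 1 = 0 := by
              apply e'.injective
              have h0 := he' 0 0
              rw [add_zero] at h0
              have h1 : e' 0 = 1 := by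
                have := mul_left_cancel (a := e' 0) (b := 1) (c := e' 0) (by rw [mul_one]; exact h0)
                exact this.symm
              rw [h1, Equiv.apply_symm_apply]
            change e'.symm 1 ∈ S
            rw [this]
            exact zero_mem S
          inv_mem' := by
            intro g hg
            have h0 := he' 0 0
            rw [add_zero] at h0
            have h1 : e' 0 = 1 := by
              have := mul_left_cancel (a := e' 0) (b := 1) (c := e' 0) (by rw [mul_one]; exact h0)
              exact this.symm
            have : e'.symm g⁻¹ = - e'.symm g := by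
              apply e'.injective
              rw [Equiv.apply_symm_apply]
              have h2 := he' (- e'.symm g) (e'.symm g)
              rw [neg_add_cancel, h1, Equiv.apply_symm_apply] at h2
              exact (eq_inv_of_mul_eq_one_left h2.symm).symm
            change e'.symm g⁻¹ ∈ S
            rw [this]
            exact neg_mem hg }
      have hT : T = ⊤ := by
        rw [eq_top_iff, ← hcl, Subgroup.closure_le]
        rintro x (rfl | rfl)
        · exact AddSubgroup.subset_closure (Set.mem_insert _ _)
        · exact AddSubgroup.subset_closure (Set.mem_insert_of_mem _ rfl)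
      rw [eq_top_iff]
      intro x _
      have h1 : e' x ∈ T := by rw [hT]; exact Subgroup.mem_top _
      have h2 : e'.symm (e' x) ∈ S := h1
      rw [Equiv.symm_apply_apply] at h2
      exact h2
    refine hIso.2.2 (ZMod N) Γ (Equiv.addRight a') (Equiv.addRight b') (Equiv.mulRight a)
      (Equiv.mulRight b) e' hA hB ?_
    rcases Nat.even_or_odd N with h | h
    · exact hEvn N a' b' hN0 h hreg' hcl'
    · exact hOdd N a' b' h hcard hreg' hcl'
  · exact hStr Γ a b hreg ha

end Pool.Agent.CEC
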