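import Pool.Agent.CEC.St

/-!
# CEC, module Inv: four involutions (helper43)
-/

set_option autoImplicit false

namespace Pool.Agent.CEC

open SimpleGraph

private theorem Inv_adj {Γ : Type} [Group Γ] (S : Set Γ) (hS : ∀ g ∈ S, g * g = 1)
    (h1 : (1 : Γ) ∉ S) (x y : Γ) : (Cay S).Adj x y ↔ x⁻¹ * y ∈ S := by
  unfold Cay
  rw [SimpleGraph.fromRel_adj]
  constructor
  · rintro ⟨_, h | h⟩
    · exact h
    · have h3 := hS _ h
      have h4 : (y⁻¹ * x)⁻¹ = y⁻¹ * x := inv_eq_of_mul_eq_one_left h3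
      have h5 : x⁻¹ * y = (y⁻¹ * x)⁻¹ := by rw [mul_inv_rev, inv_inv]
      rw [h5, h4]
      exact h
  · intro h
    refine ⟨?_, Or.inl h⟩
    rintro rfl
    rw [inv_mul_cancel] at h
    exact h1 h

/-- the edge with the same label -/
private theorem Inv_other {Γ : Type} (G : SimpleGraph Γ) (f : Γ → Γ → Bool) (x y z : Γ)
    (hne : z ≠ y) (hz : G.Adj x z) (hf : f x z = f x y)
    (hu : ∀ z', G.Adj x z' → f x z' = f x y → z' = y ∨ z' = z) :
    ∃! z, z ≠ y ∧ G.Adj x z ∧ f x z = f x y :=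
  ⟨z, ⟨hne, hz, hf⟩, fun z' h => (hu z' h.2.1 h.2.2).resolve_left h.1⟩

theorem thm_Inv (hCls : St_Cls) (hQin : St_Qin) : St_Inv := by
  intro Γ _ _ s t u w hs ht hu hw s1 t1 u1 w1 st su sw tu tw uw
  classical
  obtain ⟨q, hq⟩ := hQin Γ s t hs ht s1 t1
  obtain ⟨q', hq'⟩ := hQin Γ u w hu hw u1 w1
  have hS : ∀ g ∈ ({s, t, u, w} : Set Γ), g * g = 1 := by
    rintro g (rfl | rfl | rfl | rfl) <;> assumption
  have h1 : (1 : Γ) ∉ ({s, t, u, w} : Set Γ) := by
    rintro (h | h | h | h)
    · exact s1 h.symm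
    · exact t1 h.symm
    · exact u1 h.symm
    · exact w1 h.symm
  have hadj : ∀ x y, (Cay ({s, t, u, w} : Set Γ)).Adj x y ↔
      x⁻¹ * y = s ∨ x⁻¹ * y = t ∨ x⁻¹ * y = u ∨ x⁻¹ * y = w := fun x y => Inv_adj _ hS h1 x y
  have hcan : ∀ x g : Γ, x⁻¹ * (x * g) = g := fun x g => inv_mul_cancel_left x g
  have hback : ∀ x y g : Γ, x⁻¹ * y = g → y = x * g := fun x y g h => by
    rw [← h, mul_inv_cancel_left]
  let f : Γ → Γ → Bool := fun x y => decide (x⁻¹ * y = s ∨ x⁻¹ * y = t)
  have hfT : ∀ x y, f x y = true ↔ (x⁻¹ * y = s ∨ x⁻¹ * y = t) := fun x y => decide_eq_true_iff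
  have hfF : ∀ x y, f x y = false ↔ ¬ (x⁻¹ * y = s ∨ x⁻¹ * y = t) :=
    fun x y => decide_eq_false_iff_not
  refine hCls Γ _ Bool f (fun b => if b then q else q') ?_ ?_ ?_
  · intro x y h
    have h2 := hS _ ((Inv_adj _ hS h1 x y).1 h)
    have h3 : y⁻¹ * x = x⁻¹ * y := by
      have h4 : (x⁻¹ * y)⁻¹ = x⁻¹ * y := inv_eq_of_mul_eq_one_left h2
      have h5 : y⁻¹ * x = (x⁻¹ * y)⁻¹ := by rw [mul_inv_rev, inv_inv]
      rw [h5, h4]
    show decide (x⁻¹ * y = s ∨ x⁻¹ * y = t) = decide (y⁻¹ * x = s ∨ y⁻¹ * x = t)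
    rw [h3]
  · intro x y h
    rw [hadj] at h
    rcases h with h | h | h | h
    · rw [(hfT x y).2 (Or.inl h), hback x y _ h]
      show q x ≠ q (x * s)
      rw [(hq x).1]
      exact fun h => by cases hx : q x <;> rw [hx] at h <;> exact Bool.noConfusion h
    · rw [(hfT x y).2 (Or.inr h), hback x y _ h]
      show q x ≠ q (x * t)
      rw [(hq x).2]
      exact fun h => by cases hx : q x <;> rw [hx] at h <;> exact Bool.noConfusion h
    · have h2 : f x y = false := (hfF x y).2 (by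
        rw [h]
        rintro (h3 | h3)
        · exact su h3.symm
        · exact tu h3.symm)
      rw [h2, hback x y _ h]
      show q' x ≠ q' (x * u)
      rw [(hq' x).1]
      exact fun h => by cases hx : q' x <;> rw [hx] at h <;> exact Bool.noConfusion h
    · have h2 : f x y = false := (hfF x y).2 (by
        rw [h]
        rintro (h3 | h3)
        · exact sw h3.symm
        · exact tw h3.symm)
      rw [h2, hback x y _ h]
      show q' x ≠ q' (x * w)
      rw [(hq' x).2]
      exact fun h => by cases hx : q' x <;> rw [hx] at h <;> exact Bool.noConfusion h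
  · intro x y h
    rw [hadj] at h
    have hne : ∀ g g' : Γ, g ≠ g' → x * g ≠ x * g' := fun g g' h h' => h (mul_left_cancel h')
    have hT : ∀ g : Γ, (g = s ∨ g = t) → f x (x * g) = true := fun g hg => by
      rw [hfT, hcan]
      exact hg
    have hF : ∀ g : Γ, ¬ (g = s ∨ g = t) → f x (x * g) = false := fun g hg => by
      rw [hfF, hcan]
      exact hg
    have hnu : ¬ (u = s ∨ u = t) := by
      rintro (h3 | h3)
      · exact su h3.symm
      · exact tu h3.symm
    have hnw : ¬ (w = s ∨ w = t) := by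
      rintro (h3 | h3)
      · exact sw h3.symm
      · exact tw h3.symm
    have hA : ∀ g : Γ, (g = s ∨ g = t ∨ g = u ∨ g = w) →
        (Cay ({s, t, u, w} : Set Γ)).Adj x (x * g) := fun g hg => by
      rw [hadj, hcan]
      exact hg
    have hU : ∀ z', f x z' = true → z' = x * s ∨ z' = x * t := fun z' hz => by
      rcases (hfT x z').1 hz with h3 | h3
      · exact Or.inl (hback x z' _ h3)
      · exact Or.inr (hback x z' _ h3)
    have hV : ∀ z', (Cay ({s, t, u, w} : Set Γ)).Adj x z' → f x z' = false →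
        z' = x * u ∨ z' = x * w := fun z' ha hz => by
      have h2 := (hfF x z').1 hz
      rw [hadj] at ha
      rcases ha with h3 | h3 | h3 | h3
      · exact absurd (Or.inl h3) h2
      · exact absurd (Or.inr h3) h2
      · exact Or.inl (hback x z' _ h3)
      · exact Or.inr (hback x z' _ h3)
    rcases h with h | h | h | h
    · rw [hback x y _ h]
      refine Inv_other _ f x (x * s) (x * t) (hne _ _ st.symm) (hA _ (Or.inr (Or.inl rfl)))
        ((hT t (Or.inr rfl)).trans (hT s (Or.inl rfl)).symm) fun z' _ hz => ?_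
      exact hU z' (hz.trans (hT s (Or.inl rfl)))
    · rw [hback x y _ h]
      refine Inv_other _ f x (x * t) (x * s) (hne _ _ st) (hA _ (Or.inl rfl))
        ((hT s (Or.inl rfl)).trans (hT t (Or.inr rfl)).symm) fun z' _ hz => ?_
      exact (hU z' (hz.trans (hT t (Or.inr rfl)))).symm
    · rw [hback x y _ h]
      refine Inv_other _ f x (x * u) (x * w) (hne _ _ uw.symm)
        (hA _ (Or.inr (Or.inr (Or.inr rfl)))) ((hF w hnw).trans (hF u hnu).symm)
        fun z' ha hz => ?_
      exact hV z' ha (hz.trans (hF u hnu))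
    · rw [hback x y _ h]
      refine Inv_other _ f x (x * w) (x * u) (hne _ _ uw)
        (hA _ (Or.inr (Or.inr (Or.inl rfl)))) ((hF u hnu).trans (hF w hnw).symm)
        fun z' ha hz => ?_
      exact (hV z' ha (hz.trans (hF w hnw))).symm

end Pool.Agent.CEC
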