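import Pool.Agent.CEC.St

/-!
# CEC: [Iso] transport of even circuit decompositions along isomorphisms
-/

set_option autoImplicit false

namespace Pool.Agent.CEC

open SimpleGraph

private theorem Iso_transport (V W : Type) (G : SimpleGraph V) (H : SimpleGraph W) (e : V ≃ W)
    (he : ∀ x y, G.Adj x y ↔ H.Adj (e x) (e y)) (h : HasECD G) : HasECD H := by
  obtain ⟨k, u, c, hc, hu⟩ := h
  let φ : G →g H := ⟨e, fun {a b} hab => (he a b).1 hab⟩
  have hφ : Function.Injective φ := e.injective
  refine ⟨k, fun i => φ (u i), fun i => (c i).map φ, fun i => ⟨(hc i).1.map hφ, ?_⟩, fun s hs => ?_⟩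
  · rw [Walk.length_map]
    exact (hc i).2
  · have key : ∀ i, s ∈ ((c i).map φ).edges ↔ Sym2.map e.symm s ∈ (c i).edges := by
      intro i
      rw [Walk.edges_map, List.mem_map]
      constructor
      · rintro ⟨t, ht, rfl⟩
        have : Sym2.map e.symm (Sym2.map φ t) = t := by
          rw [Sym2.map_map]
          have h2 : (e.symm ∘ φ : V → V) = id := by
            funext x
            exact e.symm_apply_apply x
          rw [h2, Sym2.map_id, id]
        rw [this]
        exact ht
      · intro ht
        refine ⟨_, ht, ?_⟩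
        rw [Sym2.map_map]
        have h2 : (φ ∘ e.symm : W → W) = id := by
          funext x
          exact e.apply_symm_apply x
        rw [h2, Sym2.map_id, id]
    have hs' : Sym2.map e.symm s ∈ G.edgeSet := by
      induction s using Sym2.ind with
      | _ x y =>
        rw [Sym2.map_mk, mem_edgeSet, he, e.apply_symm_apply, e.apply_symm_apply]
        exact hs
    obtain ⟨i, hi, hi'⟩ := hu _ hs'
    exact ⟨i, (key i).2 hi, fun j hj => hi' j ((key j).1 hj)⟩

/-- [Iso] -/
theorem thm_Iso : St_Iso := by
  refine ⟨Iso_transport, fun V α β => ⟨?_, ?_⟩, fun V W α β α' β' e h1 h2 h => ?_⟩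
  · ext x y
    have h1 : y = α.symm x ↔ x = α y := by
      rw [Equiv.eq_symm_apply]
      exact eq_comm
    have h2 : x = α.symm y ↔ y = α x := by
      rw [Equiv.eq_symm_apply]
      exact eq_comm
    simp only [PG, fromRel_adj, h1, h2]
    tauto
  · ext x y
    simp only [PG, fromRel_adj]
    tauto
  · refine Iso_transport V W _ _ e (fun x y => ?_) h
    simp only [PG, fromRel_adj, ← h1, ← h2, e.injective.eq_iff, ne_eq]

end Pool.Agent.CEC
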