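import Pool.Agent.CEC.Defs

/-!
# CEC: the complete graph on five vertices has no even circuit decomposition
-/

set_option autoImplicit false

namespace Pool.Agent.CEC

theorem not_top5 {V : Type} [Finite V] (h5 : Nat.card V = 5) :
    ¬ HasECD (⊤ : SimpleGraph V) := by
  classical
  rintro ⟨k, u, c, hc, he⟩
  have := Fintype.ofFinite V
  have hcard : Fintype.card V = 5 := by rw [← Nat.card_eq_fintype_card, h5]
  have hlen : ∀ i, (c i).length = 4 := by
    intro i
    have h1 := (hc i).1.three_le_length
    have h2 : (c i).length ≤ 5 := by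
      have h3 := (hc i).1.support_nodup.length_le_card
      rw [List.length_tail, SimpleGraph.Walk.length_support, hcard] at h3
      omega
    obtain ⟨m, hm⟩ := (hc i).2
    omega
  have hE : (⊤ : SimpleGraph V).edgeFinset =
      Finset.univ.biUnion fun i => (c i).edges.toFinset := by
    ext e
    rw [SimpleGraph.mem_edgeFinset, Finset.mem_biUnion]
    constructor
    · intro h
      obtain ⟨i, hi, -⟩ := he e h
      exact ⟨i, Finset.mem_univ _, List.mem_toFinset.2 hi⟩
    · rintro ⟨i, -, hi⟩
      exact (c i).edges_subset_edgeSet (List.mem_toFinset.1 hi)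
  have hdis : ∀ i ∈ (Finset.univ : Finset (Fin k)), ∀ j ∈ (Finset.univ : Finset (Fin k)), i ≠ j →
      Disjoint (c i).edges.toFinset (c j).edges.toFinset := by
    intro i _ j _ hij
    rw [Finset.disjoint_left]
    intro e hi hj
    rw [List.mem_toFinset] at hi hj
    obtain ⟨l, -, hl⟩ := he e ((c i).edges_subset_edgeSet hi)
    exact hij ((hl i hi).trans (hl j hj).symm)
  have h1 : (⊤ : SimpleGraph V).edgeFinset.card = 10 := by
    rw [SimpleGraph.card_edgeFinset_top_eq_card_choose_two, hcard]
    rfl
  have h2 : (⊤ : SimpleGraph V).edgeFinset.card = k * 4 := by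
    rw [hE, Finset.card_biUnion hdis]
    have h3 : ∀ i ∈ (Finset.univ : Finset (Fin k)), ((c i).edges.toFinset).card = 4 := by
      intro i _
      rw [List.toFinset_card_of_nodup (hc i).1.isTrail.edges_nodup,
        SimpleGraph.Walk.length_edges, hlen]
    rw [Finset.sum_congr rfl h3, Finset.sum_const, Finset.card_univ, Fintype.card_fin,
      smul_eq_mul]
  omega

theorem not_card5 {Γ : Type} [Group Γ] [Finite Γ] (S : Set Γ) (h1 : (1 : Γ) ∉ S)
    (hS : S.ncard = 4) (h5 : Nat.card Γ = 5) : ¬ HasECD (Cay S) := by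
  have hT : S = {1}ᶜ := by
    refine Set.eq_of_subset_of_ncard_le ?_ ?_ (Set.toFinite _)
    · intro x hx h
      exact h1 ((Set.mem_singleton_iff.1 h) ▸ hx)
    · have h2 := Set.ncard_add_ncard_compl ({1} : Set Γ)
      rw [Set.ncard_singleton, h5] at h2
      omega
  have hG : Cay S = ⊤ := by
    ext x y
    rw [Cay, SimpleGraph.fromRel_adj, SimpleGraph.top_adj]
    refine ⟨fun h => h.1, fun h => ⟨h, Or.inl ?_⟩⟩
    rw [hT]
    intro h2
    exact h (inv_mul_eq_one.1 (Set.mem_singleton_iff.1 h2))
  rw [hG]
  exact not_top5 h5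

end Pool.Agent.CEC
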