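import Pool.Agent.CEC.St

/-!
# CEC: labels for the graph of two permutations
-/

set_option autoImplicit false

namespace Pool.Agent.CEC

open SimpleGraph

private lemma Lab_pair {V I : Type} (F : V → I) (a b c d : V) (hab : a ≠ b) (hcd : c ≠ d)
    (h1 : F a = F b) (h2 : F c = F d) (h3 : F a ≠ F c) (y : V)
    (hy : y = a ∨ y = b ∨ y = c ∨ y = d) :
    ∃! z, z ≠ y ∧ (z = a ∨ z = b ∨ z = c ∨ z = d) ∧ F z = F y := by
  rcases hy with rfl | rfl | rfl | rfl
  · refine ⟨b, ⟨Ne.symm hab, Or.inr (Or.inl rfl), h1.symm⟩, ?_⟩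
    rintro z ⟨hz1, hz2 | hz2 | hz2 | hz2, hz3⟩
    · exact absurd hz2 hz1
    · exact hz2
    · rw [hz2] at hz3; exact absurd hz3.symm h3
    · rw [hz2, ← h2] at hz3; exact absurd hz3.symm h3
  · refine ⟨a, ⟨hab, Or.inl rfl, h1⟩, ?_⟩
    rintro z ⟨hz1, hz2 | hz2 | hz2 | hz2, hz3⟩
    · exact hz2
    · exact absurd hz2 hz1
    · rw [hz2, ← h1] at hz3; exact absurd hz3.symm h3
    · rw [hz2, ← h2, ← h1] at hz3; exact absurd hz3.symm h3
  · refine ⟨d, ⟨Ne.symm hcd, Or.inr (Or.inr (Or.inr rfl)), h2.symm⟩, ?_⟩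
    rintro z ⟨hz1, hz2 | hz2 | hz2 | hz2, hz3⟩
    · rw [hz2] at hz3; exact absurd hz3 h3
    · rw [hz2, ← h1] at hz3; exact absurd hz3 h3
    · exact absurd hz2 hz1
    · exact hz2
  · refine ⟨c, ⟨hcd, Or.inr (Or.inr (Or.inl rfl)), h2⟩, ?_⟩
    rintro z ⟨hz1, hz2 | hz2 | hz2 | hz2, hz3⟩
    · rw [hz2, ← h2] at hz3; exact absurd hz3 h3
    · rw [hz2, ← h1, ← h2] at hz3; exact absurd hz3 h3
    · exact hz2
    · exact absurd hz2 hz1

private lemma Lab_four {V I : Type} (F : V → I) (a b c d : V) (hab : a ≠ b) (hac : a ≠ c)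
    (had : a ≠ d) (hbc : b ≠ c) (hbd : b ≠ d) (hcd : c ≠ d)
    (h : (F c = F d ∧ F a = F b ∧ F c ≠ F a) ∨ (F c = F a ∧ F d = F b ∧ F c ≠ F d) ∨
      (F c = F b ∧ F d = F a ∧ F c ≠ F d)) (y : V) (hy : y = a ∨ y = b ∨ y = c ∨ y = d) :
    ∃! z, z ≠ y ∧ (z = a ∨ z = b ∨ z = c ∨ z = d) ∧ F z = F y := by
  rcases h with ⟨h1, h2, h3⟩ | ⟨h1, h2, h3⟩ | ⟨h1, h2, h3⟩
  · exact Lab_pair F a b c d hab hcd h2 h1 (Ne.symm h3) y hy
  · have h4 := Lab_pair F c a d b (Ne.symm hac) (Ne.symm hbd) h1 h2 h3 y (by tauto)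
    obtain ⟨z, ⟨hz1, hz2, hz3⟩, hz4⟩ := h4
    exact ⟨z, ⟨hz1, by tauto, hz3⟩, fun w ⟨hw1, hw2, hw3⟩ => hz4 w ⟨hw1, by tauto, hw3⟩⟩
  · have h4 := Lab_pair F c b d a (Ne.symm hbc) (Ne.symm had) h1 h2 h3 y (by tauto)
    obtain ⟨z, ⟨hz1, hz2, hz3⟩, hz4⟩ := h4
    exact ⟨z, ⟨hz1, by tauto, hz3⟩, fun w ⟨hw1, hw2, hw3⟩ => hz4 w ⟨hw1, by tauto, hw3⟩⟩

theorem thm_Lab (hCls : St_Cls) : St_Lab := by
  intro V _ α β hR I fa fb p hL
  classical
  let f : V → V → I := fun x y =>
    if y = α x then fa x else if x = α y then fa y else if y = β x then fb x else fb y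
  have f1 : ∀ x, f x (α x) = fa x := fun x => if_pos rfl
  have f2 : ∀ y, f (α y) y = fa y := by
    intro y
    show (if y = α (α y) then fa (α y) else if α y = α y then fa y else _) = fa y
    rw [if_neg (fun h => hR.a2 y h.symm), if_pos rfl]
  have f3 : ∀ x, f x (β x) = fb x := by
    intro x
    show (if β x = α x then fa x else if x = α (β x) then fa (β x) else
      if β x = β x then fb x else _) = fb x
    rw [if_neg (fun h => hR.ne x h.symm), if_neg (fun h => hR.ab x h.symm), if_pos rfl]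
  have f4 : ∀ y, f (β y) y = fb y := by
    intro y
    show (if y = α (β y) then fa (β y) else if β y = α y then fa y else
      if y = β (β y) then fb (β y) else fb y) = fb y
    rw [if_neg (fun h => hR.ab y h.symm), if_neg (fun h => hR.ne y h.symm),
      if_neg (fun h => hR.b2 y h.symm)]
  -- adjacency
  have hadj : ∀ x y, (PG α β).Adj x y ↔
      (y = α x ∨ y = α.symm x ∨ y = β x ∨ y = β.symm x) := by
    intro x y
    unfold PG
    rw [SimpleGraph.fromRel_adj]
    have e1 : x = α y ↔ y = α.symm x := by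
      constructor
      · intro h; rw [h, Equiv.symm_apply_apply]
      · intro h; rw [h, Equiv.apply_symm_apply]
    have e2 : x = β y ↔ y = β.symm x := by
      constructor
      · intro h; rw [h, Equiv.symm_apply_apply]
      · intro h; rw [h, Equiv.apply_symm_apply]
    rw [e1, e2]
    constructor
    · rintro ⟨_, (h | h) | (h | h)⟩
      · exact Or.inl h
      · exact Or.inr (Or.inr (Or.inl h))
      · exact Or.inr (Or.inl h)
      · exact Or.inr (Or.inr (Or.inr h))
    · intro h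
      refine ⟨?_, by tauto⟩
      rintro rfl
      rcases h with h | h | h | h
      · exact hR.a1 x h.symm
      · rw [← e1] at h; exact hR.a1 x h.symm
      · exact hR.b1 x h.symm
      · rw [← e2] at h; exact hR.b1 x h.symm
  have g2 : ∀ x, f x (α.symm x) = fa (α.symm x) := by
    intro x
    have h := f2 (α.symm x)
    rwa [Equiv.apply_symm_apply] at h
  have g4 : ∀ x, f x (β.symm x) = fb (β.symm x) := by
    intro x
    have h := f4 (β.symm x)
    rwa [Equiv.apply_symm_apply] at h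
  have g2' : ∀ x, f (α.symm x) x = fa (α.symm x) := by
    intro x
    have h := f1 (α.symm x)
    rwa [Equiv.apply_symm_apply] at h
  have g4' : ∀ x, f (β.symm x) x = fb (β.symm x) := by
    intro x
    have h := f3 (β.symm x)
    rwa [Equiv.apply_symm_apply] at h
  refine hCls V (PG α β) I f p ?_ ?_ ?_
  · intro x y hxy
    rcases (hadj x y).mp hxy with rfl | rfl | rfl | rfl
    · rw [f1, f2]
    · rw [g2, g2']
    · rw [f3, f4]
    · rw [g4, g4']
  · intro x y hxy
    rcases (hadj x y).mp hxy with rfl | rfl | rfl | rfl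
    · rw [f1]; exact (hL.pa x).symm
    · rw [g2]
      have h := hL.pa (α.symm x)
      rwa [Equiv.apply_symm_apply] at h
    · rw [f3]; exact (hL.pb x).symm
    · rw [g4]
      have h := hL.pb (β.symm x)
      rwa [Equiv.apply_symm_apply] at h
  · intro x y hxy
    have hd := hL.deg x (α.symm x) (β.symm x) (Equiv.apply_symm_apply _ _)
      (Equiv.apply_symm_apply _ _)
    have h5 := Lab_four (f x) (α x) (α.symm x) (β x) (β.symm x)
      (fun h => hR.a2 x (by rw [h, Equiv.apply_symm_apply]))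
      (hR.ne x)
      (fun h => hR.ba x (by rw [h, Equiv.apply_symm_apply]))
      (fun h => hR.ab x (by rw [← h, Equiv.apply_symm_apply]))
      (fun h => hR.ne (α.symm x) (by
        rw [Equiv.apply_symm_apply, h, Equiv.apply_symm_apply]))
      (fun h => hR.b2 x (by rw [h, Equiv.apply_symm_apply]))
      (by rw [f1, g2, f3, g4]; exact hd) y ((hadj x y).mp hxy)
    obtain ⟨z, ⟨hz1, hz2, hz3⟩, hz4⟩ := h5
    exact ⟨z, ⟨hz1, (hadj x z).mpr hz2, hz3⟩,
      fun w ⟨hw1, hw2, hw3⟩ => hz4 w ⟨hw1, (hadj x w).mp hw2, hw3⟩⟩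

end Pool.Agent.CEC
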