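import Pool.Agent.CEC.St

set_option autoImplicit false

/-!
# CEC / Mix: one cycle generator and two involutions, generic case
-/

namespace Pool.Agent.CEC

open SimpleGraph

private theorem Mix_inv {Γ : Type} [Group Γ] {s : Γ} (h : s * s = 1) : s⁻¹ = s :=
  inv_eq_of_mul_eq_one_left h

private theorem Mix_adj {Γ : Type} [Group Γ] (a s t : Γ) (ha : a * a ≠ 1) (hs : s * s = 1)
    (ht : t * t = 1) (hs1 : s ≠ 1) (ht1 : t ≠ 1) (x y : Γ) :
    (Cay ({a, a⁻¹, s, t} : Set Γ)).Adj x y ↔
      y = x * a ∨ y = x * a⁻¹ ∨ y = x * s ∨ y = x * t := by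
  have ha1 : a ≠ 1 := by
    rintro rfl
    exact ha (mul_one 1)
  have hsi := Mix_inv hs
  have hti := Mix_inv ht
  unfold Cay
  rw [SimpleGraph.fromRel_adj]
  simp only [Set.mem_insert_iff, Set.mem_singleton_iff, inv_mul_eq_iff_eq_mul]
  constructor
  · rintro ⟨-, h | (h | h | h | h)⟩
    · exact h
    · right; left
      rw [h, mul_inv_cancel_right]
    · left
      rw [h, inv_mul_cancel_right]
    · right; right; left
      rw [h, mul_assoc, hs, mul_one]
    · right; right; right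
      rw [h, mul_assoc, ht, mul_one]
  · intro h
    refine ⟨?_, Or.inl h⟩
    intro hxy
    subst hxy
    rcases h with h | h | h | h
    · exact ha1 (left_eq_mul.mp h)
    · exact ha1 (inv_eq_one.mp (left_eq_mul.mp h))
    · exact hs1 (left_eq_mul.mp h)
    · exact ht1 (left_eq_mul.mp h)

theorem thm_Mix (hC : St_Cls) (hQ : St_Qin) : St_Mix := by
  intro Γ _ _ a s t ha hs ht hs1 ht1 hst hD
  classical
  set D := Subgroup.closure ({a * t * a⁻¹, s} : Set Γ) with hDd
  have hsD : s ∈ D := Subgroup.subset_closure (by simp)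
  have hsD' : a * t * a⁻¹ ∈ D := Subgroup.subset_closure (by simp)
  have haD : a⁻¹ ∉ D := fun h => hD (by simpa using D.inv_mem h)
  have hsi := Mix_inv hs
  have hti := Mix_inv ht
  have has : a ≠ s := by
    rintro rfl
    exact ha hs
  have hat : a ≠ t := by
    rintro rfl
    exact ha ht
  have hai : a ≠ a⁻¹ := by
    intro h
    apply ha
    nth_rewrite 2 [h]
    exact mul_inv_cancel a
  have has' : a⁻¹ ≠ s := by
    intro h
    apply has
    rw [← inv_inv a, h, hsi]
  have hat' : a⁻¹ ≠ t := by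
    intro h
    apply hat
    rw [← inv_inv a, h, hti]
  obtain ⟨q, hq⟩ := hQ Γ s (a * t * a⁻¹) hs (by
    have h1 : a * t * a⁻¹ * (a * t * a⁻¹) = a * (t * t) * a⁻¹ := by group
    rw [h1, ht, mul_one, mul_inv_cancel]) hs1 (by
    intro h
    apply ht1
    have h1 : a * t = a := by
      have h2 := congrArg (fun z => z * a) h
      simpa using h2
    exact mul_eq_left.mp h1)
  have hsa := Mix_adj a s t ha hs ht hs1 ht1
  -- the labels
  have hne : ∀ x : Γ, ((x : Γ) : Γ ⧸ D) ≠ ((x * a⁻¹ : Γ) : Γ ⧸ D) := by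
    intro x h
    rw [QuotientGroup.eq, inv_mul_cancel_left] at h
    exact haD h
  have hes : ∀ x : Γ, ((x * s : Γ) : Γ ⧸ D) = ((x : Γ) : Γ ⧸ D) := by
    intro x
    rw [eq_comm, QuotientGroup.eq, inv_mul_cancel_left]
    exact hsD
  have het : ∀ x : Γ, ((x * t * a⁻¹ : Γ) : Γ ⧸ D) = ((x * a⁻¹ : Γ) : Γ ⧸ D) := by
    intro x
    rw [eq_comm, QuotientGroup.eq]
    have h1 : (x * a⁻¹)⁻¹ * (x * t * a⁻¹) = a * t * a⁻¹ := by group
    rw [h1]
    exact hsD'
  obtain ⟨f, hf⟩ : ∃ f : Γ → Γ → Γ ⧸ D, ∀ x y, f x y =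
      if y = x * a ∨ y = x * s then ((x : Γ) : Γ ⧸ D) else ((x * a⁻¹ : Γ) : Γ ⧸ D) :=
    ⟨_, fun _ _ => rfl⟩
  have e1 : ∀ x, f x (x * a) = ((x : Γ) : Γ ⧸ D) := fun x => by
    rw [hf, if_pos (Or.inl rfl)]
  have e2 : ∀ x, f x (x * s) = ((x : Γ) : Γ ⧸ D) := fun x => by
    rw [hf, if_pos (Or.inr rfl)]
  have e3 : ∀ x, f x (x * a⁻¹) = ((x * a⁻¹ : Γ) : Γ ⧸ D) := fun x => by
    rw [hf, if_neg]
    rintro (h | h)
    · exact hai (mul_left_cancel h).symm
    · exact has' (mul_left_cancel h)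
  have e4 : ∀ x, f x (x * t) = ((x * a⁻¹ : Γ) : Γ ⧸ D) := fun x => by
    rw [hf, if_neg]
    rintro (h | h)
    · exact hat (mul_left_cancel h).symm
    · exact hst (mul_left_cancel h).symm
  obtain ⟨p, hp⟩ : ∃ p : Γ ⧸ D → Γ → Bool, ∀ c y, p c y =
      if ((y : Γ) : Γ ⧸ D) = c then q y else !q (y * a⁻¹) := ⟨_, fun _ _ => rfl⟩
  refine hC Γ _ (Γ ⧸ D) f p ?_ ?_ ?_
  · intro x y h
    rcases (hsa x y).mp h with rfl | rfl | rfl | rfl
    · have h1 := e3 (x * a)
      rw [mul_inv_cancel_right] at h1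
      rw [e1, h1]
    · have h1 := e1 (x * a⁻¹)
      rw [inv_mul_cancel_right] at h1
      rw [e3, h1]
    · have h1 := e2 (x * s)
      rw [mul_assoc, hs, mul_one] at h1
      rw [e2, h1, hes]
    · have h1 := e4 (x * t)
      rw [mul_assoc x t t, ht, mul_one] at h1
      rw [e4, h1, het]
  · intro x y h
    rcases (hsa x y).mp h with rfl | rfl | rfl | rfl
    · rw [e1, hp, hp, if_pos rfl, if_neg, mul_inv_cancel_right]
      · simp
      · intro h1
        have h2 := hne (x * a)
        rw [mul_inv_cancel_right] at h2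
        exact h2 h1
    · rw [e3, hp, hp, if_pos rfl, if_neg (hne x)]
      simp
    · rw [e2, hp, hp, if_pos rfl, if_pos (hes x), (hq x).1]
      simp
    · rw [e4, hp, hp, if_neg (hne x), if_neg]
      · have h1 : x * t * a⁻¹ = x * a⁻¹ * (a * t * a⁻¹) := by group
        rw [h1, (hq (x * a⁻¹)).2]
        simp
      · rw [← het x]
        exact hne (x * t)
  · intro x y h
    rcases (hsa x y).mp h with rfl | rfl | rfl | rfl
    · refine ⟨x * s, ⟨fun h1 => has (mul_left_cancel h1).symm, (hsa _ _).mpr (by simp), ?_⟩, ?_⟩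
      · rw [e1, e2]
      · rintro z ⟨h1, h2, h3⟩
        rw [e1] at h3
        rcases (hsa x z).mp h2 with rfl | rfl | rfl | rfl
        · exact absurd rfl h1
        · rw [e3] at h3
          exact absurd h3.symm (hne x)
        · rfl
        · rw [e4] at h3
          exact absurd h3.symm (hne x)
    · refine ⟨x * t, ⟨fun h1 => hat' (mul_left_cancel h1).symm, (hsa _ _).mpr (by simp), ?_⟩, ?_⟩
      · rw [e3, e4]
      · rintro z ⟨h1, h2, h3⟩
        rw [e3] at h3
        rcases (hsa x z).mp h2 with rfl | rfl | rfl | rfl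
        · rw [e1] at h3
          exact absurd h3 (hne x)
        · exact absurd rfl h1
        · rw [e2] at h3
          exact absurd h3 (hne x)
        · rfl
    · refine ⟨x * a, ⟨fun h1 => has (mul_left_cancel h1), (hsa _ _).mpr (by simp), ?_⟩, ?_⟩
      · rw [e1, e2]
      · rintro z ⟨h1, h2, h3⟩
        rw [e2] at h3
        rcases (hsa x z).mp h2 with rfl | rfl | rfl | rfl
        · rfl
        · rw [e3] at h3
          exact absurd h3.symm (hne x)
        · exact absurd rfl h1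
        · rw [e4] at h3
          exact absurd h3.symm (hne x)
    · refine ⟨x * a⁻¹, ⟨fun h1 => hat' (mul_left_cancel h1), (hsa _ _).mpr (by simp), ?_⟩, ?_⟩
      · rw [e3, e4]
      · rintro z ⟨h1, h2, h3⟩
        rw [e4] at h3
        rcases (hsa x z).mp h2 with rfl | rfl | rfl | rfl
        · rw [e1] at h3
          exact absurd h3 (hne x)
        · rfl
        · rw [e2] at h3
          exact absurd h3 (hne x)
        · exact absurd rfl h1

end Pool.Agent.CEC
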