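import Pool.Agent.CEC.St

/-!
# CEC: cyclic groups of odd order
-/

set_option autoImplicit false

namespace Pool.Agent.CEC

private lemma Odd_mul (hI : St_Iso) {N : ℕ} {x y x' y' : ZMod N} (u : (ZMod N)ˣ)
    (hx : x * u = x') (hy : y * u = y')
    (h : HasECD (PG (Equiv.addRight x) (Equiv.addRight y))) :
    HasECD (PG (Equiv.addRight x') (Equiv.addRight y')) := by
  refine hI.2.2 (ZMod N) (ZMod N) _ _ _ _ (Units.mulRight u) ?_ ?_ h
  · intro z
    simp [add_mul, hx]
  · intro z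
    simp [add_mul, hy]

private lemma Odd_symm {N : ℕ} (x : ZMod N) :
    (Equiv.addRight x).symm = Equiv.addRight (-x) := by
  ext z
  simp

private lemma Odd_neg (hI : St_Iso) {N : ℕ} (x y : ZMod N) :
    PG (Equiv.addRight (-x)) (Equiv.addRight y) = PG (Equiv.addRight x) (Equiv.addRight y) := by
  rw [← Odd_symm]
  exact (hI.2.1 (ZMod N) (Equiv.addRight x) (Equiv.addRight y)).1

private lemma Odd_swap (hI : St_Iso) {N : ℕ} (x y : ZMod N) :
    PG (Equiv.addRight y) (Equiv.addRight x) = PG (Equiv.addRight x) (Equiv.addRight y) :=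
  (hI.2.1 (ZMod N) (Equiv.addRight x) (Equiv.addRight y)).2

private lemma Odd_one (hDel : St_Del) (hEps : St_Eps) (hSqu : St_Squ) (hI : St_Iso) (N : ℕ)
    (hN : Odd N) (hN5 : N ≠ 5) (t : ZMod N) (h0 : t ≠ 0) (h1 : t ≠ 1) (h2 : t ≠ -1) :
    HasECD (PG (Equiv.addRight t) (Equiv.addRight (1 : ZMod N))) := by
  have : NeZero N := ⟨hN.pos.ne'⟩
  obtain ⟨t0, ht0⟩ : ∃ t0 : ℕ, t0 = t.valMinAbs.natAbs := ⟨_, rfl⟩
  have hle : t0 ≤ N / 2 := by rw [ht0]; exact ZMod.natAbs_valMinAbs_le t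
  have hpm : t = (t0 : ZMod N) ∨ t = -(t0 : ZMod N) := by
    have h3 := ZMod.coe_valMinAbs t
    rcases Int.natAbs_eq t.valMinAbs with h | h
    · left
      rw [← h3, h, ← ht0]
      push_cast
      rfl
    · right
      rw [← h3, h, ← ht0]
      push_cast
      rfl
  have hg : HasECD (PG (Equiv.addRight (t0 : ZMod N)) (Equiv.addRight (1 : ZMod N))) → 
      HasECD (PG (Equiv.addRight t) (Equiv.addRight (1 : ZMod N))) := by
    intro h
    rcases hpm with h3 | h3
    · rw [h3]; exact h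
    · rw [h3, Odd_neg hI]; exact h
  apply hg
  have ht0' : t0 ≠ 0 := by
    rintro h
    rw [h] at hpm
    simp at hpm
    exact h0 hpm
  have ht1' : t0 ≠ 1 := by
    rintro h
    rw [h] at hpm
    rw [Nat.cast_one] at hpm
    rcases hpm with h3 | h3
    · exact h1 h3
    · exact h2 h3
  obtain ⟨m, hm⟩ := hN
  have hodd : Odd N := ⟨m, hm⟩
  have ht2 : 2 * t0 + 1 ≤ N := by omega
  have hN7 : 7 ≤ N := by omega
  rcases Nat.lt_or_ge (2 * t0 + 1) N with hlt | hge
  · rcases Nat.even_or_odd t0 with he | ho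
    · rcases eq_or_ne t0 2 with h | h
      · subst h
        have h3 := hSqu N hodd hN7
        rw [Nat.cast_ofNat]
        exact h3
      · obtain ⟨s, hs⟩ := he
        exact hEps N t0 hodd ⟨s, hs⟩ (by omega) hlt
    · obtain ⟨s, hs⟩ := ho
      exact hDel N t0 hodd ⟨s, hs⟩ (by omega) hlt
  · have hN' : N = 2 * t0 + 1 := by omega
    have h2u : IsUnit (2 : ZMod N) := by
      have h3 : Nat.Coprime 2 N := by
        rw [Nat.coprime_comm]
        exact hodd.coprime_two_right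
      have h4 := (ZMod.isUnit_iff_coprime 2 N).mpr h3
      rwa [Nat.cast_ofNat] at h4
    obtain ⟨u, hu⟩ := h2u
    have h3 : (t0 : ZMod N) * 2 = -1 := by
      have h4 : ((2 * t0 + 1 : ℕ) : ZMod N) = 0 := by
        rw [← hN']; exact ZMod.natCast_self N
      push_cast at h4
      linear_combination h4
    have h5 := hSqu N hodd hN7
    rw [Odd_swap hI, ← Odd_neg hI] at h5
    refine Odd_mul hI u⁻¹ ?_ ?_ h5
    · rw [← h3, ← hu, Units.mul_inv_cancel_right]
    · rw [← hu, Units.mul_inv]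

private lemma Odd_unit (hDel : St_Del) (hEps : St_Eps) (hSqu : St_Squ) (hI : St_Iso) (N : ℕ)
    (hN : Odd N) (hN5 : N ≠ 5) (a b : ZMod N) (h0 : a ≠ 0) (h1 : a ≠ b) (h2 : a + b ≠ 0)
    (hb : IsUnit b) : HasECD (PG (Equiv.addRight a) (Equiv.addRight b)) := by
  obtain ⟨u, rfl⟩ := hb
  refine Odd_mul hI (x := a * ((u⁻¹ : (ZMod N)ˣ) : ZMod N)) (y := 1) u ?_ ?_ ?_
  · rw [Units.inv_mul_cancel_right]
  · rw [one_mul]
  · refine Odd_one hDel hEps hSqu hI N hN hN5 _ ?_ ?_ ?_
    · intro h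
      apply h0
      rw [← Units.inv_mul_cancel_right a u, h, zero_mul]
    · intro h
      apply h1
      rw [← Units.inv_mul_cancel_right a u, h, one_mul]
    · intro h
      apply h2
      rw [← Units.inv_mul_cancel_right a u, h]
      ring

theorem thm_Odd (hZip : St_Zip) (hDel : St_Del) (hEps : St_Eps) (hSqu : St_Squ) (hI : St_Iso) :
    St_Odd := by
  intro N a b hN hN5 hR hcl
  have : NeZero N := ⟨hN.pos.ne'⟩
  have ha0 : a ≠ 0 := fun h => hR.a1 0 (by simp [h])
  have hb0 : b ≠ 0 := fun h => hR.b1 0 (by simp [h])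
  have hab : a ≠ b := fun h => hR.ne 0 (by simp [h])
  have hab' : a + b ≠ 0 := fun h => hR.ba 0 (by simpa using h)
  -- the greatest common divisor
  have hgcd : Nat.gcd (Nat.gcd a.val b.val) N = 1 := by
    obtain ⟨d, hd⟩ : ∃ d, d = Nat.gcd (Nat.gcd a.val b.val) N := ⟨_, rfl⟩
    rw [← hd]
    have hdN : d ∣ N := hd ▸ Nat.gcd_dvd_right _ _
    have hda : d ∣ a.val := hd ▸ (Nat.gcd_dvd_left _ _).trans (Nat.gcd_dvd_left _ _)
    have hdb : d ∣ b.val := hd ▸ (Nat.gcd_dvd_left _ _).trans (Nat.gcd_dvd_right _ _)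
    have h1 : (1 : ZMod N) ∈ AddSubgroup.closure ({a, b} : Set (ZMod N)) := by
      rw [hcl]; trivial
    obtain ⟨m, n, hmn⟩ := AddSubgroup.mem_closure_pair.mp h1
    have h2 := congrArg (ZMod.castHom hdN (ZMod d)) hmn
    have h3 : ∀ x : ZMod N, d ∣ x.val → ZMod.castHom hdN (ZMod d) x = 0 := by
      intro x hx
      rw [← ZMod.natCast_zmod_val x, map_natCast, ZMod.natCast_eq_zero_iff]
      exact hx
    rw [map_add, map_zsmul, map_zsmul, h3 a hda, h3 b hdb, smul_zero, smul_zero, add_zero,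
      map_one] at h2
    have h4 : ((1 : ℕ) : ZMod d) = 0 := by rw [Nat.cast_one]; exact h2.symm
    rw [ZMod.natCast_eq_zero_iff] at h4
    exact Nat.dvd_one.mp h4
  have hu : ∀ x : ZMod N, ¬ 1 < Nat.gcd x.val N → IsUnit x := by
    intro x hx
    have h1 : 0 < Nat.gcd x.val N := Nat.gcd_pos_of_pos_right _ hN.pos
    have h2 : Nat.Coprime x.val N := by
      have h3 : Nat.gcd x.val N = 1 := by omega
      exact h3
    have h4 := (ZMod.isUnit_iff_coprime x.val N).mpr h2
    rwa [ZMod.natCast_zmod_val] at h4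
  by_cases h1 : 1 < Nat.gcd a.val N
  · by_cases h2 : 1 < Nat.gcd b.val N
    · have h3 := hZip N a.val b.val hN h1 h2 hgcd
      rwa [ZMod.natCast_zmod_val, ZMod.natCast_zmod_val] at h3
    · exact Odd_unit hDel hEps hSqu hI N hN hN5 a b ha0 hab hab' (hu b h2)
  · rw [← Odd_swap hI]
    exact Odd_unit hDel hEps hSqu hI N hN hN5 b a hb0 hab.symm (by rwa [add_comm]) (hu a h1)

end Pool.Agent.CEC
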