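import Pool.Agent.CEC.St

/-!
# CEC [Phi]: zigzags with a phase (helper44)
-/

set_option autoImplicit false

namespace Pool.Agent.CEC

theorem thm_Phi (hLab : St_Lab) : St_Phi := by
  classical
  intro A _ _ a b m Φ e hm hReg heb hΦb hΦa
  have h1 : (1 : ZMod m) ≠ 0 := by
    intro h
    apply hm
    have h2 : ((1 : ℕ) : ZMod m) = 0 := by
      rw [Nat.cast_one]
      exact h
    rw [ZMod.natCast_eq_zero_iff] at h2
    exact Nat.dvd_one.1 h2
  have hp : ∀ t : ZMod m, t + 1 ≠ t := by
    intro t h
    apply h1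
    have h2 : t + 1 - t = t - t := by rw [h]
    rwa [add_sub_cancel_left, sub_self] at h2
  have hm' : ∀ t : ZMod m, t - 1 ≠ t := by
    intro t h
    exact hp t (by
      rw [sub_eq_iff_eq_add] at h
      exact h.symm)
  have hab : ∀ x, Φ (x + a) ≠ Φ x := by
    intro x
    rw [hΦa]
    split_ifs
    · exact hm' _
    · exact hp _
  refine hLab A (Equiv.addRight a) (Equiv.addRight b) hReg (ZMod m) (fun x => Φ (x + a))
    (fun x => if e x then Φ x else Φ x + 1) (fun c x => decide (Φ x = c)) ⟨?_, ?_, ?_⟩
  · intro x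
    show decide (Φ (x + a) = Φ (x + a)) ≠ decide (Φ x = Φ (x + a))
    rw [decide_eq_true rfl, decide_eq_false (hab x).symm]
    exact Bool.noConfusion
  · intro x
    show decide (Φ (x + b) = if e x then Φ x else Φ x + 1) ≠
      decide (Φ x = if e x then Φ x else Φ x + 1)
    rw [hΦb]
    split_ifs
    · rw [decide_eq_false (hp _), decide_eq_true rfl]
      exact Bool.noConfusion
    · rw [decide_eq_true rfl, decide_eq_false (hp _).symm]
      exact Bool.noConfusion
  · intro x y z hy hz
    have hy' : y + a = x := hy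
    have hz' : z + b = x := hz
    have h2 : Φ x = Φ z + 1 := by rw [← hz', hΦb]
    have h3 : e z = e x := by rw [← hz', heb]
    have h4 := hΦa x
    show ((if e x then Φ x else Φ x + 1) = (if e z then Φ z else Φ z + 1) ∧
      Φ (x + a) = Φ (y + a) ∧ (if e x then Φ x else Φ x + 1) ≠ Φ (x + a)) ∨
      ((if e x then Φ x else Φ x + 1) = Φ (x + a) ∧
        (if e z then Φ z else Φ z + 1) = Φ (y + a) ∧
        (if e x then Φ x else Φ x + 1) ≠ (if e z then Φ z else Φ z + 1)) ∨
      ((if e x then Φ x else Φ x + 1) = Φ (y + a) ∧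
        (if e z then Φ z else Φ z + 1) = Φ (x + a) ∧
        (if e x then Φ x else Φ x + 1) ≠ (if e z then Φ z else Φ z + 1))
    rw [hy', h3, h4]
    cases he : e x with
    | true =>
      right
      right
      rw [if_pos rfl, if_pos rfl, if_pos rfl, h2]
      refine ⟨rfl, ?_, hp _⟩
      ring
    | false =>
      right
      left
      rw [if_neg Bool.false_ne_true, if_neg Bool.false_ne_true, if_neg Bool.false_ne_true, h2]
      exact ⟨rfl, rfl, hp _⟩

end Pool.Agent.CEC
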