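import Pool.Agent.CEC.St

set_option autoImplicit false

/-!
# [Qin] two involutions: a colouring changed by both
-/

namespace Pool.Agent.CEC

private theorem Qin_cyc {Γ : Type} [Group Γ] [Finite Γ] (h s s' : Γ) (hs : s * s = 1)
    (hs' : s' * s' = 1) (h1 : s ≠ 1) (h1' : s' ≠ 1) (hne : s ≠ s')
    (hm : s ∈ Subgroup.zpowers h) (hm' : s' ∈ Subgroup.zpowers h) : False := by
  classical
  have : Fintype (Subgroup.zpowers h) := Fintype.ofFinite _
  have hc := IsCyclic.card_pow_eq_one_le (α := Subgroup.zpowers h) (n := 2) (by norm_num)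
  have hsub : ({1, ⟨s, hm⟩, ⟨s', hm'⟩} : Finset (Subgroup.zpowers h)) ⊆
      Finset.univ.filter fun a => a ^ 2 = 1 := by
    intro x hx
    simp only [Finset.mem_insert, Finset.mem_singleton] at hx
    simp only [Finset.mem_filter, Finset.mem_univ, true_and]
    rcases hx with rfl | rfl | rfl
    · simp
    · exact Subtype.ext (by simpa [pow_two] using hs)
    · exact Subtype.ext (by simpa [pow_two] using hs')
  have h3 : ({1, ⟨s, hm⟩, ⟨s', hm'⟩} : Finset (Subgroup.zpowers h)).card = 3 := by
    rw [Finset.card_eq_three]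
    refine ⟨1, ⟨s, hm⟩, ⟨s', hm'⟩, ?_, ?_, ?_, rfl⟩
    · intro h
      exact h1 (congrArg Subtype.val h).symm
    · intro h
      exact h1' (congrArg Subtype.val h).symm
    · intro h
      exact hne (congrArg Subtype.val h)
  have := Finset.card_le_card hsub
  omega

theorem thm_Qin : St_Qin := by
  intro Γ _ _ s s' hs hs' h1 h1'
  set H : Subgroup Γ := Subgroup.zpowers (s * s') with hH
  have hsi : s⁻¹ = s := inv_eq_of_mul_eq_one_left hs
  have hsi' : s'⁻¹ = s' := inv_eq_of_mul_eq_one_left hs'
  have hsH : s ∉ H := by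
    intro hm
    by_cases hss : s = s'
    · rw [hH, ← hss, hs, Subgroup.zpowers_one_eq_bot, Subgroup.mem_bot] at hm
      exact h1 hm
    · have hm' : s' ∈ H := by
        have : s' = s * (s * s') := by rw [← mul_assoc, hs, one_mul]
        rw [this]
        exact H.mul_mem hm (Subgroup.mem_zpowers _)
      exact Qin_cyc (s * s') s s' hs hs' h1 h1' hss hm hm'
  obtain ⟨k, ⟨e⟩⟩ := Finite.exists_equiv_fin (Γ ⧸ H)
  let m : Γ → ℕ := fun x => (e (QuotientGroup.mk x)).val
  have hmeq : ∀ x y : Γ, m x = m y ↔ x⁻¹ * y ∈ H := by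
    intro x y
    rw [← QuotientGroup.eq]
    constructor
    · intro h
      exact e.injective (Fin.ext h)
    · intro h
      show (e (QuotientGroup.mk x)).val = (e (QuotientGroup.mk y)).val
      rw [h]
  have hx1 : ∀ x, m x ≠ m (x * s) := by
    intro x h
    rw [hmeq] at h
    rw [← mul_assoc, inv_mul_cancel, one_mul] at h
    exact hsH h
  have hx2 : ∀ x, m (x * s') = m (x * s) := by
    intro x
    rw [hmeq]
    have : (x * s')⁻¹ * (x * s) = (s * s')⁻¹ := by
      rw [mul_inv_rev, mul_inv_rev, hsi, hsi']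
      group
    rw [this]
    exact H.inv_mem (Subgroup.mem_zpowers _)
  have hx3 : ∀ x, m (x * s' * s) = m x := by
    intro x
    rw [hmeq]
    have : (x * s' * s)⁻¹ * x = s * s' := by
      rw [mul_inv_rev, mul_inv_rev, hsi, hsi']
      group
    rw [this]
    exact Subgroup.mem_zpowers _
  refine ⟨fun x => decide (m x < m (x * s)), fun y => ⟨?_, ?_⟩⟩
  · have h2 : y * s * s = y := by rw [mul_assoc, hs, mul_one]
    show decide (m (y * s) < m (y * s * s)) = !decide (m y < m (y * s))
    rw [h2, ← decide_not]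
    congr 1
    have := hx1 y
    exact propext ⟨fun h => by omega, fun h => by omega⟩
  · show decide (m (y * s') < m (y * s' * s)) = !decide (m y < m (y * s))
    rw [hx2, hx3, ← decide_not]
    congr 1
    have := hx1 y
    exact propext ⟨fun h => by omega, fun h => by omega⟩

end Pool.Agent.CEC
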