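import Pool.Agent.CEC.St

/-!
# CEC: the circulants `C_N(1, 2)`, `N` odd
-/

set_option autoImplicit false

namespace Pool.Agent.CEC

open SimpleGraph

private def Squ_fb (N v : ℕ) : Fin 3 :=
  if v = 0 ∨ v = 2 then 0 else if v = 4 ∨ v + 1 = N then 2 else 1

private def Squ_fa (N v : ℕ) : Fin 3 :=
  if v = 0 ∨ v = 1 then 0 else if v = 2 ∨ v = 3 ∨ v + 1 = N then 1 else 2

private def Squ_P (N : ℕ) (i : Fin 3) (v : ℕ) : Prop :=
  (i = 0 ∧ (v = 0 ∨ v = 3)) ∨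
  (i = 1 ∧ (v = 1 ∨ v = 4 ∨ (5 ≤ v ∧ v % 2 = 1))) ∨
  (i = 2 ∧ ((4 ≤ v ∧ v % 2 = 0 ∧ v / 2 % 2 = 0) ∨ (5 ≤ v ∧ v % 2 = 1 ∧ (v - 1) / 2 % 2 = 1) ∨
    (v = 0 ∧ (N - 1) / 2 % 2 = 1)))

private theorem Squ_P0 (N v : ℕ) : Squ_P N 0 v ↔ (v = 0 ∨ v = 3) := by
  simp [Squ_P]

private theorem Squ_P1 (N v : ℕ) : Squ_P N 1 v ↔ (v = 1 ∨ v = 4 ∨ (5 ≤ v ∧ v % 2 = 1)) := by
  simp [Squ_P]

private theorem Squ_P2 (N v : ℕ) : Squ_P N 2 v ↔
    ((4 ≤ v ∧ v % 2 = 0 ∧ v / 2 % 2 = 0) ∨ (5 ≤ v ∧ v % 2 = 1 ∧ (v - 1) / 2 % 2 = 1) ∨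
    (v = 0 ∧ (N - 1) / 2 % 2 = 1)) := by
  simp [Squ_P]

private theorem Squ_pa (N v w : ℕ) (h2 : N % 2 = 1) (h7 : 7 ≤ N) (hv : v < N)
    (hw : (v + 2 < N ∧ w = v + 2) ∨ (N ≤ v + 2 ∧ w + N = v + 2)) :
    ¬ (Squ_P N (Squ_fa N v) w ↔ Squ_P N (Squ_fa N v) v) := by
  unfold Squ_fa
  split_ifs with a b
  · rw [Squ_P0, Squ_P0]
    omega
  · rw [Squ_P1, Squ_P1]
    omega
  · rw [Squ_P2, Squ_P2]
    omega

private theorem Squ_pb (N v w : ℕ) (h2 : N % 2 = 1) (h7 : 7 ≤ N) (hv : v < N)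
    (hw : (v + 1 < N ∧ w = v + 1) ∨ (v + 1 = N ∧ w = 0)) :
    ¬ (Squ_P N (Squ_fb N v) w ↔ Squ_P N (Squ_fb N v) v) := by
  unfold Squ_fb
  split_ifs with a b
  · rw [Squ_P0, Squ_P0]
    omega
  · rw [Squ_P2, Squ_P2]
    omega
  · rw [Squ_P1, Squ_P1]
    omega

private theorem Squ_deg (N v u w : ℕ) (h7 : 7 ≤ N) (hv : v < N) (hu0 : u < N)
    (hu : (u + 2 < N ∧ v = u + 2) ∨ (N ≤ u + 2 ∧ v + N = u + 2))
    (hw : (w + 1 < N ∧ v = w + 1) ∨ (w + 1 = N ∧ v = 0)) :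
    (Squ_fb N v = Squ_fb N w ∧ Squ_fa N v = Squ_fa N u ∧ Squ_fb N v ≠ Squ_fa N v) ∨
    (Squ_fb N v = Squ_fa N v ∧ Squ_fb N w = Squ_fa N u ∧ Squ_fb N v ≠ Squ_fb N w) ∨
    (Squ_fb N v = Squ_fa N u ∧ Squ_fb N w = Squ_fa N v ∧ Squ_fb N v ≠ Squ_fb N w) := by
  unfold Squ_fb Squ_fa
  split_ifs <;> first | (exfalso; omega) | simp

private theorem Squ_val1 {N : ℕ} [NeZero N] (h7 : 7 ≤ N) (x : ZMod N) :
    (x.val + 1 < N ∧ (x + 1).val = x.val + 1) ∨ (x.val + 1 = N ∧ (x + 1).val = 0) := by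
  have hx := ZMod.val_lt x
  haveI : Fact (1 < N) := ⟨by omega⟩
  rw [ZMod.val_add, ZMod.val_one]
  rcases Nat.lt_or_ge (x.val + 1) N with h | h
  · left
    exact ⟨h, Nat.mod_eq_of_lt h⟩
  · right
    have h' : x.val + 1 = N := by omega
    rw [h', Nat.mod_self]
    exact ⟨rfl, rfl⟩

private theorem Squ_val2 {N : ℕ} [NeZero N] (h7 : 7 ≤ N) (x : ZMod N) :
    (x.val + 2 < N ∧ (x + 2).val = x.val + 2) ∨ (N ≤ x.val + 2 ∧ (x + 2).val + N = x.val + 2) := by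
  have hx := ZMod.val_lt x
  have e : (2 : ZMod N).val = 2 := by
    have := ZMod.val_natCast_of_lt (n := N) (a := 2) (by omega)
    simpa using this
  rw [ZMod.val_add, e]
  rcases Nat.lt_or_ge (x.val + 2) N with h | h
  · left
    exact ⟨h, Nat.mod_eq_of_lt h⟩
  · right
    refine ⟨h, ?_⟩
    rw [Nat.mod_eq_sub_mod h, Nat.mod_eq_of_lt (by omega)]
    omega

private theorem Squ_ne {N : ℕ} (h7 : 7 ≤ N) (x : ZMod N) (j : ℕ) (h0 : 0 < j) (h5 : j < 7) :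
    x + (j : ZMod N) ≠ x := by
  intro h
  have h1 : (j : ZMod N) = 0 := by simpa using h
  rw [ZMod.natCast_eq_zero_iff] at h1
  have := Nat.le_of_dvd h0 h1
  omega

/-- [Squ] -/
theorem thm_Squ (hL : St_Lab) : St_Squ := by
  classical
  intro N hN h7
  haveI : NeZero N := ⟨by omega⟩
  have h2 : N % 2 = 1 := Nat.odd_iff.1 hN
  have key : ∀ (x : ZMod N) (j : ℕ), 0 < j → j < 7 → x + (j : ZMod N) ≠ x :=
    fun x j => Squ_ne h7 x j
  refine hL (ZMod N) _ _ ?_ (Fin 3) (fun x => Squ_fa N x.val) (fun x => Squ_fb N x.val)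
    (fun i x => decide (Squ_P N i x.val)) ?_
  · refine ⟨fun x h => ?_, fun x h => ?_, fun x h => ?_, fun x h => ?_, fun x h => ?_,
      fun x h => ?_, fun x h => ?_⟩ <;> simp only [Equiv.coe_addRight] at h
    · exact key x 2 (by norm_num) (by norm_num) (by simpa using h)
    · exact key x 1 (by norm_num) (by norm_num) (by simpa using h)
    · refine key x 4 (by norm_num) (by norm_num) ?_
      push_cast
      linear_combination h
    · refine key x 2 (by norm_num) (by norm_num) ?_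
      push_cast
      linear_combination h
    · refine key x 1 (by norm_num) (by norm_num) ?_
      push_cast
      linear_combination h
    · refine key x 3 (by norm_num) (by norm_num) ?_
      push_cast
      linear_combination h
    · refine key x 3 (by norm_num) (by norm_num) ?_
      push_cast
      linear_combination h
  · refine ⟨fun x => ?_, fun x => ?_, fun x y z hy hz => ?_⟩
    · simp only [Equiv.coe_addRight, ne_eq, decide_eq_decide]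
      exact Squ_pa N _ _ h2 h7 (ZMod.val_lt x) (Squ_val2 h7 x)
    · simp only [Equiv.coe_addRight, ne_eq, decide_eq_decide]
      exact Squ_pb N _ _ h2 h7 (ZMod.val_lt x) (Squ_val1 h7 x)
    · simp only [Equiv.coe_addRight] at hy hz
      have a1 := Squ_val2 h7 y
      have a2 := Squ_val1 h7 z
      rw [hy] at a1
      rw [hz] at a2
      exact Squ_deg N _ _ _ h7 (ZMod.val_lt x) (ZMod.val_lt y) a1 a2

end Pool.Agent.CEC
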