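import Pool.Agent.CEC.St

/-!
# CEC, module Str: staircases
-/

set_option autoImplicit false

namespace Pool.Agent.CEC

open SimpleGraph

private theorem Str_ne_a {Γ : Type} [Group Γ] (a b : Γ) (h : a ∉ Subgroup.zpowers (a * b)) (x : Γ) :
    ((x * a : Γ) : Γ ⧸ Subgroup.zpowers (a * b)) ≠ ((x : Γ) : Γ ⧸ Subgroup.zpowers (a * b)) := by
  intro e
  have e2 := QuotientGroup.eq.mp e.symm
  rw [inv_mul_cancel_left] at e2
  exact h e2

private theorem Str_ne_inv {Γ : Type} [Group Γ] (a b : Γ) (h : a ∉ Subgroup.zpowers (a * b))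
    (x : Γ) :
    ((x * a⁻¹ : Γ) : Γ ⧸ Subgroup.zpowers (a * b)) ≠ ((x : Γ) : Γ ⧸ Subgroup.zpowers (a * b)) := by
  have h1 := Str_ne_a a b h (x * a⁻¹)
  rw [inv_mul_cancel_right] at h1
  exact h1.symm

private theorem Str_eq_b {Γ : Type} [Group Γ] (a b x : Γ) :
    ((x * a⁻¹ : Γ) : Γ ⧸ Subgroup.zpowers (a * b)) =
      ((x * b : Γ) : Γ ⧸ Subgroup.zpowers (a * b)) := by
  rw [QuotientGroup.eq]
  have : (x * a⁻¹)⁻¹ * (x * b) = a * b := by group
  rw [this]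
  exact Subgroup.mem_zpowers _

/-- [Str]: staircases, from [Lab]. -/
theorem thm_Str (hLab : St_Lab) : St_Str := by
  classical
  intro Γ _ _ a b hreg ha
  refine hLab Γ (Equiv.mulRight a) (Equiv.mulRight b) hreg (Γ ⧸ Subgroup.zpowers (a * b))
    (fun x => ((x : Γ) : Γ ⧸ Subgroup.zpowers (a * b)))
    (fun x => ((x * a⁻¹ : Γ) : Γ ⧸ Subgroup.zpowers (a * b)))
    (fun c x => decide (((x : Γ) : Γ ⧸ Subgroup.zpowers (a * b)) = c)) ?_
  refine ⟨?_, ?_, ?_⟩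
  · intro x
    show decide (((x * a : Γ) : Γ ⧸ Subgroup.zpowers (a * b)) =
        ((x : Γ) : Γ ⧸ Subgroup.zpowers (a * b))) ≠
      decide (((x : Γ) : Γ ⧸ Subgroup.zpowers (a * b)) =
        ((x : Γ) : Γ ⧸ Subgroup.zpowers (a * b)))
    rw [decide_eq_false (Str_ne_a a b ha x), decide_eq_true rfl]
    exact Bool.false_ne_true
  · intro x
    show decide (((x * b : Γ) : Γ ⧸ Subgroup.zpowers (a * b)) =
        ((x * a⁻¹ : Γ) : Γ ⧸ Subgroup.zpowers (a * b))) ≠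
      decide (((x : Γ) : Γ ⧸ Subgroup.zpowers (a * b)) =
        ((x * a⁻¹ : Γ) : Γ ⧸ Subgroup.zpowers (a * b)))
    rw [decide_eq_true (Str_eq_b a b x).symm, decide_eq_false (Str_ne_inv a b ha x).symm]
    exact Bool.false_ne_true.symm
  · intro x y z hy hz
    right; right
    have hy' : y * a = x := hy
    have hz' : z * b = x := hz
    have e1 : x * a⁻¹ = y := by rw [← hy', mul_inv_cancel_right]
    have e2 : ((z * a⁻¹ : Γ) : Γ ⧸ Subgroup.zpowers (a * b)) =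
        ((x : Γ) : Γ ⧸ Subgroup.zpowers (a * b)) := by rw [Str_eq_b a b z, hz']
    refine ⟨?_, e2, ?_⟩
    · show ((x * a⁻¹ : Γ) : Γ ⧸ Subgroup.zpowers (a * b)) =
        ((y : Γ) : Γ ⧸ Subgroup.zpowers (a * b))
      rw [e1]
    · show ((x * a⁻¹ : Γ) : Γ ⧸ Subgroup.zpowers (a * b)) ≠
        ((z * a⁻¹ : Γ) : Γ ⧸ Subgroup.zpowers (a * b))
      rw [e2]
      exact Str_ne_inv a b ha x

end Pool.Agent.CEC
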