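import Pool.Agent.CEC.St

/-!
# Two commuting permutations with a parity
-/

set_option autoImplicit false

namespace Pool.Agent.CEC

open SimpleGraph

private theorem Two_val_cast {N : ℕ} [NeZero N] (i : ZMod N) : (((i.val : ℤ)) : ZMod N) = i := by
  rw [Int.cast_natCast, ZMod.natCast_val, ZMod.cast_id]

theorem thm_Two (hZig : St_Zig) (hZet : St_Zet) (hIso : St_Iso) : St_Two := by
  intro V _ α β hR hc htr π hπa hπb
  by_cases h : ∀ (x : V) (k : ℤ), ((α ^ (2 : ℕ)) ^ k) x ≠ β x
  · exact hZig V α β hR hc π hπa hπb h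
  push Not at h
  obtain ⟨x0, k, hk⟩ := h
  have hcomm : Commute α β := by
    apply Equiv.ext
    intro x
    exact hc x
  set m : ℤ := 2 * k with hm
  have hm0 : (α ^ m) x0 = β x0 := by
    rw [hm, zpow_mul]
    exact_mod_cast hk
  have hβ : β = α ^ m := by
    apply Equiv.ext
    intro y
    obtain ⟨i, j, rfl⟩ := htr x0 y
    have h1 : Commute β (α ^ i * β ^ j) :=
      (hcomm.symm.zpow_right i).mul_right (Commute.refl β |>.zpow_right j)
    have h2 : Commute (α ^ m) (α ^ i * β ^ j) :=
      ((Commute.refl α).zpow_zpow m i).mul_right (hcomm.zpow_zpow m j)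
    have e1 : β ((α ^ i * β ^ j) x0) = (α ^ i * β ^ j) (β x0) := by
      rw [← Equiv.Perm.mul_apply, h1.eq, Equiv.Perm.mul_apply]
    have e2 : (α ^ m) ((α ^ i * β ^ j) x0) = (α ^ i * β ^ j) ((α ^ m) x0) := by
      rw [← Equiv.Perm.mul_apply, h2.eq, Equiv.Perm.mul_apply]
    show β ((α ^ i * β ^ j) x0) = (α ^ m) ((α ^ i * β ^ j) x0)
    rw [e1, e2, hm0]
  have hsurj : ∀ y, ∃ n : ℤ, (α ^ n) x0 = y := by
    intro y
    obtain ⟨i, j, rfl⟩ := htr x0 y
    refine ⟨i + m * j, ?_⟩
    rw [zpow_add, zpow_mul, ← hβ, Equiv.Perm.mul_apply]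
  set N : ℕ := Function.minimalPeriod (fun x => α • x) x0 with hN
  have hN0 : NeZero N := by
    have : Finite (MulAction.orbit (Subgroup.zpowers α) x0) := inferInstance
    exact MulAction.minimalPeriod_pos α x0
  have hper : ∀ n : ℤ, (α ^ n) x0 = x0 ↔ (N : ℤ) ∣ n := by
    intro n
    exact MulAction.zpow_smul_eq_iff_minimalPeriod_dvd (a := α) (b := x0)
  have hmod : ∀ a b : ℤ, ((a : ZMod N) = (b : ZMod N)) ↔ (α ^ a) x0 = (α ^ b) x0 := by
    intro a b
    rw [ZMod.intCast_eq_intCast_iff_dvd_sub, ← hper]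
    constructor
    · intro h1
      have h2 : (α ^ a) ((α ^ (b - a)) x0) = (α ^ a) x0 := by rw [h1]
      rw [← Equiv.Perm.mul_apply, ← zpow_add] at h2
      have : a + (b - a) = b := by ring
      rw [this] at h2
      exact h2.symm
    · intro h1
      have : b - a = -a + b := by ring
      rw [this, zpow_add, Equiv.Perm.mul_apply, ← h1, ← Equiv.Perm.mul_apply, ← zpow_add,
        neg_add_cancel, zpow_zero]
      rfl
  have hinj : Function.Injective (fun i : ZMod N => (α ^ (i.val : ℤ)) x0) := by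
    intro i j hij
    have := (hmod i.val j.val).2 hij
    rwa [Two_val_cast, Two_val_cast] at this
  have hsur : Function.Surjective (fun i : ZMod N => (α ^ (i.val : ℤ)) x0) := by
    intro y
    obtain ⟨n, rfl⟩ := hsurj y
    refine ⟨(n : ZMod N), ?_⟩
    apply (hmod _ _).1
    rw [Two_val_cast]
  let e : ZMod N ≃ V := Equiv.ofBijective _ ⟨hinj, hsur⟩
  have he : ∀ i : ZMod N, e i = (α ^ (i.val : ℤ)) x0 := fun i => rfl
  set t : ℕ := ((m : ℤ) : ZMod N).val with ht
  have htm : ((t : ℤ) : ZMod N) = ((m : ℤ) : ZMod N) := Two_val_cast _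
  have htm' : (t : ZMod N) = ((m : ℤ) : ZMod N) := by
    rw [← htm, Int.cast_natCast]
  have htβ : (α ^ (t : ℤ)) x0 = β x0 := by
    rw [(hmod _ _).1 htm, hm0]
  have hπ : ∀ (n : ℕ) (x : V), π ((α ^ n) x) = if Even n then π x else !π x := by
    intro n
    induction n with
    | zero => intro x; simp
    | succ n ih =>
      intro x
      rw [pow_succ', Equiv.Perm.mul_apply, hπa, ih]
      by_cases hn : Even n
      · have : ¬ Even (n + 1) := by
          rw [Nat.even_add_one]
          exact fun h => h hn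
        rw [if_pos hn, if_neg this]
      · have : Even (n + 1) := by
          rw [Nat.even_add_one]
          exact hn
        rw [if_neg hn, if_pos this, Bool.not_not]
  have hNe : Even N := by
    by_contra hn
    have h1 := hπ N x0
    have h2 : (α ^ N) x0 = x0 := by
      have := (hper (N : ℤ)).2 (dvd_refl _)
      rwa [zpow_natCast] at this
    rw [h2, if_neg hn] at h1
    cases hx : π x0 <;> rw [hx] at h1 <;> simp at h1
  have hte : Even t := by
    by_contra hn
    have h1 := hπ t x0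
    rw [zpow_natCast] at htβ
    rw [htβ, if_neg hn, hπb] at h1
    cases hx : π x0 <;> rw [hx] at h1 <;> simp at h1
  have ht0 : 0 < t := by
    rcases Nat.eq_zero_or_pos t with h0 | h0
    · exfalso
      rw [h0] at htβ
      exact hR.b1 x0 htβ.symm
    · exact h0
  have htN : t < N := ZMod.val_lt _
  have ht2 : 2 * t ≠ N := by
    intro h2
    have h3 : (α ^ ((t : ℤ) + t)) x0 = x0 := by
      rw [hper]
      have : ((t : ℤ) + t) = (N : ℤ) := by
        rw [← h2]
        push_cast
        ring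
      rw [this]
    have h4 : (α ^ ((t : ℤ) + t)) x0 = β (β x0) := by
      rw [zpow_add, Equiv.Perm.mul_apply, htβ]
      have : (α ^ (t : ℤ)) (β x0) = β ((α ^ (t : ℤ)) x0) := by
        rw [← Equiv.Perm.mul_apply, (hcomm.zpow_left (t : ℤ)).eq, Equiv.Perm.mul_apply]
      rw [this, htβ]
    exact hR.b2 x0 (h4 ▸ h3)
  refine hIso.2.2 (ZMod N) V (Equiv.addRight (1 : ZMod N)) (Equiv.addRight (t : ZMod N)) α β e
    ?_ ?_ (hZet N t hNe hte ht0 htN ht2)
  · intro i
    rw [Equiv.coe_addRight, he, he]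
    have h1 : α ((α ^ (i.val : ℤ)) x0) = (α ^ (1 + (i.val : ℤ))) x0 := by
      rw [zpow_add, zpow_one, Equiv.Perm.mul_apply]
    rw [h1]
    apply (hmod _ _).1
    rw [Two_val_cast, Int.cast_add, Two_val_cast, Int.cast_one]
    ring
  · intro i
    rw [Equiv.coe_addRight, he, he]
    have h1 : β ((α ^ (i.val : ℤ)) x0) = (α ^ (m + (i.val : ℤ))) x0 := by
      rw [zpow_add, Equiv.Perm.mul_apply, ← hβ]
    rw [h1]
    apply (hmod _ _).1
    rw [Two_val_cast, Int.cast_add, Two_val_cast, htm']
    ring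

end Pool.Agent.CEC
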