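import Pool.Agent.CEC.St

/-!
# CEC, module Zig: zigzags
-/

set_option autoImplicit false

namespace Pool.Agent.CEC

open SimpleGraph

/-- [Zig]: zigzags, from [Lab]. -/
theorem thm_Zig (hLab : St_Lab) : St_Zig := by
  classical
  intro V _ α β hreg hcomm π hπa hπb hne
  -- orbits of `α ^ 2`
  let r : Setoid V := ⟨fun x y => ∃ k : ℤ, ((α ^ (2 : ℕ)) ^ k) x = y, ⟨fun x => ⟨0, rfl⟩,
    fun {x y} h => by
      obtain ⟨k, hk⟩ := h
      refine ⟨-k, ?_⟩
      rw [← hk, ← Equiv.Perm.mul_apply, ← zpow_add, neg_add_cancel, zpow_zero, Equiv.Perm.one_apply],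
    fun {x y z} h1 h2 => by
      obtain ⟨k, hk⟩ := h1
      obtain ⟨l, hl⟩ := h2
      refine ⟨l + k, ?_⟩
      rw [zpow_add, Equiv.Perm.mul_apply, hk, hl]⟩⟩
  let cl : V → Quotient r := fun x => Quotient.mk r x
  have hcl : ∀ x y, cl x = cl y ↔ ∃ k : ℤ, ((α ^ (2 : ℕ)) ^ k) x = y := fun x y =>
    ⟨fun h => Quotient.exact h, fun h => Quotient.sound h⟩
  have haa : ∀ x, cl (α (α x)) = cl x := fun x => ((hcl x (α (α x))).mpr ⟨1, by
    rw [zpow_one, pow_two, Equiv.Perm.mul_apply]⟩).symm
  have hb : ∀ x, cl (β x) ≠ cl x := fun x h => by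
    obtain ⟨k, hk⟩ := (hcl x (β x)).mp h.symm
    exact hne x k hk
  have hcommi : ∀ x, α (β.symm x) = β.symm (α x) := fun x => by
    apply β.injective
    rw [← hcomm, Equiv.apply_symm_apply, Equiv.apply_symm_apply]
  have hbi : ∀ x, cl (β.symm x) ≠ cl x := fun x h => by
    have := hb (β.symm x)
    rw [Equiv.apply_symm_apply] at this
    exact this h.symm
  -- invariance of the classes under `β⁻¹` and `α`
  have hpow : ∀ (γ : Equiv.Perm V), (∀ x, α (γ x) = γ (α x)) → ∀ x y, cl x = cl y →
      cl (γ x) = cl (γ y) := by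
    intro γ hγ x y h
    obtain ⟨k, hk⟩ := (hcl x y).mp h
    refine (hcl _ _).mpr ⟨k, ?_⟩
    have hc : Commute α γ := Equiv.ext fun z => by
      rw [Equiv.Perm.mul_apply, Equiv.Perm.mul_apply]; exact hγ z
    have hc2 : Commute ((α ^ (2 : ℕ)) ^ k) γ := (hc.pow_left 2).zpow_left k
    have := congrArg (fun f : Equiv.Perm V => f x) hc2.eq
    simp only [Equiv.Perm.mul_apply] at this
    rw [this, hk]
  let e : V → Quotient r := fun x => if π x = false then cl x else cl (α (β.symm x))
  let l : V → Quotient r := fun x => if π x = false then cl (β.symm x) else cl (α x)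
  have hef : ∀ x, π x = false → e x = cl x := fun x h => if_pos h
  have het : ∀ x, π x = true → e x = cl (α (β.symm x)) := fun x h => if_neg (by rw [h]; simp)
  have hlf : ∀ x, π x = false → l x = cl (β.symm x) := fun x h => if_pos h
  have hlt : ∀ x, π x = true → l x = cl (α x) := fun x h => if_neg (by rw [h]; simp)
  have hel : ∀ x, e x ≠ l x := by
    intro x
    rcases hx : π x with _ | _
    · rw [hef x hx, hlf x hx]; exact (hbi x).symm
    · rw [het x hx, hlt x hx, hcommi]; exact hbi (α x)
  have hla : ∀ x, l x = e (α x) := by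
    intro x
    rcases hx : π x with _ | _
    · have h1 : π (α x) = true := by rw [hπa, hx]; rfl
      rw [hlf x hx, het _ h1, ← hcommi, haa]
    · have h1 : π (α x) = false := by rw [hπa, hx]; rfl
      rw [hlt x hx, hef _ h1]
  let fb : V → Quotient r := fun x => if π x = false then cl x else cl (α x)
  have hbf : ∀ x, π x = false → fb x = e x ∧ fb x = l (β x) := by
    intro x hx
    have h1 : π (β x) = false := by rw [hπb, hx]
    have h2 : fb x = cl x := if_pos hx
    rw [h2, hef x hx, hlf _ h1, Equiv.symm_apply_apply]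
    exact ⟨rfl, rfl⟩
  have hbt : ∀ x, π x = true → fb x = l x ∧ fb x = e (β x) := by
    intro x hx
    have h1 : π (β x) = true := by rw [hπb, hx]
    have h2 : fb x = cl (α x) := if_neg (by rw [hx]; simp)
    rw [h2, hlt x hx, het _ h1, Equiv.symm_apply_apply]
    exact ⟨rfl, rfl⟩
  refine hLab V α β hreg (Quotient r) l fb (fun c x => decide (e x = c)) ⟨?_, ?_, ?_⟩
  · intro x
    show decide (e (α x) = l x) ≠ decide (e x = l x)
    rw [decide_eq_true (hla x).symm, decide_eq_false (hel x)]
    exact Bool.false_ne_true.symm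
  · intro x
    show decide (e (β x) = fb x) ≠ decide (e x = fb x)
    rcases hx : π x with _ | _
    · obtain ⟨h1, h2⟩ := hbf x hx
      rw [decide_eq_true h1.symm, h2, decide_eq_false (hel (β x))]
      exact Bool.false_ne_true
    · obtain ⟨h1, h2⟩ := hbt x hx
      rw [decide_eq_true h2.symm, h1, decide_eq_false (hel x)]
      exact Bool.false_ne_true.symm
  · intro x y z hy hz
    have e1 : l y = e x := by rw [hla y, hy]
    rcases hx : π x with _ | _
    · right; right
      have hz1 : π z = false := by rw [← hπb z, hz, hx]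
      obtain ⟨h1, -⟩ := hbf x hx
      obtain ⟨-, h2⟩ := hbf z hz1
      rw [hz] at h2
      refine ⟨by rw [h1, e1], h2, ?_⟩
      rw [h1, h2]; exact hel x
    · right; left
      have hz1 : π z = true := by rw [← hπb z, hz, hx]
      obtain ⟨h1, -⟩ := hbt x hx
      obtain ⟨-, h2⟩ := hbt z hz1
      rw [hz] at h2
      refine ⟨h1, by rw [h2, e1], ?_⟩
      rw [h1, h2]; exact (hel x).symm

end Pool.Agent.CEC
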