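import Pool.Agent.CEC.St

/-!
# CEC [Zip]: neither generator generates the cyclic group of odd order (helper32)
-/

set_option autoImplicit false

namespace Pool.Agent.CEC

private theorem Zip_dvd {N a b : ℕ} (hab : Nat.gcd (Nat.gcd a b) N = 1) {d : ℕ} (h1 : 1 < d)
    (ha : d ∣ a) (hb : d ∣ b) (hN : d ∣ N) : False := by
  have h2 : d ∣ Nat.gcd (Nat.gcd a b) N := Nat.dvd_gcd (Nat.dvd_gcd ha hb) hN
  rw [hab] at h2
  have h3 := Nat.le_of_dvd one_pos h2
  omega

private theorem Zip_reg (N a b : ℕ) (hN : Odd N) (ha : 1 < Nat.gcd a N) (hb : 1 < Nat.gcd b N)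
    (hab : Nat.gcd (Nat.gcd a b) N = 1) :
    Reg4 (Equiv.addRight (a : ZMod N)) (Equiv.addRight (b : ZMod N)) := by
  have hda : Nat.gcd a N ∣ a := Nat.gcd_dvd_left a N
  have hdN : Nat.gcd a N ∣ N := Nat.gcd_dvd_right a N
  have hdb : Nat.gcd b N ∣ b := Nat.gcd_dvd_left b N
  have hdN' : Nat.gcd b N ∣ N := Nat.gcd_dvd_right b N
  have h2N : Nat.Coprime N 2 := by
    rw [Nat.coprime_comm]
    exact Nat.coprime_two_left.2 hN
  have a0 : ¬ N ∣ a := fun h => Zip_dvd hab hb (hdN'.trans h) hdb hdN'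
  have b0 : ¬ N ∣ b := fun h => Zip_dvd hab ha hda (hdN.trans h) hdN
  have a00 : ¬ N ∣ a + a := fun h => a0 (h2N.dvd_of_dvd_mul_left (by rwa [← two_mul] at h))
  have b00 : ¬ N ∣ b + b := fun h => b0 (h2N.dvd_of_dvd_mul_left (by rwa [← two_mul] at h))
  have ab0 : ¬ N ∣ a + b := fun h => by
    have h1 : Nat.gcd a N ∣ b := (Nat.dvd_add_right hda).1 (hdN.trans h)
    exact Zip_dvd hab ha hda h1 hdN
  have abne : (a : ZMod N) ≠ (b : ZMod N) := fun h => by
    have h1 : ((N : ℤ)) ∣ (b : ℤ) - a := by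
      have h2 : ((a : ℤ) : ZMod N) = ((b : ℤ) : ZMod N) := by
        rw [Int.cast_natCast, Int.cast_natCast]
        exact h
      exact (ZMod.intCast_eq_intCast_iff_dvd_sub _ _ _).1 h2
    have h2 : ((Nat.gcd a N : ℕ) : ℤ) ∣ (b : ℤ) := by
      have h3 : ((Nat.gcd a N : ℕ) : ℤ) ∣ (b : ℤ) - a :=
        (Int.natCast_dvd_natCast.2 hdN).trans h1
      have h4 : ((Nat.gcd a N : ℕ) : ℤ) ∣ (a : ℤ) := Int.natCast_dvd_natCast.2 hda
      have h5 := dvd_add h3 h4
      rwa [sub_add_cancel] at h5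
    exact Zip_dvd hab ha hda (Int.natCast_dvd_natCast.1 h2) hdN
  have key : ∀ c : ℕ, ¬ N ∣ c → ∀ x : ZMod N, x + (c : ZMod N) ≠ x := by
    intro c hc x h
    exact hc ((ZMod.natCast_eq_zero_iff c N).1 (add_eq_left.1 h))
  refine ⟨?_, ?_, ?_, ?_, ?_, ?_, ?_⟩
  · intro x
    exact key a a0 x
  · intro x
    exact key b b0 x
  · intro x h
    refine key (a + a) a00 x ?_
    rw [Nat.cast_add, ← add_assoc]
    exact h
  · intro x h
    refine key (b + b) b00 x ?_
    rw [Nat.cast_add, ← add_assoc]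
    exact h
  · intro x h
    exact abne (add_left_cancel h)
  · intro x h
    refine key (a + b) ab0 x ?_
    rw [Nat.cast_add, add_comm (a : ZMod N), ← add_assoc]
    exact h
  · intro x h
    refine key (a + b) ab0 x ?_
    rw [Nat.cast_add, ← add_assoc]
    exact h

private def Zip_S (h : ℕ) (y : ℕ) : ℤ := if y < h then (y : ℤ) else 2 * h - y

private theorem Zip_S_step (h y : ℕ) :
    Zip_S h (y + 1) = if y < h then Zip_S h y + 1 else Zip_S h y - 1 := by
  unfold Zip_S
  split_ifs with h1 h2 h3 <;> push_cast <;> omega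

private theorem Zip_main (hPhi : St_Phi) (N a b p : ℕ) (hN : Odd N) (ha : 1 < Nat.gcd a N)
    (hb : 1 < Nat.gcd b N) (hab : Nat.gcd (Nat.gcd a b) N = 1) (hp : p.Prime) (hpa : p ∣ a)
    (hpN : p ∣ N) (hpg : p ≤ Nat.gcd b N) :
    HasECD (PG (Equiv.addRight (a : ZMod N)) (Equiv.addRight (b : ZMod N))) := by
  set g : ℕ := Nat.gcd b N with hg
  have hgN : g ∣ N := Nat.gcd_dvd_right b N
  have hgb : g ∣ b := Nat.gcd_dvd_left b N
  have hN0 : 0 < N := hN.pos
  have _ : NeZero N := ⟨hN0.ne'⟩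
  have _ : NeZero g := ⟨by omega⟩
  have _ : Fact (1 < g) := ⟨hb⟩
  have hgodd : Odd g := Odd.of_dvd_nat hN hgN
  have hpodd : Odd p := Odd.of_dvd_nat hN hpN
  obtain ⟨h, hh⟩ : ∃ h, g + p = 2 * h := by
    obtain ⟨h, hh⟩ := hgodd.add_odd hpodd
    exact ⟨h, by omega⟩
  have hpos : 0 < h := by
    have := hp.pos
    omega
  have hcop : Nat.Coprime a g := by
    rw [Nat.coprime_iff_gcd_eq_one, hg, ← Nat.gcd_assoc]
    exact hab
  have hcopb : Nat.Coprime b p := by
    rw [Nat.coprime_comm]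
    exact (Nat.Prime.coprime_iff_not_dvd hp).2 fun hpb => Zip_dvd hab hp.one_lt hpa hpb hpN
  let cg : ZMod N →+* ZMod g := ZMod.castHom hgN (ZMod g)
  let cp : ZMod N →+* ZMod p := ZMod.castHom hpN (ZMod p)
  have hcga : cg (a : ZMod N) = (a : ZMod g) := map_natCast cg a
  have hcgb : cg (b : ZMod N) = 0 := by
    rw [map_natCast cg b]
    exact (ZMod.natCast_eq_zero_iff b g).2 hgb
  have hcpa : cp (a : ZMod N) = 0 := by
    rw [map_natCast cp a]
    exact (ZMod.natCast_eq_zero_iff a p).2 hpa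
  have hcpb : cp (b : ZMod N) = (b : ZMod p) := map_natCast cp b
  have hia : (a : ZMod g) * (a : ZMod g)⁻¹ = 1 := ZMod.coe_mul_inv_eq_one a hcop
  have hib : (b : ZMod p) * (b : ZMod p)⁻¹ = 1 := ZMod.coe_mul_inv_eq_one b hcopb
  let row : ZMod N → ZMod g := fun x => cg x * (a : ZMod g)⁻¹
  have row_b : ∀ x, row (x + (b : ZMod N)) = row x := by
    intro x
    change cg (x + (b : ZMod N)) * _ = cg x * _
    rw [map_add, hcgb, add_zero]
  have row_a : ∀ x, row (x + (a : ZMod N)) = row x + 1 := by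
    intro x
    change cg (x + (a : ZMod N)) * _ = cg x * _ + 1
    rw [map_add, hcga, add_mul, hia]
  -- the function on the rows
  have hS : ∀ r : ZMod g, ((Zip_S h (r + 1).val : ℤ) : ZMod p) =
      if r.val < h then ((Zip_S h r.val : ℤ) : ZMod p) + 1
      else ((Zip_S h r.val : ℤ) : ZMod p) - 1 := by
    intro r
    have h1 : ((Zip_S h (r.val + 1) : ℤ) : ZMod p) =
        if r.val < h then ((Zip_S h r.val : ℤ) : ZMod p) + 1
        else ((Zip_S h r.val : ℤ) : ZMod p) - 1 := by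
      rw [Zip_S_step]
      split_ifs
      · push_cast
        rfl
      · push_cast
        rfl
    rw [← h1]
    have h2 : (r + 1).val = (r.val + 1) % g := by
      rw [ZMod.val_add, ZMod.val_one]
    rw [h2]
    have h3 : r.val < g := ZMod.val_lt r
    by_cases h4 : r.val + 1 < g
    · rw [Nat.mod_eq_of_lt h4]
    · have h5 : r.val + 1 = g := by omega
      rw [h5, Nat.mod_self]
      have e1 : Zip_S h 0 = 0 := by
        unfold Zip_S
        rw [if_pos hpos]
        rfl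
      have e2 : Zip_S h g = p := by
        unfold Zip_S
        rw [if_neg (by omega)]
        omega
      rw [e1, e2, Int.cast_zero, Int.cast_natCast, ZMod.natCast_self]
  refine hPhi (ZMod N) (a : ZMod N) (b : ZMod N) p
    (fun x => cp x * (b : ZMod p)⁻¹ - ((Zip_S h (row x).val : ℤ) : ZMod p))
    (fun x => decide ((row x).val < h)) hp.one_lt.ne' (Zip_reg N a b hN ha hb hab) ?_ ?_ ?_
  · intro x
    change decide ((row (x + (b : ZMod N))).val < h) = decide ((row x).val < h)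
    rw [row_b]
  · intro x
    change cp (x + (b : ZMod N)) * (b : ZMod p)⁻¹ -
      ((Zip_S h (row (x + (b : ZMod N))).val : ℤ) : ZMod p) = _
    rw [row_b, map_add, hcpb, add_mul, hib]
    ring
  · intro x
    change cp (x + (a : ZMod N)) * (b : ZMod p)⁻¹ -
      ((Zip_S h (row (x + (a : ZMod N))).val : ℤ) : ZMod p) = _
    rw [row_a, map_add, hcpa, add_zero, hS]
    by_cases hy : (row x).val < h
    · simp only [hy, decide_true, if_true]
      ring
    · simp only [hy, decide_false, if_false, Bool.false_eq_true]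
      ring

/-- [Zip] -/
theorem thm_Zip (hPhi : St_Phi) (hIso : St_Iso) : St_Zip := by
  intro N a b hN ha hb hab
  obtain ⟨p, hp, hpd⟩ := Nat.exists_prime_and_dvd (n := Nat.gcd a N) (by omega)
  obtain ⟨p', hp', hpd'⟩ := Nat.exists_prime_and_dvd (n := Nat.gcd b N) (by omega)
  have hN0 : 0 < N := hN.pos
  have hl : p ≤ Nat.gcd a N := Nat.le_of_dvd (by omega) hpd
  have hl' : p' ≤ Nat.gcd b N := Nat.le_of_dvd (by omega) hpd'
  by_cases h : p ≤ Nat.gcd b N
  · exact Zip_main hPhi N a b p hN ha hb hab hp (hpd.trans (Nat.gcd_dvd_left _ _))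
      (hpd.trans (Nat.gcd_dvd_right _ _)) h
  · have h1 : p' ≤ Nat.gcd a N := by omega
    have h2 := Zip_main hPhi N b a p' hN hb ha (by rwa [Nat.gcd_comm b a]) hp'
      (hpd'.trans (Nat.gcd_dvd_left _ _)) (hpd'.trans (Nat.gcd_dvd_right _ _)) h1
    rwa [(hIso.2.1 (ZMod N) (Equiv.addRight (a : ZMod N)) (Equiv.addRight (b : ZMod N))).2] at h2

end Pool.Agent.CEC
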