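import Pool.Agent.CEC.Cel
import Pool.Agent.CEC.Cls
import Pool.Agent.CEC.Del
import Pool.Agent.CEC.Dih
import Pool.Agent.CEC.Eps
import Pool.Agent.CEC.Evn
import Pool.Agent.CEC.Fin
import Pool.Agent.CEC.Gen
import Pool.Agent.CEC.Inv
import Pool.Agent.CEC.Iso
import Pool.Agent.CEC.K5
import Pool.Agent.CEC.Lab
import Pool.Agent.CEC.Mix
import Pool.Agent.CEC.Odd
import Pool.Agent.CEC.Phi
import Pool.Agent.CEC.Qin
import Pool.Agent.CEC.Squ
import Pool.Agent.CEC.Str
import Pool.Agent.CEC.Two
import Pool.Agent.CEC.Zet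
import Pool.Agent.CEC.Zig
import Pool.Agent.CEC.Zip

/-!
# CEC: the theorem
-/

set_option autoImplicit false

namespace Pool.Agent.CEC

theorem st_fin : St_Fin := by
  have hCls := thm_Cls
  have hIso := thm_Iso
  have hLab := thm_Lab hCls
  have hQin := thm_Qin
  have hInv := thm_Inv hCls hQin
  have hMix := thm_Mix hCls hQin
  have hZig := thm_Zig hLab
  have hZet := thm_Zet hLab
  have hTwo := thm_Two hZig hZet hIso
  have hDih := thm_Dih hTwo
  have hStr := thm_Str hLab
  have hPhi := thm_Phi hLab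
  have hZip := thm_Zip hPhi hIso
  have hCel := thm_Cel hLab
  have hDel := thm_Del hCel hIso
  have hEps := thm_Eps hCel hIso
  have hSqu := thm_Squ hLab
  have hOdd := thm_Odd hZip hDel hEps hSqu hIso
  have hEvn := thm_Evn hLab hTwo hIso
  have hGen := thm_Gen hIso hStr hOdd hEvn
  exact thm_Fin hInv hMix hDih hGen

end Pool.Agent.CEC
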