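import Pool.Agent.CEC.St

/-!
# CEC, Zet: the circulants `C_N(1, t)` with `N` and `t` even
-/

set_option autoImplicit false

namespace Pool.Agent.CEC

private theorem Zet_two (a : ZMod 2) : a = 0 ∨ a = 1 := by
  revert a; decide

private theorem Zet_p1 {A B C : Prop} (h : ¬ (A ↔ B)) : ¬ ((C ↔ B) ↔ (C ↔ A)) := by
  by_cases hA : A <;> by_cases hB : B <;> by_cases hC : C <;> simp_all

private theorem Zet_p2 {A B C C' : Prop} (h : A ↔ B) (h' : C' ↔ ¬ C) :
    ¬ ((C' ↔ B) ↔ (C ↔ A)) := by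
  rw [h', h]
  by_cases hB : B <;> by_cases hC : C <;> simp [hB, hC]

private theorem Zet_parity {N : ℕ} [NeZero N] (h2 : 2 ∣ N) (x : ZMod N) :
    (ZMod.castHom h2 (ZMod 2)) x = (x.val : ZMod 2) := by
  conv_lhs => rw [← ZMod.natCast_zmod_val x]
  rw [map_natCast]

/-- the coordinate along `t` -/
private theorem Zet_coord (N t : ℕ) [NeZero N] (hN : Even N) (ht : Even t) (h0 : 0 < t)
    (h1 : t < N) (h2 : 2 * t ≠ N) (hd : 2 ∣ N) : ∃ (n g : ℕ) (K : ZMod N → ZMod n), 3 ≤ n ∧
      Even g ∧ 2 ≤ g ∧ g ≤ t ∧ g + t ≤ N ∧ (∀ x, K (x + (t : ZMod N)) = K x + 1) ∧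
      (∀ x, (ZMod.castHom hd (ZMod 2)) x = 0 → K (x + 1) = K x) ∧
      ∀ x : ZMod N, K x = 0 ↔ x.val < g := by
  obtain ⟨g, hg⟩ : ∃ g, g = Nat.gcd t N := ⟨_, rfl⟩
  have hgt : g ∣ t := hg ▸ Nat.gcd_dvd_left t N
  have hgN : g ∣ N := hg ▸ Nat.gcd_dvd_right t N
  have hg2 : 2 ∣ g := hg ▸ Nat.dvd_gcd ht.two_dvd hN.two_dvd
  have hg0 : 0 < g := hg ▸ Nat.gcd_pos_of_pos_left N h0
  have hcop : Nat.Coprime (t / g) (N / g) := hg ▸ Nat.coprime_div_gcd_div_gcd (hg ▸ hg0)
  obtain ⟨t', rfl⟩ := hgt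
  obtain ⟨n, rfl⟩ := hgN
  rw [Nat.mul_div_cancel_left _ hg0, Nat.mul_div_cancel_left _ hg0] at hcop
  have ht' : 1 ≤ t' := by
    rcases Nat.eq_zero_or_pos t' with h | h
    · subst h; simp at h0
    · exact h
  have htn : t' < n := lt_of_mul_lt_mul_left h1 (Nat.zero_le g)
  have hn : 3 ≤ n := by
    by_contra hc
    have e1 : n = 2 := by omega
    have e2 : t' = 1 := by omega
    subst e1; subst e2
    exact h2 (by ring)
  have : NeZero n := ⟨by omega⟩
  obtain ⟨u, hu⟩ : ∃ u : ZMod n, (t' : ZMod n) * u = 1 := by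
    refine ⟨(ZMod.unitOfCoprime t' hcop)⁻¹, ?_⟩
    have := (ZMod.unitOfCoprime t' hcop).mul_inv
    rwa [ZMod.coe_unitOfCoprime] at this
  have hvd : ∀ (x : ZMod (g * n)) (s : ℕ),
      (((x + (s : ZMod (g * n))).val / g : ℕ) : ZMod n) = (((x.val + s) / g : ℕ) : ZMod n) := by
    intro x s
    rw [ZMod.val_add, ZMod.val_natCast, Nat.add_mod_mod, Nat.mod_mul_right_div_self,
      ZMod.natCast_mod]
  refine ⟨n, g, fun x => ((x.val / g : ℕ) : ZMod n) * u, hn, (even_iff_two_dvd.2 hg2),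
    Nat.le_of_dvd hg0 hg2, Nat.le_mul_of_pos_right g ht', ?_, ?_, ?_, ?_⟩
  · calc g + g * t' = g * (t' + 1) := by ring
      _ ≤ g * n := Nat.mul_le_mul_left g htn
  · intro x
    show (((x + ((g * t' : ℕ) : ZMod (g * n))).val / g : ℕ) : ZMod n) * u = _
    rw [hvd, Nat.add_mul_div_left _ _ hg0, Nat.cast_add, add_mul, hu]
  · intro x hx
    rw [Zet_parity, ZMod.natCast_eq_zero_iff] at hx
    have e1 := hvd x 1
    rw [Nat.cast_one] at e1
    show (((x + 1).val / g : ℕ) : ZMod n) * u = ((x.val / g : ℕ) : ZMod n) * u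
    rw [e1, Nat.succ_div, if_neg, add_zero]
    intro hc
    have := hg2.trans hc
    omega
  · intro x
    constructor
    · intro hx
      have e1 : ((x.val / g : ℕ) : ZMod n) = 0 := by
        have : ((x.val / g : ℕ) : ZMod n) * u * (t' : ZMod n) = 0 := by
          have hx' : ((x.val / g : ℕ) : ZMod n) * u = 0 := hx
          rw [hx', zero_mul]
        rwa [mul_assoc, mul_comm u, hu, mul_one] at this
      rw [ZMod.natCast_eq_zero_iff] at e1
      have e2 : x.val / g < n := Nat.div_lt_of_lt_mul (ZMod.val_lt x)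
      have e3 : x.val / g = 0 := Nat.eq_zero_of_dvd_of_lt e1 e2
      exact (Nat.div_eq_zero_iff_lt hg0).1 e3
    · intro hx
      show ((x.val / g : ℕ) : ZMod n) * u = 0
      rw [Nat.div_eq_of_lt hx, Nat.cast_zero, zero_mul]

/-- the two ends of the cyclic interval -/
private theorem Zet_J1 (N t g : ℕ) [NeZero N] (h2 : 2 ≤ g) (z : ZMod N)
    (hz : ¬ ((z + (t : ZMod N) + 1 - (g : ZMod N)).val < t ↔
      (z + 1 + (t : ZMod N) + 1 - (g : ZMod N)).val < t)) :
    z = ((g - 2 : ℕ) : ZMod N) ∨ z + (t : ZMod N) = ((g - 2 : ℕ) : ZMod N) := by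
  obtain ⟨v, hv⟩ : ∃ v : ZMod N, v = z + (t : ZMod N) + 1 - (g : ZMod N) := ⟨_, rfl⟩
  have e0 : z + 1 + (t : ZMod N) + 1 - (g : ZMod N) = v + 1 := by rw [hv]; ring
  rw [e0, ← hv] at hz
  have e1 : (v + 1).val = (v.val + 1) % N := by
    have : ((1 : ℕ) : ZMod N) = 1 := Nat.cast_one
    rw [← this, ZMod.val_add, ZMod.val_natCast, Nat.add_mod_mod]
  have e2 : v.val < N := ZMod.val_lt v
  have e3 : ((g - 2 : ℕ) : ZMod N) = (g : ZMod N) - 2 := by
    rw [Nat.cast_sub h2, Nat.cast_ofNat]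
  have e4 : v = (v.val : ZMod N) := (ZMod.natCast_zmod_val v).symm
  by_cases h3 : v.val + 1 = N
  · right
    have e5 : v + 1 = 0 := by
      rw [e4, ← Nat.cast_one, ← Nat.cast_add, h3, ZMod.natCast_self]
    rw [e3]
    have : z + (t : ZMod N) = v + 1 + (g - 2) := by rw [hv]; ring
    rw [this, e5, zero_add]
  · have e5 : (v + 1).val = v.val + 1 := by rw [e1, Nat.mod_eq_of_lt (by omega)]
    rw [e5] at hz
    have e6 : v.val + 1 = t := by
      by_contra h
      exact hz ⟨fun h' => by omega, fun h' => by omega⟩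
    left
    have e7 : v + 1 = (t : ZMod N) := by
      rw [e4, ← Nat.cast_one, ← Nat.cast_add, e6]
    rw [e3]
    have : z = v + 1 - (t : ZMod N) + (g - 2) := by rw [hv]; ring
    rw [this, e7, sub_self, zero_add]

/-- the interval and its translate -/
private theorem Zet_J2 (N t g : ℕ) [NeZero N] (h0 : 0 < t) (h1 : t < N) (h2 : g ≤ t)
    (h3 : g + t ≤ N) (x : ZMod N) (hx : (x + (t : ZMod N)).val < g) :
    ¬ ((x + (t : ZMod N) + 1 - (g : ZMod N)).val < t ↔
      (x + (t : ZMod N) + (t : ZMod N) + 1 - (g : ZMod N)).val < t) := by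
  obtain ⟨y, hy⟩ : ∃ y : ZMod N, y = x + (t : ZMod N) := ⟨_, rfl⟩
  rw [← hy] at hx ⊢
  have e4 : y = (y.val : ZMod N) := (ZMod.natCast_zmod_val y).symm
  have e5 : y + (t : ZMod N) + 1 - (g : ZMod N) = ((y.val + t + 1 - g : ℕ) : ZMod N) := by
    rw [Nat.cast_sub (by omega), Nat.cast_add, Nat.cast_add, Nat.cast_one, ← e4]
  have e6 : (y + (t : ZMod N) + 1 - (g : ZMod N)).val = y.val + t + 1 - g := by
    rw [e5, ZMod.val_natCast, Nat.mod_eq_of_lt (by omega)]
  rw [e6]
  by_cases h4 : y.val + 1 = g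
  · have e7 : y + 1 - (g : ZMod N) = 0 := by
      rw [e4, ← Nat.cast_one, ← Nat.cast_add, h4, sub_self]
    rw [e7, ZMod.val_zero]
    intro h
    have := h.1 h0
    omega
  · have e7 : y + 1 - (g : ZMod N) = ((N + y.val + 1 - g : ℕ) : ZMod N) := by
      rw [Nat.cast_sub (by omega), Nat.cast_add, Nat.cast_add, Nat.cast_one, ← e4,
        ZMod.natCast_self, zero_add]
    have e8 : (y + 1 - (g : ZMod N)).val = N + y.val + 1 - g := by
      rw [e7, ZMod.val_natCast, Nat.mod_eq_of_lt (by omega)]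
    rw [e8]
    intro h
    have := h.2 (by omega)
    omega

theorem thm_Zet (hLab : St_Lab) : St_Zet := by
  classical
  intro N t hN ht h0 h1 h2
  have : NeZero N := ⟨by omega⟩
  have hd : 2 ∣ N := hN.two_dvd
  obtain ⟨n, g, K, hn, hg, hg2, hgt, hgN, hKt, hK1, hK0⟩ := Zet_coord N t hN ht h0 h1 h2 hd
  have : NeZero n := ⟨by omega⟩
  have : Fact (1 < n) := ⟨by omega⟩
  have hN5 : 5 ≤ N := by
    obtain ⟨a, ha⟩ := hN
    obtain ⟨b, hb⟩ := ht
    omega
  obtain ⟨c, hc⟩ : ∃ c : ZMod N →+* ZMod 2, c = ZMod.castHom hd (ZMod 2) := ⟨_, rfl⟩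
  rw [← hc] at hK1
  have hct : c (t : ZMod N) = 0 := by
    rw [map_natCast, ZMod.natCast_eq_zero_iff]
    exact ht.two_dvd
  have hc1 : ∀ x, c (x + 1) = c x + 1 := fun x => by rw [map_add, map_one]
  have hcT : ∀ x, c (x + (t : ZMod N)) = c x := fun x => by rw [map_add, hct, add_zero]
  have hcs : ∀ a : ZMod N, a ≠ 0 ↔ ∀ x, x + a ≠ x := fun a =>
    ⟨fun h x hx => h (by simpa using hx), fun h h' => h 0 (by rw [h', add_zero])⟩
  have hz : ∀ k : ℕ, 0 < k → k < N → (k : ZMod N) ≠ 0 := by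
    intro k hk hkN h
    rw [ZMod.natCast_eq_zero_iff] at h
    exact absurd (Nat.le_of_dvd hk h) (by omega)
  have z1 : (1 : ZMod N) ≠ 0 := by simpa using hz 1 (by omega) (by omega)
  have zt : (t : ZMod N) ≠ 0 := hz t h0 h1
  have z2 : (1 : ZMod N) + 1 ≠ 0 := by
    have := hz 2 (by omega) (by omega)
    rw [Nat.cast_ofNat] at this
    rwa [one_add_one_eq_two]
  have ztt : (t : ZMod N) + t ≠ 0 := by
    intro h
    rw [← Nat.cast_add, ZMod.natCast_eq_zero_iff] at h
    obtain ⟨k, hk⟩ := h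
    rcases k with _ | _ | k
    · omega
    · omega
    · have : N * 2 ≤ N * (k + 2) := Nat.mul_le_mul_left N (by omega)
      have e : N * (k + 1 + 1) = N * (k + 2) := by ring
      omega
  have hc01 : ∀ a : ZMod N, c a = 1 → a ≠ 0 := by
    intro a ha h
    rw [h, map_zero] at ha
    exact absurd ha (by decide)
  have hR : Reg4 (Equiv.addRight (1 : ZMod N)) (Equiv.addRight (t : ZMod N)) := by
    refine ⟨fun x => (hcs _).1 z1 x, fun x => (hcs _).1 zt x, fun x => ?_, fun x => ?_, fun x => ?_,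
      fun x => ?_, fun x => ?_⟩
    · show x + 1 + 1 ≠ x
      rw [add_assoc]
      exact (hcs _).1 z2 x
    · show x + (t : ZMod N) + t ≠ x
      rw [add_assoc]
      exact (hcs _).1 ztt x
    · show x + 1 ≠ x + (t : ZMod N)
      intro h
      have := congrArg c h
      rw [hc1, hcT] at this
      exact absurd this (by simp)
    · show x + (t : ZMod N) + 1 ≠ x
      rw [add_assoc]
      refine (hcs _).1 (hc01 _ ?_) x
      rw [hc1, hct, zero_add]
    · show x + 1 + (t : ZMod N) ≠ x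
      rw [add_assoc]
      refine (hcs _).1 (hc01 _ ?_) x
      rw [hcT, map_one]
  have hgs : c ((g - 2 : ℕ) : ZMod N) = 0 := by
    rw [map_natCast, ZMod.natCast_eq_zero_iff]
    exact (Nat.dvd_sub hg.two_dvd (dvd_refl 2))
  have hgK : K ((g - 2 : ℕ) : ZMod N) = 0 := by
    rw [hK0, ZMod.val_natCast, Nat.mod_eq_of_lt (by omega)]
    omega
  have hne : (0 : ZMod n) ≠ -1 := by
    intro h
    have : (1 : ZMod n) = 0 := by
      have := congrArg (fun a => -a) h
      simpa using this.symm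
    exact one_ne_zero this
  let fa : ZMod N → Bool := fun z => decide (c z = 0 ∧ (K z = 0 ∨ K z = -1))
  let fb : ZMod N → Bool := fun x => decide (K x ≠ -1)
  let p : Bool → ZMod N → Bool := fun b x =>
    if b = true then decide (c x + ((K x).val : ZMod 2) = 0)
    else decide ((c x = 0) ↔ (x + (t : ZMod N) + 1 - (g : ZMod N)).val < t)
  have hfa : ∀ z, fa z = decide (c z = 0 ∧ (K z = 0 ∨ K z = -1)) := fun _ => rfl
  have hfb : ∀ z, fb z = decide (K z ≠ -1) := fun _ => rfl
  have hpt : ∀ x, p true x = decide (c x + ((K x).val : ZMod 2) = 0) := fun _ => rfl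
  have hpf : ∀ x, p false x = decide ((c x = 0) ↔
    (x + (t : ZMod N) + 1 - (g : ZMod N)).val < t) := fun _ => rfl
  have hflip : ∀ a : ZMod 2, decide (a + 1 = 0) ≠ decide (a = 0) := by decide
  refine hLab (ZMod N) _ _ hR Bool fa fb p ⟨?_, ?_, ?_⟩
  · intro x
    show p (fa x) (x + 1) ≠ p (fa x) x
    by_cases hx : c x = 0 ∧ (K x = 0 ∨ K x = -1)
    · have e1 : fa x = true := by rw [hfa]; exact decide_eq_true hx
      rw [e1, hpt, hpt, hc1, hK1 x hx.1, add_right_comm]
      exact hflip _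
    · have e1 : fa x = false := by rw [hfa]; exact decide_eq_false hx
      rw [e1, hpf, hpf]
      have e2 : ((x + (t : ZMod N) + 1 - (g : ZMod N)).val < t ↔
          (x + 1 + (t : ZMod N) + 1 - (g : ZMod N)).val < t) := by
        by_contra h
        rcases Zet_J1 N t g hg2 x h with h | h
        · exact hx ⟨by rw [h]; exact hgs, Or.inl (by rw [h]; exact hgK)⟩
        · refine hx ⟨by rw [← hcT, h]; exact hgs, Or.inr ?_⟩
          have := hKt x
          rw [h, hgK] at this
          exact eq_neg_of_add_eq_zero_left this.symm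
      rw [hc1]
      intro h
      rw [decide_eq_decide] at h
      have h12 : (c x + 1 = 0) ↔ ¬ (c x = 0) := by
        rcases Zet_two (c x) with h' | h' <;> rw [h'] <;> decide
      exact Zet_p2 e2 h12 h
  · intro x
    show p (fb x) (x + (t : ZMod N)) ≠ p (fb x) x
    by_cases hx : K x = -1
    · have e1 : fb x = false := by rw [hfb]; exact decide_eq_false (not_not_intro hx)
      rw [e1, hpf, hpf, hcT]
      have e2 : (x + (t : ZMod N)).val < g := by
        rw [← hK0, hKt, hx, neg_add_cancel]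
      have e3 := Zet_J2 N t g h0 h1 hgt hgN x e2
      intro h
      rw [decide_eq_decide] at h
      exact Zet_p1 e3 h
    · have e1 : fb x = true := by rw [hfb]; exact decide_eq_true hx
      rw [e1, hpt, hpt, hcT, hKt]
      have e2 : (K x + 1).val = (K x).val + 1 := by
        have e4 : K x = (((K x).val : ℕ) : ZMod n) := (ZMod.natCast_zmod_val (K x)).symm
        have e5 : (K x).val < n := ZMod.val_lt _
        have e6 : (K x).val + 1 ≠ n := by
          intro h
          apply hx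
          rw [eq_neg_iff_add_eq_zero, e4, ← Nat.cast_one, ← Nat.cast_add, h, ZMod.natCast_self]
        have e7 : (K x + 1).val = ((K x).val + 1) % n := by
          have : ((1 : ℕ) : ZMod n) = 1 := Nat.cast_one
          rw [← this, ZMod.val_add, ZMod.val_natCast, Nat.add_mod_mod]
        rw [e7, Nat.mod_eq_of_lt (by omega)]
      rw [e2, Nat.cast_add, Nat.cast_one, ← add_assoc]
      exact hflip _
  · intro x y z hy hz'
    have hy' : y + 1 = x := hy
    have hz'' : z + (t : ZMod N) = x := hz'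
    have cK : K x = K z + 1 := by rw [← hz'', hKt]
    have cc : c x = c y + 1 := by rw [← hy', hc1]
    have cKy : c y = 0 → K x = K y := fun h => by rw [← hy', hK1 y h]
    have f1 : fb z = decide (K x ≠ 0) := by
      rw [hfb, decide_eq_decide, cK]
      rw [not_iff_not]
      exact ⟨fun h => by rw [h, neg_add_cancel], fun h => eq_neg_of_add_eq_zero_left h⟩
    have f2 : fa y = decide (c x = 1 ∧ (K x = 0 ∨ K x = -1)) := by
      rw [hfa, decide_eq_decide, cc]
      rcases Zet_two (c y) with h | h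
      · rw [cKy h, h, zero_add]
        simp
      · rw [h]
        have h10 : ¬ ((1 : ZMod 2) + 1 = 1) := by decide
        have h11 : ¬ ((1 : ZMod 2) = 0) := by decide
        exact iff_of_false (fun q => h11 q.1) (fun q => h10 q.1)
    rw [f1, f2, hfa, hfb]
    have h01 : ¬ ((0 : ZMod 2) = 1) := by decide
    have h11 : ¬ ((1 : ZMod 2) = 0) := by decide
    rcases Zet_two (c x) with h | h <;> rw [h] <;> by_cases k0 : K x = 0
    · rw [k0]
      simp [hne]
    · by_cases k1 : K x = -1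
      · rw [k1]
        simp [hne.symm]
      · simp [k0, k1]
    · rw [k0]
      simp [hne]
    · by_cases k1 : K x = -1
      · rw [k1]
        simp [hne.symm]
      · simp [k0, k1]

end Pool.Agent.CEC
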